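import Pool.Agent.LefRed.EXall

/-!
Maximal rank in all degrees up to the length of the first list, and dually.
-/

set_option autoImplicit false
set_option linter.unusedSectionVars false

namespace Pool.Agent.LefRed

open MvPolynomial Pool.Agent.LefProd

universe u

variable {F : Type u} [Field F] {n : ℕ}

/-- all degrees up to the length -/
theorem EX_upto [CharZero F] {l : List (Fin n → F)} {𝓛 : List (List (Fin n → F))}
    (hci : CI ⊥ (l :: 𝓛)) {v : Fin n → F} (hvl : v ∈ l) (hred : Red ⊥ v 𝓛)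
    (h2 : ∀ l' ∈ 𝓛, 2 ≤ l'.length) {j : ℕ} (hjl : j ≤ l.length)
    (hj : 2 * j + 1 ≤ sg (l :: 𝓛)) : EX (J ⊥ (l :: 𝓛)) 1 j := by
  have hj' := hj
  rw [sg_cons] at hj'
  have hl : 1 ≤ l.length := List.length_pos_iff.2 (hci.1 l List.mem_cons_self)
  rcases Nat.lt_or_ge j l.length with hlt | hge
  · exact EX_low hci hvl hred hlt hj
  · obtain rfl : j = l.length := by omega
    exact EX_top hci hvl hred h2 (by omega)

/-- maximal rank up to the length and dually -/
theorem mr_all [CharZero F] {l : List (Fin n → F)} {𝓛 : List (List (Fin n → F))}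
    (hci : CI ⊥ (l :: 𝓛)) {v : Fin n → F} (hvl : v ∈ l) (hred : Red ⊥ v 𝓛)
    (h2 : ∀ l' ∈ 𝓛, 2 ≤ l'.length) :
    ∃ μ, ∀ j, (j ≤ l.length ∨ sg (l :: 𝓛) ≤ j + 1 + l.length) →
      MaxRank (J ⊥ (l :: 𝓛)) (lin μ) 1 j := by
  have : Infinite F := CharZero.infinite F
  obtain ⟨μ, hμ⟩ := exists_common
    (P := fun j ν => j ≤ l.length → 2 * j + 1 ≤ sg (l :: 𝓛) → LI (J ⊥ (l :: 𝓛)) ν 1 j)
    (fun j => Op_imp _ (Op_imp _ (Op_LI _ _ _)))
    (fun j => ex_imp fun h1 => ex_imp fun h3 => EX_upto hci hvl hred h2 h1 h3)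
    (sg (l :: 𝓛) + 1)
  refine ⟨μ, fun j hj => ?_⟩
  by_cases h1 : 2 * j + 1 ≤ sg (l :: 𝓛)
  · exact Or.inl (hμ j (by omega) (by omega) h1)
  · right
    intro q hq
    by_cases h3 : j + 1 ≤ sg (l :: 𝓛)
    · exact surj_of_LI hci (j' := sg (l :: 𝓛) - (j + 1)) (by omega)
        (hμ _ (by omega) (by omega) (by omega)) hq
    · refine ⟨0, isHomogeneous_zero _ _ _, ?_⟩
      rw [mul_zero, sub_zero]
      exact top_vanish hci hq (by omega)

end Pool.Agent.LefRed
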