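import Mathlib

/-!
# Counting points of a reduced grid in a family of subspaces
-/

set_option autoImplicit false

open Module

namespace Pool.Agent.LefProd

section prodLemmas

variable {ι : Type*} [Fintype ι]

omit [Fintype ι] in
theorem cnt_two_le (a : ι → ℕ) (ha : ∀ i, 2 ≤ a i) (J : Finset ι) (hJ : 1 ≤ J.card) :
    2 ≤ ∏ i ∈ J, a i := by
  obtain ⟨j, hj⟩ := Finset.card_pos.1 hJ
  have h1 : a j ∣ ∏ i ∈ J, a i := Finset.dvd_prod_of_mem a hj
  have h2 : 0 < ∏ i ∈ J, a i := Finset.prod_pos fun i _ => by have := ha i; omega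
  exact (ha j).trans (Nat.le_of_dvd h2 h1)

theorem cnt_join_aux (a : ι → ℕ) (ha : ∀ i, 2 ≤ a i) (J1 J2 : Finset ι)
    (h1 : 1 ≤ J1.card) (h : J1.card + J2.card ≤ Fintype.card ι)
    (hle : ∏ i ∈ J1, a i ≤ ∏ i ∈ J2, a i) :
    ∃ J : Finset ι, J.card = J1.card + J2.card ∧
      ∏ i ∈ J1, a i + ∏ i ∈ J2, a i ≤ ∏ i ∈ J, a i := by
  classical
  obtain ⟨J, hJ2, -, hJ⟩ := Finset.exists_subsuperset_card_eq (Finset.subset_univ J2)
    (n := J1.card + J2.card) (by omega) (by simpa using h)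
  refine ⟨J, hJ, ?_⟩
  have h3 : ∏ i ∈ J, a i = (∏ i ∈ J \ J2, a i) * ∏ i ∈ J2, a i := by
    rw [mul_comm, mul_comm]
    exact (Finset.prod_sdiff hJ2).symm
  have h4 : (J \ J2).card = J1.card := by
    rw [Finset.card_sdiff_of_subset hJ2, hJ]
    omega
  have h5 := cnt_two_le a ha (J \ J2) (by omega)
  rw [h3]
  calc ∏ i ∈ J1, a i + ∏ i ∈ J2, a i ≤ 2 * ∏ i ∈ J2, a i := by omega
    _ ≤ (∏ i ∈ J \ J2, a i) * ∏ i ∈ J2, a i := Nat.mul_le_mul_right _ h5

theorem cnt_join (a : ι → ℕ) (ha : ∀ i, 2 ≤ a i) (J1 J2 : Finset ι)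
    (h1 : 1 ≤ J1.card) (h2 : 1 ≤ J2.card) (h : J1.card + J2.card ≤ Fintype.card ι) :
    ∃ J : Finset ι, J.card = J1.card + J2.card ∧
      ∏ i ∈ J1, a i + ∏ i ∈ J2, a i ≤ ∏ i ∈ J, a i := by
  rcases le_total (∏ i ∈ J1, a i) (∏ i ∈ J2, a i) with hle | hle
  · exact cnt_join_aux a ha J1 J2 h1 h hle
  · obtain ⟨J, hJ, hJ'⟩ := cnt_join_aux a ha J2 J1 h2 (by omega) hle
    exact ⟨J, by omega, by omega⟩

theorem cnt_sum {κ : Type*} (a : ι → ℕ) (ha : ∀ i, 2 ≤ a i) (t c : κ → ℕ) (K : Finset κ)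
    (hK : K.Nonempty) (ht : ∀ s ∈ K, 1 ≤ t s)
    (hc : ∀ s ∈ K, ∃ J : Finset ι, J.card = t s ∧ c s ≤ ∏ i ∈ J, a i)
    (hs : ∑ s ∈ K, t s ≤ Fintype.card ι) :
    ∃ J : Finset ι, J.card = ∑ s ∈ K, t s ∧ ∑ s ∈ K, c s ≤ ∏ i ∈ J, a i := by
  classical
  induction hK using Finset.Nonempty.cons_induction with
  | singleton s =>
    simpa using hc s (Finset.mem_singleton_self s)
  | cons s K hsK hK ih =>
    rw [Finset.sum_cons] at hs
    obtain ⟨J1, hJ1, hc1⟩ := ih (fun s' hs' => ht s' (Finset.mem_cons_of_mem hs'))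
      (fun s' hs' => hc s' (Finset.mem_cons_of_mem hs')) (by omega)
    obtain ⟨J2, hJ2, hc2⟩ := hc s (Finset.mem_cons_self s K)
    have h1 : 1 ≤ J1.card := by
      obtain ⟨s', hs'⟩ := hK
      rw [hJ1]
      exact (ht s' (Finset.mem_cons_of_mem hs')).trans
        (Finset.single_le_sum (f := t) (fun _ _ => Nat.zero_le _) hs')
    have h2 : 1 ≤ J2.card := by
      rw [hJ2]
      exact ht s (Finset.mem_cons_self s K)
    obtain ⟨J, hJ, hJ'⟩ := cnt_join a ha J2 J1 h2 h1 (by omega)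
    refine ⟨J, ?_, ?_⟩
    · rw [Finset.sum_cons]
      omega
    · rw [Finset.sum_cons]
      omega

end prodLemmas

section linear

variable {F : Type*} [Field F] {n : ℕ}

/-- The linear form with coefficients `u`. -/
def cntForm (u : Fin n → F) : (Fin n → F) →ₗ[F] F where
  toFun x := u ⬝ᵥ x
  map_add' x y := dotProduct_add u x y
  map_smul' t x := by simp [dotProduct_smul]

theorem cut_rank (S : Submodule F (Fin n → F)) (u : Fin n → F) (r : ℕ)
    (hS : finrank F S = r + 1) (hu : ∃ x ∈ S, u ⬝ᵥ x ≠ 0) :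
    ∃ T : Submodule F (Fin n → F), finrank F T = r ∧ ∀ x, x ∈ T ↔ x ∈ S ∧ u ⬝ᵥ x = 0 := by
  set φ : S →ₗ[F] F := (cntForm u).domRestrict S with hφ
  refine ⟨(LinearMap.ker φ).map S.subtype, ?_, ?_⟩
  · have h1 := LinearMap.finrank_range_add_finrank_ker φ
    have h2 : finrank F (LinearMap.range φ) = 1 := by
      apply le_antisymm
      · exact (Submodule.finrank_le _).trans_eq (Module.finrank_self F)
      · obtain ⟨x, hx, hux⟩ := hu
        have h3 : LinearMap.range φ ≠ ⊥ := by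
          intro h4
          rw [LinearMap.range_eq_bot] at h4
          apply hux
          have h5 := LinearMap.congr_fun h4 ⟨x, hx⟩
          exact h5
        exact Submodule.one_le_finrank_iff.2 h3
    rw [Submodule.finrank_map_subtype_eq]
    omega
  · intro x
    constructor
    · rintro ⟨⟨y, hy⟩, hy2, rfl⟩
      exact ⟨hy, hy2⟩
    · rintro ⟨hx, hx2⟩
      exact ⟨⟨x, hx⟩, hx2, rfl⟩

open Classical in
theorem cnt_flat {ι : Type*} [Fintype ι] (L : ι → Finset (Fin n → F)) (a : ι → ℕ)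
    (hLa : ∀ i, (L i).card ≤ a i)
    (htr : ∀ u : ι → (Fin n → F), (∀ i, u i ∈ L i) → ∀ x y : Fin n → F,
      (∀ i, u i ⬝ᵥ x = 0) → (∀ i, u i ⬝ᵥ y = 0) → x ≠ 0 → ∃ t : F, y = t • x)
    (G : Finset (Fin n → F)) (v : Fin n → F) (hv : ∀ P ∈ G, v ⬝ᵥ P = 1)
    (hG : ∀ P ∈ G, ∀ i, ∃ u ∈ L i, u ⬝ᵥ P = 0) (hne : G.Nonempty) (r : ℕ) :
    ∀ S : Submodule F (Fin n → F), finrank F S = r + 1 →
      ∃ J : Finset ι, J.card = r ∧ (∀ i ∈ J, ∀ u ∈ L i, ∃ x ∈ S, u ⬝ᵥ x ≠ 0) ∧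
        (G.filter (· ∈ S)).card ≤ ∏ i ∈ J, a i := by
  induction r with
  | zero =>
    intro S hS
    refine ⟨∅, rfl, by simp, ?_⟩
    rw [Finset.prod_empty, Finset.card_le_one]
    intro P hP Q hQ
    rw [Finset.mem_filter] at hP hQ
    have h1 : finrank F S = 1 := by simpa using hS
    have hP0 : (⟨P, hP.2⟩ : S) ≠ 0 := by
      intro h
      have h2 : P = 0 := congrArg Subtype.val h
      have h3 := hv P hP.1
      rw [h2, dotProduct_zero] at h3
      exact zero_ne_one h3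
    obtain ⟨c, hc⟩ := (finrank_eq_one_iff_of_nonzero' (⟨P, hP.2⟩ : S) hP0).1 h1 ⟨Q, hQ.2⟩
    have h4 : c • P = Q := congrArg Subtype.val hc
    have h5 := hv Q hQ.1
    rw [← h4, dotProduct_smul, hv P hP.1, smul_eq_mul, mul_one] at h5
    rw [← h4, h5, one_smul]
  | succ r ih =>
    intro S hS
    -- some index cuts
    have hex : ∃ i, ∀ u ∈ L i, ∃ x ∈ S, u ⬝ᵥ x ≠ 0 := by
      by_contra hcon
      push Not at hcon
      choose u hu hu2 using hcon
      have h1 : 1 < finrank F S := by omega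
      have : Nontrivial S := Module.nontrivial_of_finrank_pos (R := F) (by omega)
      obtain ⟨x, hx⟩ := exists_ne (0 : S)
      have hx0 : (x : Fin n → F) ≠ 0 := fun h => hx (Subtype.ext h)
      have h2 : finrank F S ≤ 1 := by
        refine finrank_le_one x fun y => ?_
        obtain ⟨t, ht⟩ := htr u hu x y (fun i => hu2 i x x.2) (fun i => hu2 i y y.2) hx0
        exact ⟨t, Subtype.ext ht.symm⟩
      omega
    obtain ⟨i, hi⟩ := hex
    have hLi : (L i).Nonempty := by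
      obtain ⟨P, hP⟩ := hne
      obtain ⟨u, hu, -⟩ := hG P hP i
      exact ⟨u, hu⟩
    choose! T hT1 hT2 using fun u (hu : u ∈ L i) => cut_rank S u (r + 1) hS (hi u hu)
    choose! J hJ1 hJ2 hJ3 using fun u (hu : u ∈ L i) => ih (T u) (hT1 u hu)
    obtain ⟨w, hw, hmax⟩ := Finset.exists_max_image (L i) (fun u => ∏ j ∈ J u, a j) hLi
    have hiw : i ∉ J w := by
      intro h
      obtain ⟨x, hx, hx2⟩ := hJ2 w hw i h w hw
      exact hx2 ((hT2 w hw x).1 hx).2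
    refine ⟨insert i (J w), ?_, ?_, ?_⟩
    · rw [Finset.card_insert_of_notMem hiw, hJ1 w hw]
    · intro j hj u hu
      rw [Finset.mem_insert] at hj
      rcases hj with rfl | hj
      · exact hi u hu
      · obtain ⟨x, hx, hx2⟩ := hJ2 w hw j hj u hu
        exact ⟨x, ((hT2 w hw x).1 hx).1, hx2⟩
    · rw [Finset.prod_insert hiw]
      have h1 : G.filter (· ∈ S) ⊆ (L i).biUnion fun u => G.filter (· ∈ T u) := by
        intro P hP
        rw [Finset.mem_filter] at hP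
        obtain ⟨u, hu, huP⟩ := hG P hP.1 i
        rw [Finset.mem_biUnion]
        exact ⟨u, hu, Finset.mem_filter.2 ⟨hP.1, (hT2 u hu P).2 ⟨hP.2, huP⟩⟩⟩
      calc (G.filter (· ∈ S)).card
          ≤ ((L i).biUnion fun u => G.filter (· ∈ T u)).card := Finset.card_le_card h1
        _ ≤ ∑ u ∈ L i, (G.filter (· ∈ T u)).card := Finset.card_biUnion_le
        _ ≤ ∑ u ∈ L i, ∏ j ∈ J w, a j :=
            Finset.sum_le_sum fun u hu => (hJ3 u hu).trans (hmax u hu)
        _ = (L i).card * ∏ j ∈ J w, a j := by rw [Finset.sum_const, smul_eq_mul]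
        _ ≤ a i * ∏ j ∈ J w, a j := Nat.mul_le_mul_right _ (hLa i)

open Classical in
theorem count_main {ι : Type*} [Fintype ι] (L : ι → Finset (Fin n → F)) (a : ι → ℕ)
    (hLa : ∀ i, (L i).card ≤ a i) (ha : ∀ i, 2 ≤ a i) (hι : Fintype.card ι + 1 = n)
    (htr : ∀ u : ι → (Fin n → F), (∀ i, u i ∈ L i) → ∀ x y : Fin n → F,
      (∀ i, u i ⬝ᵥ x = 0) → (∀ i, u i ⬝ᵥ y = 0) → x ≠ 0 → ∃ t : F, y = t • x)
    (G : Finset (Fin n → F)) (v : Fin n → F) (hv : ∀ P ∈ G, v ⬝ᵥ P = 1)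
    (hG : ∀ P ∈ G, ∀ i, ∃ u ∈ L i, u ⬝ᵥ P = 0) (hcard : G.card = ∏ i, a i)
    (K : Finset (Finset (Fin n → F))) (hcov : ∀ P ∈ G, ∃ S ∈ K, P ∈ S)
    (hrk : ∀ S ∈ K, 2 ≤ Module.finrank F (Submodule.span F (S : Set (Fin n → F))))
    (hsum : ∑ S ∈ K, (Module.finrank F (Submodule.span F (S : Set (Fin n → F))) - 1) + 2 ≤ n) :
    False := by
  have hpos : 0 < ∏ i, a i := Finset.prod_pos fun i _ => by have := ha i; omega
  have hne : G.Nonempty := by
    rw [← Finset.card_pos, hcard]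
    exact hpos
  have hKne : K.Nonempty := by
    obtain ⟨P, hP⟩ := hne
    obtain ⟨S, hS, -⟩ := hcov P hP
    exact ⟨S, hS⟩
  set t : Finset (Fin n → F) → ℕ := fun S =>
    Module.finrank F (Submodule.span F (S : Set (Fin n → F))) - 1 with ht
  set c : Finset (Fin n → F) → ℕ := fun S =>
    (G.filter (· ∈ Submodule.span F (S : Set (Fin n → F)))).card with hc
  have hsum' : ∑ S ∈ K, t S + 2 ≤ n := hsum
  obtain ⟨J, hJ1, hJ2⟩ := cnt_sum a ha t c K hKne (fun S hS => by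
      have := hrk S hS
      simp only [ht]
      omega) (fun S hS => by
      have h2 := hrk S hS
      obtain ⟨J, hJ1, -, hJ3⟩ := cnt_flat L a hLa htr G v hv hG hne (t S)
        (Submodule.span F (S : Set (Fin n → F))) (by simp only [ht]; omega)
      exact ⟨J, hJ1, hJ3⟩) (by omega)
  have h1 : G ⊆ K.biUnion fun S => G.filter (· ∈ Submodule.span F (S : Set (Fin n → F))) := by
    intro P hP
    obtain ⟨S, hS, hPS⟩ := hcov P hP
    rw [Finset.mem_biUnion]
    exact ⟨S, hS, Finset.mem_filter.2 ⟨hP, Submodule.subset_span (by simpa using hPS)⟩⟩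
  have h2 : G.card ≤ ∏ i ∈ J, a i :=
    (Finset.card_le_card h1).trans (Finset.card_biUnion_le.trans hJ2)
  have h3 : ∏ i, a i = (∏ i ∈ Finset.univ \ J, a i) * ∏ i ∈ J, a i :=
    (Finset.prod_sdiff (Finset.subset_univ J)).symm
  have h4 : 1 ≤ (Finset.univ \ J).card := by
    rw [Finset.card_sdiff_of_subset (Finset.subset_univ J), Finset.card_univ]
    omega
  have h5 := cnt_two_le a ha _ h4
  have h6 : 0 < ∏ i ∈ J, a i := Finset.prod_pos fun i _ => by have := ha i; omega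
  have h7 : 2 * ∏ i ∈ J, a i ≤ (∏ i ∈ Finset.univ \ J, a i) * ∏ i ∈ J, a i :=
    Nat.mul_le_mul_right _ h5
  omega

end linear

end Pool.Agent.LefProd
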