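import Pool.Agent.LefRed.Glue1

/-!
The degrees below the length of the last list, and all degrees.
-/

set_option autoImplicit false
set_option linter.unusedSectionVars false

namespace Pool.Agent.LefRed

open MvPolynomial Pool.Agent.LefProd

universe u

variable {F : Type u} [Field F] {n : ℕ}

/-- the sum of `c P / m(P)` is not zero for all `m` -/
lemma poles [CharZero F] (G : Finset (Fin n → F)) (hne : G.Nonempty) (c : (Fin n → F) → F)
    (hc : ∀ P ∈ G, c P ≠ 0) (v : Fin n → F) (hv : ∀ P ∈ G, v ⬝ᵥ P = 1) :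
    ∃ m : Fin n → F, (∀ P ∈ G, m ⬝ᵥ P ≠ 0) ∧ ∑ P ∈ G, c P / (m ⬝ᵥ P) ≠ 0 := by
  classical
  by_contra hcon
  push Not at hcon
  obtain ⟨P0, hP0⟩ := hne
  -- the numerator vanishes identically
  set q : MvPolynomial (Fin n) F := ∑ P ∈ G, C (c P) * ∏ Q ∈ G.erase P, lin Q with hq
  set D : MvPolynomial (Fin n) F := ∏ Q ∈ G, lin Q with hD
  have hD0 : D ≠ 0 := by
    refine Finset.prod_ne_zero_iff.2 fun Q hQ => lin_ne_zero ?_
    rintro rfl
    have := hv 0 hQ
    simp at this
  have hqD : q * D = 0 := by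
    by_contra hne
    obtain ⟨m, hm⟩ := exists_eval_ne hne
    rw [map_mul] at hm
    have hmD : eval m D ≠ 0 := right_ne_zero_of_mul hm
    have hmP : ∀ P ∈ G, m ⬝ᵥ P ≠ 0 := by
      intro P hP h
      apply hmD
      rw [hD, map_prod]
      refine Finset.prod_eq_zero hP ?_
      rw [LefRed.eval_lin, dotProduct_comm, h]
    apply left_ne_zero_of_mul hm
    have h1 := hcon m hmP
    have h2 : eval m q = eval m D * ∑ P ∈ G, c P / (m ⬝ᵥ P) := by
      rw [hq, map_sum, Finset.mul_sum]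
      refine Finset.sum_congr rfl fun P hP => ?_
      rw [hD, ← Finset.mul_prod_erase G _ hP, map_mul, map_mul, eval_C, LefRed.eval_lin,
        dotProduct_comm P m]
      have := hmP P hP
      field_simp
    rw [h2, h1, mul_zero]
  have hq0 : q = 0 := (mul_eq_zero.1 hqD).resolve_right hD0
  -- a form through `P0` only
  have hE : (∏ Q ∈ G.erase P0, lin (Q - P0) : MvPolynomial (Fin n) F) ≠ 0 :=
    Finset.prod_ne_zero_iff.2 fun Q hQ =>
      lin_ne_zero (sub_ne_zero.2 (Finset.ne_of_mem_erase hQ))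
  obtain ⟨z, hz⟩ := exists_eval_ne hE
  rw [map_prod, Finset.prod_ne_zero_iff] at hz
  set y : Fin n → F := z - (z ⬝ᵥ P0) • v with hy
  have hyQ : ∀ Q ∈ G, Q ⬝ᵥ y = z ⬝ᵥ (Q - P0) := by
    intro Q hQ
    rw [hy, dotProduct_sub, dotProduct_smul, dotProduct_comm Q v, hv Q hQ, smul_eq_mul, mul_one,
      dotProduct_sub, dotProduct_comm Q z]
  have h3 := congrArg (eval y) hq0
  rw [hq, map_zero, map_sum, Finset.sum_eq_single P0] at h3
  · rw [map_mul, eval_C, map_prod] at h3
    rcases mul_eq_zero.1 h3 with h | h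
    · exact hc P0 hP0 h
    · obtain ⟨Q, hQ, hQ0⟩ := Finset.prod_eq_zero_iff.1 h
      apply hz Q hQ
      rw [LefRed.eval_lin] at hQ0 ⊢
      rw [hyQ Q (Finset.mem_of_mem_erase hQ)] at hQ0
      rw [dotProduct_comm, hQ0]
  · intro P hP hPP0
    rw [map_mul, map_prod]
    refine mul_eq_zero_of_right _ (Finset.prod_eq_zero (i := P0)
      (Finset.mem_erase.2 ⟨hPP0.symm, hP0⟩) ?_)
    rw [LefRed.eval_lin, hyQ P0 hP0, sub_self, dotProduct_zero]
  · intro h
    exact absurd hP0 h

/-- degrees below the length -/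
theorem EX_low [CharZero F] {l : List (Fin n → F)} {𝓛 : List (List (Fin n → F))}
    (hci : CI ⊥ (l :: 𝓛)) {v : Fin n → F} (hvl : v ∈ l) (hred : Red ⊥ v 𝓛) {j : ℕ}
    (hj : j + 1 ≤ l.length) (hj2 : 2 * j + 1 ≤ sg (l :: 𝓛)) :
    EX (J ⊥ (l :: 𝓛)) 1 j := by
  have hv := hci.2.1 v hvl
  have hdim := hci.2.2
  rw [List.length_cons] at hdim
  obtain ⟨G, r, hG, hcard, hr0, -, hr⟩ := residue hci.1.tail hv.1 hv.2 (by omega) hred
  have hne : G.Nonempty := by
    rw [← Finset.card_pos, hcard]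
    apply List.prod_pos
    intro x hx
    obtain ⟨l', hl', rfl⟩ := List.mem_map.1 hx
    exact List.length_pos_iff.2 (hci.1.tail l' hl')
  have hvP : ∀ P ∈ G, v ⬝ᵥ P = 1 := fun P hP => ((hG P).1 hP).1
  have hle : J ⊥ 𝓛 ≤ J ⊥ (l :: 𝓛) := by
    rw [J_cons]; exact le_sup_right
  rcases Nat.lt_or_ge (j + 1) l.length with hlt | hge
  · refine ⟨v, fun p hp hmp => ?_⟩
    rw [pow_one] at hmp
    have hmph : (lin v * p).IsHomogeneous (j + 1) := by
      have := (lin_isHomogeneous v).mul hp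
      rwa [add_comm] at this
    exact hle (nzd_of_ne hci hvl G hG hne (fun P hP => by rw [hvP P hP]; exact one_ne_zero)
      (cons_hom_lt hmph hmp hlt))
  · have hja : l.length = j + 1 := by omega
    rw [sg_cons] at hj2
    obtain ⟨m, hm, hms⟩ := poles G hne (fun P => r P * eval P (pr l))
      (fun P hP => mul_ne_zero (hr0 P hP) (eval_pr_ne hci hvl G hG hP)) v hvP
    refine ⟨m, fun p hp hmp => ?_⟩
    rw [pow_one] at hmp
    have hmph : (lin m * p).IsHomogeneous (j + 1) := by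
      have := (lin_isHomogeneous m).mul hp
      rwa [add_comm] at this
    obtain ⟨h, hh, hmem⟩ := cons_hom hmph hmp (by omega)
    rw [show j + 1 - l.length = 0 by omega] at hh
    have hC : h = C (coeff 0 h) :=
      totalDegree_eq_zero_iff_eq_C.1 (Nat.le_zero.1 hh.totalDegree_le)
    set t : F := coeff 0 h with ht
    rw [hC] at hmem
    have ht0 : t = 0 := by
      have h1 := hr j p (by omega) hp
      have h2 : ∀ P ∈ G, r P * eval P p = t * (r P * eval P (pr l) / (m ⬝ᵥ P)) := by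
        intro P hP
        have h3 := eval_mem hci hvl G hG hP hmem
        rw [map_sub, map_mul, map_mul, LefProd.eval_lin, eval_C, sub_eq_zero] at h3
        have h4 := hm P hP
        field_simp
        linear_combination (r P) * h3
      rw [Finset.sum_congr rfl h2, ← Finset.mul_sum] at h1
      exact (mul_eq_zero.1 h1).resolve_right hms
    rw [ht0, C_0, mul_zero, sub_zero] at hmem
    exact hle (nzd_of_ne hci hvl G hG hne hm hmem)

/-- all degrees -/
theorem EX_all [CharZero F] {l : List (Fin n → F)} {𝓛 : List (List (Fin n → F))}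
    (hci : CI ⊥ (l :: 𝓛)) {v : Fin n → F} (hvl : v ∈ l) (hred : Red ⊥ v 𝓛)
    (h2 : ∀ l' ∈ 𝓛, 2 ≤ l'.length) (ha : sg 𝓛 ≤ l.length + 3) {j : ℕ}
    (hj : 2 * j + 1 ≤ sg (l :: 𝓛)) : EX (J ⊥ (l :: 𝓛)) 1 j := by
  have hj' := hj
  rw [sg_cons] at hj'
  have hl : 1 ≤ l.length := List.length_pos_iff.2 (hci.1 l List.mem_cons_self)
  rcases Nat.lt_or_ge j l.length with hlt | hge
  · exact EX_low hci hvl hred hlt hj
  · obtain rfl : j = l.length := by omega
    exact EX_top hci hvl hred h2 (by omega)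

end Pool.Agent.LefRed
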