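import Pool.Agent.LefProd.Soc

/-!
The points cut out by products of linear forms in the affine chart `v = 1`, when every such point
lies on exactly one transversal: they are isolated by forms of degree `sg 𝓛`, and there is a
residue relation with all weights nonzero among the values of the forms of lower degree.
-/

set_option autoImplicit false
set_option linter.unusedSectionVars false

namespace Pool.Agent.LefProd

open MvPolynomial

variable {F : Type*} [Field F] {n : ℕ}

/-- Every point of the chart `v = 1` cut out by `W` and `𝓛` lies on exactly one transversal. -/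
def Red (W : Submodule F (Fin n → F)) (v : Fin n → F) (𝓛 : List (List (Fin n → F))) : Prop :=
  ∀ P : Fin n → F, v ⬝ᵥ P = 1 → (∀ w ∈ W, w ⬝ᵥ P = 0) → (∀ l ∈ 𝓛, ∃ u ∈ l, u ⬝ᵥ P = 0) →
    ∀ l ∈ 𝓛, l.Pairwise (fun u u' => u ⬝ᵥ P = 0 → u' ⬝ᵥ P ≠ 0)

/-- The points of the chart `v = 1` cut out by `W` and `𝓛`. -/
def Pt (W : Submodule F (Fin n → F)) (v : Fin n → F) (𝓛 : List (List (Fin n → F)))
    (P : Fin n → F) : Prop :=
  v ⬝ᵥ P = 1 ∧ (∀ w ∈ W, w ⬝ᵥ P = 0) ∧ ∀ l ∈ 𝓛, ∃ u ∈ l, u ⬝ᵥ P = 0

lemma eval_lin (u P : Fin n → F) : eval P (lin u) = u ⬝ᵥ P := by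
  rw [lin_apply, map_sum, dotProduct]
  refine Finset.sum_congr rfl fun i _ => ?_
  rw [smul_eval, eval_X]

lemma eval_pr_eq_zero {l : List (Fin n → F)} {P : Fin n → F} :
    eval P (pr l) = 0 ↔ ∃ u ∈ l, u ⬝ᵥ P = 0 := by
  induction l with
  | nil => simp
  | cons u l ih => rw [pr_cons, map_mul, mul_eq_zero, ih, eval_lin]; simp

lemma dot_sup {W : Submodule F (Fin n → F)} {u P : Fin n → F} (hW : ∀ w ∈ W, w ⬝ᵥ P = 0)
    (hu : u ⬝ᵥ P = 0) : ∀ w ∈ W ⊔ Submodule.span F {u}, w ⬝ᵥ P = 0 := by
  intro w hw
  obtain ⟨w1, hw1, z, hz, rfl⟩ := Submodule.mem_sup.1 hw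
  obtain ⟨c, rfl⟩ := Submodule.mem_span_singleton.1 hz
  rw [add_dotProduct, smul_dotProduct, hW w1 hw1, hu, smul_zero, add_zero]

lemma eval_J {W : Submodule F (Fin n → F)} {𝓛 : List (List (Fin n → F))} {P : Fin n → F}
    (hW : ∀ w ∈ W, w ⬝ᵥ P = 0) (h𝓛 : ∀ l ∈ 𝓛, ∃ u ∈ l, u ⬝ᵥ P = 0)
    {f : MvPolynomial (Fin n) F} (hf : f ∈ J W 𝓛) : eval P f = 0 := by
  have hle : J W 𝓛 ≤ RingHom.ker (eval P) := by
    rw [J_le_iff]
    refine ⟨fun w hw => ?_, fun l hl => ?_⟩
    · rw [RingHom.mem_ker, eval_lin]; exact hW w hw
    · rw [RingHom.mem_ker]; exact eval_pr_eq_zero.2 (h𝓛 l hl)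
  exact RingHom.mem_ker.1 (hle hf)

lemma exists_ann {W : Submodule F (Fin n → F)} (hW : Module.finrank F W < n) :
    ∃ P : Fin n → F, P ≠ 0 ∧ ∀ w ∈ W, w ⬝ᵥ P = 0 := by
  classical
  have hlt : W < ⊤ := by
    rw [lt_top_iff_ne_top]
    rintro rfl
    rw [finrank_top, Module.finrank_fintype_fun_eq_card, Fintype.card_fin] at hW
    exact lt_irrefl _ hW
  obtain ⟨lam, hlam0, hlam⟩ := Submodule.exists_le_ker_of_lt_top W hlt
  have hdot : ∀ w : Fin n → F, lam w = w ⬝ᵥ fun i => lam (Pi.single i 1) := by
    intro w
    conv_lhs => rw [pi_eq_sum_univ' w]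
    rw [map_sum, dotProduct]
    refine Finset.sum_congr rfl fun i _ => ?_
    rw [map_smul, smul_eq_mul]
  refine ⟨fun i => lam (Pi.single i 1), ?_, fun w hw => ?_⟩
  · intro h0
    apply hlam0
    apply LinearMap.ext
    intro w
    rw [hdot w, h0, dotProduct_zero, LinearMap.zero_apply]
  · rw [← hdot]
    exact LinearMap.mem_ker.1 (hlam hw)

lemma eq_zero_of_top {W : Submodule F (Fin n → F)} (hW : Module.finrank F W = n)
    {P : Fin n → F} (hP : ∀ w ∈ W, w ⬝ᵥ P = 0) : P = 0 := by
  classical
  have hW' : W = ⊤ := Submodule.eq_top_of_finrank_eq (by simpa using hW)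
  funext i
  have := hP (Pi.single i 1) (by rw [hW']; exact Submodule.mem_top)
  simpa using this

lemma exists_zero : ∀ (𝓛 : List (List (Fin n → F))) (W : Submodule F (Fin n → F)), NE 𝓛 →
    Module.finrank F W + 𝓛.length < n →
    ∃ P : Fin n → F, P ≠ 0 ∧ (∀ w ∈ W, w ⬝ᵥ P = 0) ∧ ∀ l ∈ 𝓛, ∃ u ∈ l, u ⬝ᵥ P = 0 := by
  intro 𝓛
  induction 𝓛 with
  | nil =>
    intro W _ h
    obtain ⟨P, h1, h2⟩ := exists_ann (W := W) (by simpa using h)
    exact ⟨P, h1, h2, by simp⟩
  | cons l 𝓛 ih =>
    intro W hne h
    obtain ⟨u, hu⟩ := List.exists_mem_of_ne_nil l (hne l List.mem_cons_self)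
    rw [List.length_cons] at h
    obtain ⟨P, h1, h2, h3⟩ := ih (W ⊔ Submodule.span F {u}) hne.tail (by
      by_cases huW : u ∈ W
      · have : W ⊔ Submodule.span F {u} = W := by
          rw [sup_eq_left, Submodule.span_singleton_le_iff_mem]; exact huW
        rw [this]; omega
      · rw [finrank_sup huW]; omega)
    refine ⟨P, h1, fun w hw => h2 w (Submodule.mem_sup_left hw), ?_⟩
    intro l' hl'
    rcases List.mem_cons.1 hl' with rfl | hl'
    · exact ⟨u, hu, h2 u (Submodule.mem_sup_right (Submodule.mem_span_singleton_self u))⟩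
    · exact h3 l' hl'

/-- without common zeros, the transversals are independent -/
lemma tr_of_no_zero : ∀ (𝓛 : List (List (Fin n → F))) (W : Submodule F (Fin n → F)), NE 𝓛 →
    Module.finrank F W + 𝓛.length = n →
    (∀ P : Fin n → F, (∀ w ∈ W, w ⬝ᵥ P = 0) → (∀ l ∈ 𝓛, ∃ u ∈ l, u ⬝ᵥ P = 0) → P = 0) →
    Tr W 𝓛 := by
  intro 𝓛
  induction 𝓛 with
  | nil => intro W _ _ _; exact trivial
  | cons l 𝓛 ih =>
    intro W hne h hz u hu
    rw [List.length_cons] at h
    have huW : u ∉ W := by
      intro huW
      obtain ⟨P, h1, h2, h3⟩ := exists_zero 𝓛 W hne.tail (by omega)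
      apply h1
      apply hz P h2
      intro l' hl'
      rcases List.mem_cons.1 hl' with rfl | hl'
      · exact ⟨u, hu, h2 u huW⟩
      · exact h3 l' hl'
    refine ⟨huW, ih _ hne.tail (by rw [finrank_sup huW]; omega) ?_⟩
    intro P h1 h2
    apply hz P (fun w hw => h1 w (Submodule.mem_sup_left hw))
    intro l' hl'
    rcases List.mem_cons.1 hl' with rfl | hl'
    · exact ⟨u, hu, h1 u (Submodule.mem_sup_right (Submodule.mem_span_singleton_self u))⟩
    · exact h2 l' hl'

/-- a common zero of `W`, `v` and a transversal vanishes -/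
lemma zero_of_chart : ∀ (𝓛 : List (List (Fin n → F))) (W : Submodule F (Fin n → F)), Tr W 𝓛 →
    Module.finrank F W + 𝓛.length = n → ∀ P : Fin n → F, (∀ w ∈ W, w ⬝ᵥ P = 0) →
    (∀ l ∈ 𝓛, ∃ u ∈ l, u ⬝ᵥ P = 0) → P = 0 := by
  intro 𝓛
  induction 𝓛 with
  | nil => intro W _ h P h1 _; exact eq_zero_of_top (by simpa using h) h1
  | cons l 𝓛 ih =>
    intro W htr h P h1 h2
    rw [List.length_cons] at h
    obtain ⟨u, hu, huP⟩ := h2 l List.mem_cons_self
    obtain ⟨huW, htr'⟩ := htr u hu
    exact ih _ htr' (by rw [finrank_sup huW]; omega) P (dot_sup h1 huP)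
      (fun l' hl' => h2 l' (List.mem_cons_of_mem _ hl'))

lemma lin_pow_hom (v : Fin n → F) (k : ℕ) : (lin v ^ k).IsHomogeneous k := by
  have := (lin_isHomogeneous v).pow k
  rwa [one_mul] at this

theorem residue_aux : ∀ (N : ℕ) (𝓛 : List (List (Fin n → F))), len 𝓛 ≤ N → NE 𝓛 →
    ∀ (W : Submodule F (Fin n → F)) (v : Fin n → F), v ∉ W →
    Tr (W ⊔ Submodule.span F {v}) 𝓛 → Module.finrank F W + 𝓛.length + 1 = n → Red W v 𝓛 →
    ∃ (G : Finset (Fin n → F)) (r : (Fin n → F) → F),
      (∀ P, P ∈ G ↔ Pt W v 𝓛 P) ∧
      G.card = (𝓛.map List.length).prod ∧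
      (∀ P ∈ G, r P ≠ 0) ∧
      (∀ P ∈ G, ∃ g : MvPolynomial (Fin n) F, g.IsHomogeneous (sg 𝓛) ∧ eval P g ≠ 0 ∧
        ∀ Q ∈ G, Q ≠ P → eval Q g = 0) ∧
      ∀ (d : ℕ) (g : MvPolynomial (Fin n) F), d < sg 𝓛 → g.IsHomogeneous d →
        ∑ P ∈ G, r P * eval P g = 0 := by
  classical
  have hbase : ∀ (W : Submodule F (Fin n → F)) (v : Fin n → F), v ∉ W →
      Module.finrank F W + ([] : List (List (Fin n → F))).length + 1 = n →
      ∃ (G : Finset (Fin n → F)) (r : (Fin n → F) → F),
      (∀ P, P ∈ G ↔ Pt W v [] P) ∧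
      G.card = (([] : List (List (Fin n → F))).map List.length).prod ∧
      (∀ P ∈ G, r P ≠ 0) ∧
      (∀ P ∈ G, ∃ g : MvPolynomial (Fin n) F,
        g.IsHomogeneous (sg ([] : List (List (Fin n → F)))) ∧ eval P g ≠ 0 ∧
        ∀ Q ∈ G, Q ≠ P → eval Q g = 0) ∧
      ∀ (d : ℕ) (g : MvPolynomial (Fin n) F), d < sg ([] : List (List (Fin n → F))) →
        g.IsHomogeneous d → ∑ P ∈ G, r P * eval P g = 0 := by
    intro W v hv hdim
    rw [List.length_nil, add_zero] at hdim
    have hfull : Module.finrank F ↥(W ⊔ Submodule.span F {v}) = n := by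
      rw [finrank_sup hv]; exact hdim
    obtain ⟨P0, hP0, hP0W⟩ := exists_ann (W := W) (by omega)
    have hvP0 : v ⬝ᵥ P0 ≠ 0 := fun h => hP0 (eq_zero_of_top hfull (dot_sup hP0W h))
    set P1 : Fin n → F := (v ⬝ᵥ P0)⁻¹ • P0 with hP1
    have h1 : v ⬝ᵥ P1 = 1 := by
      rw [hP1, dotProduct_smul, smul_eq_mul, inv_mul_cancel₀ hvP0]
    have h2 : ∀ w ∈ W, w ⬝ᵥ P1 = 0 := by
      intro w hw
      rw [hP1, dotProduct_smul, hP0W w hw, smul_zero]
    have huniq : ∀ P, v ⬝ᵥ P = 1 → (∀ w ∈ W, w ⬝ᵥ P = 0) → P = P1 := by
      intro P hvP hWP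
      apply sub_eq_zero.1
      apply eq_zero_of_top hfull
      apply dot_sup
      · intro w hw
        rw [dotProduct_sub, hWP w hw, h2 w hw, sub_zero]
      · rw [dotProduct_sub, hvP, h1, sub_self]
    refine ⟨{P1}, fun _ => 1, ?_, by simp, fun _ _ => one_ne_zero, ?_, ?_⟩
    · intro P
      rw [Finset.mem_singleton]
      constructor
      · rintro rfl
        exact ⟨h1, h2, by simp⟩
      · rintro ⟨h3, h4, _⟩
        exact huniq P h3 h4
    · intro P hP
      refine ⟨1, isHomogeneous_one _ _, by simp, ?_⟩
      intro Q hQ hne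
      rw [Finset.mem_singleton] at hP hQ
      exact absurd (hQ.trans hP.symm) hne
    · intro d g hd
      rw [sg_nil] at hd
      omega
  intro N
  induction N with
  | zero =>
    intro 𝓛 hlen hne W v hv htr hdim hred
    cases 𝓛 with
    | nil => exact hbase W v hv hdim
    | cons l 𝓛 =>
      exfalso
      rw [len_cons] at hlen
      exact hne l List.mem_cons_self (List.length_eq_zero_iff.1 (by omega))
  | succ N ih =>
    intro 𝓛 hlen hne W v hv htr hdim hred
    cases 𝓛 with
    | nil => exact hbase W v hv hdim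
    | cons l 𝓛 =>
      cases l with
      | nil => exact absurd rfl (hne [] List.mem_cons_self)
      | cons u g =>
        rw [len_cons, List.length_cons] at hlen
        rw [List.length_cons] at hdim
        obtain ⟨hu, htr'⟩ := htr.head
        have huW : u ∉ W := fun h => hu (Submodule.mem_sup_left h)
        have hvW : v ∉ W ⊔ Submodule.span F {u} := not_mem_exchange hv hu
        have htr2 : Tr ((W ⊔ Submodule.span F {u}) ⊔ Submodule.span F {v}) 𝓛 := by
          rw [sup_right_comm]; exact htr'
        have hpt2 : ∀ P, Pt (W ⊔ Submodule.span F {u}) v 𝓛 P ↔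
            (Pt W v ((u :: g) :: 𝓛) P ∧ u ⬝ᵥ P = 0) := by
          intro P
          constructor
          · rintro ⟨h1, h2, h3⟩
            have huP : u ⬝ᵥ P = 0 :=
              h2 u (Submodule.mem_sup_right (Submodule.mem_span_singleton_self u))
            refine ⟨⟨h1, fun w hw => h2 w (Submodule.mem_sup_left hw), ?_⟩, huP⟩
            intro l hl
            rcases List.mem_cons.1 hl with rfl | hl
            · exact ⟨u, List.mem_cons_self, huP⟩
            · exact h3 l hl
          · rintro ⟨⟨h1, h2, h3⟩, huP⟩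
            exact ⟨h1, dot_sup h2 huP, fun l hl => h3 l (List.mem_cons_of_mem _ hl)⟩
        have hred2 : Red (W ⊔ Submodule.span F {u}) v 𝓛 := by
          intro P h1 h2 h3 l hl
          obtain ⟨⟨k1, k2, k3⟩, _⟩ := (hpt2 P).1 ⟨h1, h2, h3⟩
          exact hred P k1 k2 k3 l (List.mem_cons_of_mem _ hl)
        obtain ⟨G2, r2, hG2, hcard2, hr2, hsep2, hsum2⟩ := ih 𝓛 (by omega) hne.tail _ v hvW htr2
          (by rw [finrank_sup huW]; omega) hred2
        by_cases hg : g = []
        · subst hg
          refine ⟨G2, r2, ?_, ?_, hr2, ?_, ?_⟩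
          · intro P
            rw [hG2 P, hpt2 P]
            constructor
            · exact fun h => h.1
            · intro h
              refine ⟨h, ?_⟩
              obtain ⟨u', hu', huP⟩ := h.2.2 [u] List.mem_cons_self
              rw [List.mem_singleton] at hu'
              rwa [hu'] at huP
          · rw [hcard2]; simp
          · simpa using hsep2
          · simpa using hsum2
        · have hgl : 1 ≤ g.length := List.length_pos_iff.2 hg
          have hne1 : NE (g :: 𝓛) := by
            intro l hl
            rcases List.mem_cons.1 hl with rfl | hl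
            · exact hg
            · exact hne.tail l hl
          have hpt1 : ∀ P, Pt W v (g :: 𝓛) P ↔
              (Pt W v ((u :: g) :: 𝓛) P ∧ u ⬝ᵥ P ≠ 0) := by
            intro P
            constructor
            · rintro ⟨h1, h2, h3⟩
              have hP : Pt W v ((u :: g) :: 𝓛) P := by
                refine ⟨h1, h2, ?_⟩
                intro l hl
                rcases List.mem_cons.1 hl with rfl | hl
                · obtain ⟨u', hu', huP⟩ := h3 g List.mem_cons_self
                  exact ⟨u', List.mem_cons_of_mem _ hu', huP⟩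
                · exact h3 l (List.mem_cons_of_mem _ hl)
              refine ⟨hP, fun huP => ?_⟩
              obtain ⟨u', hu', huP'⟩ := h3 g List.mem_cons_self
              have := hred P hP.1 hP.2.1 hP.2.2 (u :: g) List.mem_cons_self
              exact (List.pairwise_cons.1 this).1 u' hu' huP huP'
            · rintro ⟨⟨h1, h2, h3⟩, huP⟩
              refine ⟨h1, h2, ?_⟩
              intro l hl
              rcases List.mem_cons.1 hl with rfl | hl
              · obtain ⟨u', hu', huP'⟩ := h3 (u :: l) List.mem_cons_self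
                rcases List.mem_cons.1 hu' with rfl | hu'
                · exact absurd huP' huP
                · exact ⟨u', hu', huP'⟩
              · exact h3 l (List.mem_cons_of_mem _ hl)
          have hred1 : Red W v (g :: 𝓛) := by
            intro P h1 h2 h3 l hl
            obtain ⟨⟨k1, k2, k3⟩, _⟩ := (hpt1 P).1 ⟨h1, h2, h3⟩
            rcases List.mem_cons.1 hl with rfl | hl
            · exact (List.pairwise_cons.1 (hred P k1 k2 k3 (u :: l) List.mem_cons_self)).2
            · exact hred P k1 k2 k3 l (List.mem_cons_of_mem _ hl)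
          obtain ⟨G1, r1, hG1, hcard1, hr1, hsep1, hsum1⟩ := ih (g :: 𝓛)
            (by rw [len_cons]; omega) hne1 W v hv htr.tail_list
            (by rw [List.length_cons]; omega) hred1
          -- values
          have hu1 : ∀ P ∈ G1, u ⬝ᵥ P ≠ 0 := fun P hP => ((hpt1 P).1 ((hG1 P).1 hP)).2
          have hg1 : ∀ P ∈ G1, eval P (pr g) = 0 := fun P hP =>
            eval_pr_eq_zero.2 (((hG1 P).1 hP).2.2 g List.mem_cons_self)
          have hu2 : ∀ P ∈ G2, u ⬝ᵥ P = 0 := fun P hP => ((hpt2 P).1 ((hG2 P).1 hP)).2
          have hg2 : ∀ P ∈ G2, eval P (pr g) ≠ 0 := by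
            intro P hP h0
            obtain ⟨u', hu', huP'⟩ := eval_pr_eq_zero.1 h0
            obtain ⟨⟨k1, k2, k3⟩, huP⟩ := (hpt2 P).1 ((hG2 P).1 hP)
            have := hred P k1 k2 k3 (u :: g) List.mem_cons_self
            exact (List.pairwise_cons.1 this).1 u' hu' huP huP'
          have hv1 : ∀ P ∈ G1, v ⬝ᵥ P = 1 := fun P hP => ((hG1 P).1 hP).1
          have hv2 : ∀ P ∈ G2, v ⬝ᵥ P = 1 := fun P hP => ((hG2 P).1 hP).1
          have hdisj : Disjoint G1 G2 := by
            rw [Finset.disjoint_left]
            intro P h1 h2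
            exact hu1 P h1 (hu2 P h2)
          have hsg : sg ((u :: g) :: 𝓛) = g.length + sg 𝓛 := by
            rw [sg_cons, List.length_cons]; omega
          have hsg1 : sg (g :: 𝓛) = (g.length - 1) + sg 𝓛 := sg_cons _ _
          -- the complete intersection of codimension one
          have hci : CI (W ⊔ Submodule.span F {u}) (g :: 𝓛) := by
            refine ⟨hne1, ?_, by rw [finrank_sup huW, List.length_cons]; omega⟩
            apply tr_of_no_zero _ _ hne1 (by rw [finrank_sup huW, List.length_cons]; omega)
            intro P h1 h2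
            by_contra hP
            have huP : u ⬝ᵥ P = 0 :=
              h1 u (Submodule.mem_sup_right (Submodule.mem_span_singleton_self u))
            have hvP : v ⬝ᵥ P ≠ 0 := by
              intro hvP
              apply hP
              refine zero_of_chart 𝓛 _ htr2 ?_ P (dot_sup h1 hvP)
                (fun l hl => h2 l (List.mem_cons_of_mem _ hl))
              rw [finrank_sup hvW, finrank_sup huW]; omega
            set P1 : Fin n → F := (v ⬝ᵥ P)⁻¹ • P with hP1
            have h3 : ∀ w : Fin n → F, w ⬝ᵥ P = 0 → w ⬝ᵥ P1 = 0 := by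
              intro w hw
              rw [hP1, dotProduct_smul, hw, smul_zero]
            have h4 : Pt W v (g :: 𝓛) P1 := by
              refine ⟨by rw [hP1, dotProduct_smul, smul_eq_mul, inv_mul_cancel₀ hvP],
                fun w hw => h3 w (h1 w (Submodule.mem_sup_left hw)), fun l hl => ?_⟩
              obtain ⟨u', hu', huP'⟩ := h2 l hl
              exact ⟨u', hu', h3 u' huP'⟩
            exact ((hpt1 P1).1 h4).2 (h3 u huP)
          obtain ⟨e, he, hed⟩ := top_dim hci
          -- the two functionals
          set θ1 : MvPolynomial (Fin n) F → F :=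
            fun f => ∑ P ∈ G1, r1 P / (u ⬝ᵥ P) * eval P f with hθ1
          set θ2 : MvPolynomial (Fin n) F → F :=
            fun f => ∑ P ∈ G2, r2 P / eval P (pr g) * eval P f with hθ2
          have hadd1 : ∀ a b, θ1 (a + b) = θ1 a + θ1 b := by
            intro a b
            simp only [hθ1, map_add, mul_add, Finset.sum_add_distrib]
          have hadd2 : ∀ a b, θ2 (a + b) = θ2 a + θ2 b := by
            intro a b
            simp only [hθ2, map_add, mul_add, Finset.sum_add_distrib]
          have hC1 : ∀ (c : F) a, θ1 (C c * a) = c * θ1 a := by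
            intro c a
            simp only [hθ1, map_mul, eval_C, Finset.mul_sum]
            exact Finset.sum_congr rfl fun P _ => by ring
          have hC2 : ∀ (c : F) a, θ2 (C c * a) = c * θ2 a := by
            intro c a
            simp only [hθ2, map_mul, eval_C, Finset.mul_sum]
            exact Finset.sum_congr rfl fun P _ => by ring
          have hz1 : ∀ f : MvPolynomial (Fin n) F, f.IsHomogeneous (sg (g :: 𝓛)) →
              f ∈ J (W ⊔ Submodule.span F {u}) (g :: 𝓛) → θ1 f = 0 := by
            intro f hf hmem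
            have hvan : ∀ b ∈ J W (g :: 𝓛), ∀ P ∈ G1, eval P b = 0 := fun b hb P hP =>
              eval_J ((hG1 P).1 hP).2.1 ((hG1 P).1 hP).2.2 hb
            by_cases h0 : 1 ≤ sg (g :: 𝓛)
            · obtain ⟨a, ha, hfa⟩ := sup_hom hf hmem h0
              have h1 : θ1 f = ∑ P ∈ G1, r1 P * eval P a := by
                rw [hθ1]
                refine Finset.sum_congr rfl fun P hP => ?_
                have h2 := hvan _ hfa P hP
                rw [map_sub, map_mul, eval_lin, sub_eq_zero] at h2
                rw [h2]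
                field_simp [hu1 P hP]
              rw [h1]
              exact hsum1 _ a (by omega) ha
            · have h1 : sg (g :: 𝓛) = 0 := by omega
              rw [h1] at hf
              have h2 := sup_hom_zero hf hmem
              rw [hθ1]
              refine Finset.sum_eq_zero fun P hP => ?_
              rw [hvan _ h2 P hP, mul_zero]
          have hz2 : ∀ f : MvPolynomial (Fin n) F, f.IsHomogeneous (sg (g :: 𝓛)) →
              f ∈ J (W ⊔ Submodule.span F {u}) (g :: 𝓛) → θ2 f = 0 := by
            intro f hf hmem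
            have hvan : ∀ b ∈ J (W ⊔ Submodule.span F {u}) 𝓛, ∀ P ∈ G2, eval P b = 0 :=
              fun b hb P hP => eval_J ((hG2 P).1 hP).2.1 ((hG2 P).1 hP).2.2 hb
            by_cases h0 : g.length ≤ sg (g :: 𝓛)
            · obtain ⟨a, ha, hfa⟩ := cons_hom hf hmem h0
              have h1 : θ2 f = ∑ P ∈ G2, r2 P * eval P a := by
                rw [hθ2]
                refine Finset.sum_congr rfl fun P hP => ?_
                have h2 := hvan _ hfa P hP
                rw [map_sub, map_mul, sub_eq_zero] at h2
                rw [h2]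
                have := hg2 P hP
                field_simp
              rw [h1]
              exact hsum2 _ a (by omega) ha
            · have h2 := cons_hom_lt hf hmem (by omega)
              rw [hθ2]
              refine Finset.sum_eq_zero fun P hP => ?_
              rw [hvan _ h2 P hP, mul_zero]
          have hprod : 0 < (𝓛.map List.length).prod := by
            apply List.prod_pos
            intro a ha
            obtain ⟨l, hl, rfl⟩ := List.mem_map.1 ha
            exact List.length_pos_iff.2 (hne.tail l hl)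
          have hne1' : ∃ f : MvPolynomial (Fin n) F, f.IsHomogeneous (sg (g :: 𝓛)) ∧
              θ1 f ≠ 0 := by
            have hpos : 0 < G1.card := by
              rw [hcard1, List.map_cons, List.prod_cons]
              exact Nat.mul_pos (by omega) hprod
            obtain ⟨P, hP⟩ := Finset.card_pos.1 hpos
            obtain ⟨f, hf, hfP, hfQ⟩ := hsep1 P hP
            refine ⟨f, hf, ?_⟩
            have h1 : θ1 f = r1 P / (u ⬝ᵥ P) * eval P f := by
              rw [hθ1]
              exact Finset.sum_eq_single P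
                (fun Q hQ hQP => by rw [hfQ Q hQ hQP, mul_zero]) (fun h => absurd hP h)
            rw [h1]
            exact mul_ne_zero (div_ne_zero (hr1 P hP) (hu1 P hP)) hfP
          have hne2' : ∃ f : MvPolynomial (Fin n) F, f.IsHomogeneous (sg (g :: 𝓛)) ∧
              θ2 f ≠ 0 := by
            have hpos : 0 < G2.card := by rw [hcard2]; exact hprod
            obtain ⟨P, hP⟩ := Finset.card_pos.1 hpos
            obtain ⟨f, hf, hfP, hfQ⟩ := hsep2 P hP
            refine ⟨lin v ^ (g.length - 1) * f, ?_, ?_⟩
            · rw [hsg1]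
              exact (lin_pow_hom v _).mul hf
            · have h1 : θ2 (lin v ^ (g.length - 1) * f) = r2 P / eval P (pr g) * eval P f := by
                rw [hθ2]
                refine (Finset.sum_eq_single P ?_ (fun h => absurd hP h)).trans ?_
                · intro Q hQ hQP
                  rw [map_mul, hfQ Q hQ hQP, mul_zero, mul_zero]
                · rw [map_mul, map_pow, eval_lin, hv2 P hP, one_pow, one_mul]
              rw [h1]
              exact mul_ne_zero (div_ne_zero (hr2 P hP) (hg2 P hP)) hfP
          have hval : ∀ (θ : MvPolynomial (Fin n) F → F), (∀ a b, θ (a + b) = θ a + θ b) →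
              (∀ (c : F) a, θ (C c * a) = c * θ a) →
              (∀ f : MvPolynomial (Fin n) F, f.IsHomogeneous (sg (g :: 𝓛)) →
                f ∈ J (W ⊔ Submodule.span F {u}) (g :: 𝓛) → θ f = 0) →
              ∀ (f : MvPolynomial (Fin n) F) (c : F), f.IsHomogeneous (sg (g :: 𝓛)) →
                f - C c * e ∈ J (W ⊔ Submodule.span F {u}) (g :: 𝓛) → θ f = c * θ e := by
            intro θ hadd hC hz f c hf hmem
            have hh : (f - C c * e).IsHomogeneous (sg (g :: 𝓛)) := by
              have := (isHomogeneous_C (Fin n) c).mul he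
              rw [zero_add] at this
              exact hf.sub this
            have h1 := hz _ hh hmem
            have h2 : f = (f - C c * e) + C c * e := by ring
            rw [h2, hadd, h1, zero_add, hC]
          have he1 : θ1 e ≠ 0 := by
            obtain ⟨f, hf, hfne⟩ := hne1'
            obtain ⟨c, hc⟩ := hed f hf
            rw [hval θ1 hadd1 hC1 hz1 f c hf hc] at hfne
            exact right_ne_zero_of_mul hfne
          have he2 : θ2 e ≠ 0 := by
            obtain ⟨f, hf, hfne⟩ := hne2'
            obtain ⟨c, hc⟩ := hed f hf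
            rw [hval θ2 hadd2 hC2 hz2 f c hf hc] at hfne
            exact right_ne_zero_of_mul hfne
          set α : F := -(θ1 e / θ2 e) with hα
          have hα0 : α ≠ 0 := neg_ne_zero.2 (div_ne_zero he1 he2)
          have hrel : ∀ f : MvPolynomial (Fin n) F, f.IsHomogeneous (sg (g :: 𝓛)) →
              θ1 f + α * θ2 f = 0 := by
            intro f hf
            obtain ⟨c, hc⟩ := hed f hf
            rw [hval θ1 hadd1 hC1 hz1 f c hf hc, hval θ2 hadd2 hC2 hz2 f c hf hc, hα]
            field_simp
            ring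
          refine ⟨G1 ∪ G2, fun P => if u ⬝ᵥ P = 0 then α * (r2 P / eval P (pr g))
            else r1 P / (u ⬝ᵥ P), ?_, ?_, ?_, ?_, ?_⟩
          · intro P
            rw [Finset.mem_union, hG1 P, hG2 P, hpt1 P, hpt2 P]
            constructor
            · rintro (h | h)
              · exact h.1
              · exact h.1
            · intro h
              by_cases huP : u ⬝ᵥ P = 0
              · exact Or.inr ⟨h, huP⟩
              · exact Or.inl ⟨h, huP⟩
          · rw [Finset.card_union_of_disjoint hdisj, hcard1, hcard2]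
            simp only [List.map_cons, List.prod_cons, List.length_cons]
            ring
          · intro P hP
            rcases Finset.mem_union.1 hP with hP | hP
            · simp only [if_neg (hu1 P hP)]
              exact div_ne_zero (hr1 P hP) (hu1 P hP)
            · simp only [if_pos (hu2 P hP)]
              exact mul_ne_zero hα0 (div_ne_zero (hr2 P hP) (hg2 P hP))
          · intro P hP
            rcases Finset.mem_union.1 hP with hP | hP
            · obtain ⟨f, hf, hfP, hfQ⟩ := hsep1 P hP
              refine ⟨lin u * f, ?_, ?_, ?_⟩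
              · have := (lin_isHomogeneous u).mul hf
                have hs : 1 + sg (g :: 𝓛) = sg ((u :: g) :: 𝓛) := by omega
                rwa [hs] at this
              · rw [map_mul, eval_lin]
                exact mul_ne_zero (hu1 P hP) hfP
              · intro Q hQ hQP
                rw [map_mul, eval_lin]
                rcases Finset.mem_union.1 hQ with hQ | hQ
                · rw [hfQ Q hQ hQP, mul_zero]
                · rw [hu2 Q hQ, zero_mul]
            · obtain ⟨f, hf, hfP, hfQ⟩ := hsep2 P hP
              refine ⟨pr g * f, ?_, ?_, ?_⟩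
              · have := (pr_isHomogeneous g).mul hf
                rwa [← hsg] at this
              · rw [map_mul]
                exact mul_ne_zero (hg2 P hP) hfP
              · intro Q hQ hQP
                rw [map_mul]
                rcases Finset.mem_union.1 hQ with hQ | hQ
                · rw [hg1 Q hQ, zero_mul]
                · rw [hfQ Q hQ hQP, mul_zero]
          · intro d f hd hf
            obtain ⟨k, hk⟩ : ∃ k, k + d = sg (g :: 𝓛) := ⟨sg (g :: 𝓛) - d, by omega⟩
            have hF : (lin v ^ k * f).IsHomogeneous (sg (g :: 𝓛)) := by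
              rw [← hk]
              exact (lin_pow_hom v k).mul hf
            have h1 := hrel _ hF
            rw [Finset.sum_union hdisj]
            refine Eq.trans (congrArg₂ (· + ·) ?_ ?_) h1
            · rw [hθ1]
              refine Finset.sum_congr rfl fun P hP => ?_
              simp only [if_neg (hu1 P hP)]
              rw [map_mul, map_pow, eval_lin, hv1 P hP, one_pow, one_mul]
            · rw [hθ2]
              simp only [Finset.mul_sum]
              refine Finset.sum_congr rfl fun P hP => ?_
              simp only [if_pos (hu2 P hP)]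
              rw [map_mul, map_pow, eval_lin, hv2 P hP, one_pow, one_mul, mul_assoc]

/-- The points of the chart `v = 1` cut out by `W` and `𝓛`, when each lies on exactly one
transversal: their number, separators of degree `sg 𝓛`, and a residue relation in the lower
degrees with all weights nonzero. -/
theorem residue {W : Submodule F (Fin n → F)} {v : Fin n → F} {𝓛 : List (List (Fin n → F))}
    (hne : NE 𝓛) (hv : v ∉ W) (htr : Tr (W ⊔ Submodule.span F {v}) 𝓛)
    (hdim : Module.finrank F W + 𝓛.length + 1 = n) (hred : Red W v 𝓛) :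
    ∃ (G : Finset (Fin n → F)) (r : (Fin n → F) → F),
      (∀ P, P ∈ G ↔ (v ⬝ᵥ P = 1 ∧ (∀ w ∈ W, w ⬝ᵥ P = 0) ∧ ∀ l ∈ 𝓛, ∃ u ∈ l, u ⬝ᵥ P = 0)) ∧
      G.card = (𝓛.map List.length).prod ∧
      (∀ P ∈ G, r P ≠ 0) ∧
      (∀ P ∈ G, ∃ g : MvPolynomial (Fin n) F, g.IsHomogeneous (sg 𝓛) ∧ eval P g ≠ 0 ∧
        ∀ Q ∈ G, Q ≠ P → eval Q g = 0) ∧
      ∀ (d : ℕ) (g : MvPolynomial (Fin n) F), d < sg 𝓛 → g.IsHomogeneous d →
        ∑ P ∈ G, r P * eval P g = 0 :=
  residue_aux _ 𝓛 le_rfl hne W v hv htr hdim hred

end Pool.Agent.LefProd
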