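import Pool.Agent.LefRed.Glue2
import Pool.Agent.LefRed.Resid

/-!
From the failure of injectivity to kernels of the quadratic forms on the points.
-/

set_option autoImplicit false
set_option linter.unusedSectionVars false

namespace Pool.Agent.LefRed

open MvPolynomial Pool.Agent.LefProd

universe u

variable {F : Type u} [Field F] {n : ℕ}

section

variable {l : List (Fin n → F)} {𝓛 : List (List (Fin n → F))} (hci : CI ⊥ (l :: 𝓛))
  {v : Fin n → F} (hvl : v ∈ l) (G : Finset (Fin n → F))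
  (hG : ∀ P, P ∈ G ↔ (v ⬝ᵥ P = 1 ∧ (∀ w ∈ (⊥ : Submodule F (Fin n → F)), w ⬝ᵥ P = 0) ∧
      ∀ l ∈ 𝓛, ∃ u ∈ l, u ⬝ᵥ P = 0))

include hci hvl hG

/-- a common zero of `𝓛` and of a linear form without zeros on `G` vanishes -/
lemma no_zero {m : Fin n → F} (hm : ∀ P ∈ G, m ⬝ᵥ P ≠ 0) {P : Fin n → F} (hmP : m ⬝ᵥ P = 0)
    (hP : ∀ l ∈ 𝓛, ∃ u ∈ l, u ⬝ᵥ P = 0) : P = 0 := by
  by_contra hP0
  have hvP : v ⬝ᵥ P ≠ 0 := by
    intro hvP
    refine hP0 (ker_zero (CI_sup_mem hci hvl) ?_ hP)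
    exact dot_sup (by intro w hw; rw [(Submodule.mem_bot F).1 hw, zero_dotProduct]) hvP
  refine hm ((v ⬝ᵥ P)⁻¹ • P) ((hG _).2 ⟨?_, ?_, ?_⟩) ?_
  · rw [dotProduct_smul, smul_eq_mul, inv_mul_cancel₀ hvP]
  · intro w hw; rw [(Submodule.mem_bot F).1 hw, zero_dotProduct]
  · intro l' hl'
    obtain ⟨u, hu, huP⟩ := hP l' hl'
    exact ⟨u, hu, by rw [dotProduct_smul, huP, smul_zero]⟩
  · rw [dotProduct_smul, hmP, smul_zero]

lemma tr_of_ne (hne : G.Nonempty) {m : Fin n → F} (hm : ∀ P ∈ G, m ⬝ᵥ P ≠ 0) :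
    m ∉ (⊥ : Submodule F (Fin n → F)) ∧ Tr (⊥ ⊔ Submodule.span F {m}) 𝓛 := by
  have hm0 : m ∉ (⊥ : Submodule F (Fin n → F)) := by
    intro h
    obtain ⟨P, hP⟩ := hne
    apply hm P hP
    rw [(Submodule.mem_bot F).1 h, zero_dotProduct]
  refine ⟨hm0, tr_of_no_zero 𝓛 _ hci.1.tail ?_ ?_⟩
  · have h1 := hci.2.2
    rw [finrank_bot, List.length_cons] at h1
    rw [finrank_sup hm0, finrank_bot]
    omega
  · intro P h1 h2
    exact no_zero hci hvl G hG hm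
      (h1 m (Submodule.mem_sup_right (Submodule.mem_span_singleton_self m))) h2

/-- a form without zeros on `G` is a nonzerodivisor modulo `J ⊥ 𝓛` -/
lemma nzd_of_ne (hne : G.Nonempty) {m : Fin n → F} (hm : ∀ P ∈ G, m ⬝ᵥ P ≠ 0)
    {p : MvPolynomial (Fin n) F} (hp : lin m * p ∈ J ⊥ 𝓛) : p ∈ J ⊥ 𝓛 := by
  obtain ⟨h1, h2⟩ := tr_of_ne hci hvl G hG hne hm
  exact nzd hci.1.tail h1 h2 hp

lemma eval_pr_ne {P : Fin n → F} (hP : P ∈ G) : eval P (pr l) ≠ 0 := by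
  intro h
  obtain ⟨u, hu, huP⟩ := eval_pr_eq_zero.1 h
  have h1 := (hG P).1 hP
  have h2 : P = 0 := ker_zero (CI_sup_mem hci hu) (dot_sup h1.2.1 huP) h1.2.2
  rw [h2, dotProduct_zero] at h1
  exact zero_ne_one h1.1

lemma eval_mem {P : Fin n → F} (hP : P ∈ G) {f : MvPolynomial (Fin n) F} (hf : f ∈ J ⊥ 𝓛) :
    eval P f = 0 :=
  eval_J ((hG P).1 hP).2.1 ((hG P).1 hP).2.2 hf

/-- the hypotheses of the Hessian lemma -/
theorem bad_of_not_EX (hne : G.Nonempty) (r : (Fin n → F) → F)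
    (hr : ∀ (d : ℕ) (g : MvPolynomial (Fin n) F), d < sg 𝓛 → g.IsHomogeneous d →
        ∑ P ∈ G, r P * eval P g = 0)
    (ha : l.length + 2 ≤ sg 𝓛) (hnot : ¬ EX (J ⊥ (l :: 𝓛)) 1 l.length) :
    (∀ q : Fin n → F, ∑ P ∈ G, r P * eval P (pr l) * (q ⬝ᵥ P) = 0) ∧
    ∀ m : Fin n → F, (∀ P ∈ G, m ⬝ᵥ P ≠ 0) → ∃ h : Fin n → F, (∀ t : F, h ≠ t • m) ∧
      ∀ q : Fin n → F,
        ∑ P ∈ G, r P * eval P (pr l) * (h ⬝ᵥ P / (m ⬝ᵥ P)) * (q ⬝ᵥ P) = 0 := by
  refine ⟨fun q => ?_, fun m hm => ?_⟩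
  · rw [← hr (l.length + 1) (pr l * lin q) (by omega)
      ((pr_isHomogeneous l).mul (lin_isHomogeneous q))]
    refine Finset.sum_congr rfl fun P _ => ?_
    rw [map_mul, LefProd.eval_lin, mul_assoc]
  · have h1 : ¬ LI (J ⊥ (l :: 𝓛)) m 1 l.length := fun h => hnot ⟨m, h⟩
    rw [LI] at h1
    push Not at h1
    obtain ⟨p, hp, hmp, hpJ⟩ := h1
    rw [pow_one] at hmp
    have hmph : (lin m * p).IsHomogeneous (l.length + 1) := by
      have := (lin_isHomogeneous m).mul hp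
      rwa [add_comm] at this
    obtain ⟨h, hh, hmem⟩ := cons_hom hmph hmp (by omega)
    rw [show l.length + 1 - l.length = 1 by omega] at hh
    obtain ⟨h', rfl⟩ := exists_lin hh
    refine ⟨h', ?_, ?_⟩
    · rintro t rfl
      apply hpJ
      rw [mem_J_cons_iff]
      refine ⟨C t, nzd_of_ne hci hvl G hG hne hm ?_⟩
      convert hmem using 1
      rw [map_smul, smul_eq_C_mul]
      ring
    · intro q
      rw [← hr (l.length + 1) (p * lin q) (by omega) (hp.mul (lin_isHomogeneous q))]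
      refine Finset.sum_congr rfl fun P hP => ?_
      have h2 := eval_mem hci hvl G hG hP hmem
      rw [map_sub, map_mul, map_mul, LefProd.eval_lin, LefProd.eval_lin, sub_eq_zero] at h2
      rw [map_mul, LefProd.eval_lin]
      have h3 := hm P hP
      field_simp
      linear_combination (-(r P) * (q ⬝ᵥ P)) * h2

end

/-- degree `l.length` -/
theorem EX_top [CharZero F] {l : List (Fin n → F)} {𝓛 : List (List (Fin n → F))}
    (hci : CI ⊥ (l :: 𝓛)) {v : Fin n → F} (hvl : v ∈ l) (hred : Red ⊥ v 𝓛)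
    (h2 : ∀ l' ∈ 𝓛, 2 ≤ l'.length) (ha : l.length + 2 ≤ sg 𝓛) :
    EX (J ⊥ (l :: 𝓛)) 1 l.length := by
  by_contra hnot
  have hv := hci.2.1 v hvl
  have hdim := hci.2.2
  rw [List.length_cons] at hdim
  obtain ⟨G, r, hG, hcard, hr0, -, hr⟩ := residue hci.1.tail hv.1 hv.2 (by omega) hred
  have hne : G.Nonempty := by
    rw [← Finset.card_pos, hcard]
    apply List.prod_pos
    intro x hx
    obtain ⟨l', hl', rfl⟩ := List.mem_map.1 hx
    have := h2 l' hl'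
    omega
  obtain ⟨e1, e2⟩ := bad_of_not_EX hci hvl G hG hne r hr ha hnot
  exact contra hci hvl h2 G hG hcard (fun P => r P * eval P (pr l))
    (fun P hP => mul_ne_zero (hr0 P hP) (eval_pr_ne hci hvl G hG hP)) e1 e2

end Pool.Agent.LefRed
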