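import Pool.Agent.LefRed.Hess2
import Pool.Agent.LefRed.Cnt
import Pool.Agent.LefProd.Final

/-!
From the Hessian lemma and the count of points to a contradiction.
-/

set_option autoImplicit false
set_option linter.unusedSectionVars false

namespace Pool.Agent.LefRed

open MvPolynomial Pool.Agent.LefProd

variable {F : Type*} [Field F] {n : ℕ}

lemma CI_sup_mem {W : Submodule F (Fin n → F)} {u : Fin n → F} {l : List (Fin n → F)}
    {𝓛 : List (List (Fin n → F))} (h : CI W (l :: 𝓛)) (hu : u ∈ l) :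
    CI (W ⊔ Submodule.span F {u}) 𝓛 := by
  obtain ⟨h1, h2, h3⟩ := h
  refine ⟨h1.tail, (h2 u hu).2, ?_⟩
  rw [finrank_sup (h2 u hu).1]
  rw [List.length_cons] at h3
  omega

/-- a complete intersection has no nonzero common zero -/
lemma ker_zero {𝓛 : List (List (Fin n → F))} : ∀ {W : Submodule F (Fin n → F)}, CI W 𝓛 →
    ∀ {P : Fin n → F}, (∀ w ∈ W, w ⬝ᵥ P = 0) → (∀ l ∈ 𝓛, ∃ u ∈ l, u ⬝ᵥ P = 0) → P = 0 := by
  induction 𝓛 with
  | nil =>
    intro W hci P hW _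
    have h1 : W = ⊤ := by
      apply Submodule.eq_top_of_finrank_eq
      have := hci.2.2
      rw [List.length_nil, add_zero] at this
      rw [this, Module.finrank_fin_fun]
    funext i
    have := hW (Pi.single i 1) (h1 ▸ Submodule.mem_top)
    simpa [single_dotProduct] using this
  | cons l 𝓛 ih =>
    intro W hci P hW hl
    obtain ⟨u, hu, huP⟩ := hl l List.mem_cons_self
    refine ih (CI_sup_mem hci hu) ?_ fun l' hl' => hl l' (List.mem_cons_of_mem _ hl')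
    intro w hw
    obtain ⟨w1, hw1, z, hz, rfl⟩ := Submodule.mem_sup.1 hw
    obtain ⟨t, rfl⟩ := Submodule.mem_span_singleton.1 hz
    rw [add_dotProduct, hW w1 hw1, smul_dotProduct, huP, smul_zero, add_zero]

/-- the contradiction -/
theorem contra [CharZero F] {l : List (Fin n → F)} {𝓛 : List (List (Fin n → F))}
    (hci : CI ⊥ (l :: 𝓛)) {v : Fin n → F} (hvl : v ∈ l) (h2 : ∀ l' ∈ 𝓛, 2 ≤ l'.length)
    (G : Finset (Fin n → F))
    (hG : ∀ P, P ∈ G ↔ (v ⬝ᵥ P = 1 ∧ (∀ w ∈ (⊥ : Submodule F (Fin n → F)), w ⬝ᵥ P = 0) ∧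
      ∀ l ∈ 𝓛, ∃ u ∈ l, u ⬝ᵥ P = 0))
    (hcard : G.card = (𝓛.map List.length).prod)
    (c : (Fin n → F) → F) (hc : ∀ P ∈ G, c P ≠ 0)
    (hsum : ∀ q : Fin n → F, ∑ P ∈ G, c P * (q ⬝ᵥ P) = 0)
    (hbad : ∀ l : Fin n → F, (∀ P ∈ G, l ⬝ᵥ P ≠ 0) → ∃ h : Fin n → F, (∀ t : F, h ≠ t • l) ∧
      ∀ q : Fin n → F, ∑ P ∈ G, c P * (h ⬝ᵥ P / (l ⬝ᵥ P)) * (q ⬝ᵥ P) = 0) : False := by
  classical
  have hv : ∀ P ∈ G, v ⬝ᵥ P = 1 := fun P hP => ((hG P).1 hP).1
  obtain ⟨K, hK1, hK2, hK3⟩ := hess G c hc v hv hsum hbad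
  have hlen := hci.2.2
  rw [finrank_bot, List.length_cons, zero_add] at hlen
  refine count_main (ι := Fin 𝓛.length) (fun i => (𝓛[i.1]).toFinset)
    (fun i => (𝓛[i.1]).length) (fun i => List.toFinset_card_le _)
    (fun i => h2 _ (List.getElem_mem _)) (by rw [Fintype.card_fin]; exact hlen) ?_ G v hv ?_ ?_
    K hK1 hK2 hK3
  · intro u hu x y hx hy hx0
    have hci2 := CI_sup_mem hci hvl
    have hker : ∀ z : Fin n → F, v ⬝ᵥ z = 0 → (∀ i, u i ⬝ᵥ z = 0) → z = 0 := by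
      intro z hz hz2
      refine ker_zero hci2 ?_ ?_
      · intro w hw
        rw [bot_sup_eq] at hw
        obtain ⟨t, rfl⟩ := Submodule.mem_span_singleton.1 hw
        rw [smul_dotProduct, hz, smul_zero]
      · intro l' hl'
        obtain ⟨i, hi, rfl⟩ := List.getElem_of_mem hl'
        exact ⟨u ⟨i, hi⟩, List.mem_toFinset.1 (hu ⟨i, hi⟩), hz2 _⟩
    have hvx : v ⬝ᵥ x ≠ 0 := fun h => hx0 (hker x h hx)
    refine ⟨v ⬝ᵥ y / (v ⬝ᵥ x), ?_⟩
    rw [← sub_eq_zero]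
    apply hker
    · rw [dotProduct_sub, dotProduct_smul, smul_eq_mul, div_mul_cancel₀ _ hvx, sub_self]
    · intro i
      rw [dotProduct_sub, dotProduct_smul, hx i, hy i, smul_zero, sub_zero]
  · intro P hP i
    obtain ⟨u, hu, huP⟩ := ((hG P).1 hP).2.2 _ (List.getElem_mem i.2)
    exact ⟨u, List.mem_toFinset.2 hu, huP⟩
  · rw [hcard]
    exact (Fin.prod_univ_fun_getElem 𝓛 List.length).symm

end Pool.Agent.LefRed
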