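import Pool.Agent.LefProd.Basic
import Pool.Agent.LefProd.MatInj

/-!
Finite sets of vectors `P` with weights `c P` such that for every linear form `ℓ` without zeros
on the set the quadratic form `∑ c P / ℓ(P) * P ⊗ P` has a kernel larger than the line of `ℓ`:
the set is covered by classes whose spans have dimensions `r ≥ 2` with `∑ (r - 1) + 2 ≤ n`.
-/

set_option autoImplicit false
set_option linter.unusedSectionVars false

namespace Pool.Agent.LefRed

open MvPolynomial Pool.Agent.LefProd

variable {F : Type*} [Field F] {n : ℕ}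

/-- Vandermonde -/
lemma vand {R M : Type*} [CommRing R] [IsDomain R] [AddCommGroup M] [Module R M]
    [Module.IsTorsionFree R M] [DecidableEq R] {T : Finset R} (b : R → M)
    (h : ∀ m : ℕ, ∑ w ∈ T, w ^ m • b w = 0) : ∀ w ∈ T, b w = 0 := by
  have hp : ∀ p : Polynomial R, ∑ w ∈ T, p.eval w • b w = 0 := by
    intro p
    induction p using Polynomial.induction_on' with
    | add p q hp hq => simp only [Polynomial.eval_add, add_smul, Finset.sum_add_distrib, hp, hq,
        add_zero]
    | monomial m a =>
      simp only [Polynomial.eval_monomial, mul_smul, ← Finset.smul_sum, h m, smul_zero]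
  intro w hw
  have h1 := hp (∏ w' ∈ T.erase w, (Polynomial.X - Polynomial.C w'))
  rw [Finset.sum_eq_single w] at h1
  · refine (smul_eq_zero.1 h1).resolve_left ?_
    rw [Polynomial.eval_prod]
    refine Finset.prod_ne_zero_iff.2 fun w' hw' => ?_
    simp only [Polynomial.eval_sub, Polynomial.eval_X, Polynomial.eval_C]
    exact sub_ne_zero.2 (Finset.ne_of_mem_erase hw').symm
  · intro w' hw' hne
    have : Polynomial.eval w' (∏ w'' ∈ T.erase w, (Polynomial.X - Polynomial.C w'')) = 0 := by
      rw [Polynomial.eval_prod]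
      exact Finset.prod_eq_zero (Finset.mem_erase.2 ⟨hne, hw'⟩) (by simp)
    rw [this, zero_smul]
  · intro h2
    exact absurd hw h2

/-- value of a polynomial vector at a constant vector -/
noncomputable def ev (h : Fin n → MvPolynomial (Fin n) F) (P : Fin n → F) :
    MvPolynomial (Fin n) F := ∑ i, h i * C (P i)

lemma ev_def (h : Fin n → MvPolynomial (Fin n) F) (P : Fin n → F) :
    ev h P = ∑ i, h i * C (P i) := rfl

lemma ev_X (P : Fin n → F) : ev (fun i => X i) P = lin P := by
  rw [ev_def, lin_apply]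
  exact Finset.sum_congr rfl fun i _ => by rw [smul_eq_C_mul, mul_comm]

lemma pderiv_ev (j : Fin n) (h : Fin n → MvPolynomial (Fin n) F) (P : Fin n → F) :
    pderiv j (ev h P) = ev (fun i => pderiv j (h i)) P := by
  rw [ev_def, ev_def, map_sum]
  refine Finset.sum_congr rfl fun i _ => ?_
  rw [Derivation.leibniz, pderiv_C, smul_zero, zero_add, smul_eq_mul, mul_comm]

lemma pderiv_lin (j : Fin n) (P : Fin n → F) : pderiv j (lin P) = C (P j) := by
  rw [← ev_X, pderiv_ev, ev_def, Finset.sum_eq_single j]
  · simp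
  · intro i _ hij
    rw [pderiv_X_of_ne hij, zero_mul]
  · simp

lemma eval_lin (P Q : Fin n → F) : eval Q (lin P) = P ⬝ᵥ Q := by
  rw [lin_apply, map_sum, dotProduct]
  refine Finset.sum_congr rfl fun i _ => ?_
  rw [smul_eq_C_mul, map_mul, eval_C, eval_X]

/-- `∑ ev` -/
lemma sum_ev (G : Finset (Fin n → F)) (a : (Fin n → F) → MvPolynomial (Fin n) F)
    (h : Fin n → MvPolynomial (Fin n) F) :
    ∑ P ∈ G, a P * ev h P = ∑ i, h i * ∑ P ∈ G, a P * C (P i) := by
  simp only [ev_def, Finset.mul_sum]
  rw [Finset.sum_comm]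
  refine Finset.sum_congr rfl fun i _ => Finset.sum_congr rfl fun P _ => ?_
  ring

section main

variable (G : Finset (Fin n → F)) (c : (Fin n → F) → F)
  (h : Fin n → MvPolynomial (Fin n) F) (D : MvPolynomial (Fin n) F)
  (u : (Fin n → F) → MvPolynomial (Fin n) F)

/-- all power sums vanish -/
lemma powers [CharZero F] (hu : ∀ P ∈ G, lin P * u P = D * ev h P)
    (h0 : ∀ i, ∑ P ∈ G, C (c P) * C (P i) = (0 : MvPolynomial (Fin n) F))
    (h1 : ∀ i, ∑ P ∈ G, C (c P) * u P * C (P i) = 0) :
    ∀ (m : ℕ) (i : Fin n), ∑ P ∈ G, C (c P) * u P ^ m * C (P i) = 0 := by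
  have key : ∀ m : ℕ, (∀ i : Fin n, ∑ P ∈ G, C (c P) * u P ^ (m + 1) * C (P i) = 0) →
      ∀ i : Fin n, ∑ P ∈ G, C (c P) * u P ^ (m + 2) * C (P i) = 0 := by
    intro m hm j
    -- differentiate
    have hd : ∀ i : Fin n, ∑ P ∈ G, (C (c P) * u P ^ m * pderiv j (u P)) * C (P i) = 0 := by
      intro i
      have h2 := congrArg (pderiv j) (hm i)
      rw [map_zero, map_sum] at h2
      have h3 : ∀ P ∈ G, pderiv j (C (c P) * u P ^ (m + 1) * C (P i)) =
          ((m + 1 : ℕ) : MvPolynomial (Fin n) F) *
            ((C (c P) * u P ^ m * pderiv j (u P)) * C (P i)) := by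
        intro P _
        rw [Derivation.leibniz, Derivation.leibniz, pderiv_C, pderiv_C, Derivation.leibniz_pow]
        simp only [smul_eq_mul, nsmul_eq_mul, Nat.add_sub_cancel]
        ring
      rw [Finset.sum_congr rfl h3, ← Finset.mul_sum] at h2
      refine (mul_eq_zero.1 h2).resolve_left ?_
      exact_mod_cast Nat.succ_ne_zero m
    have h4 : ∑ P ∈ G, (C (c P) * u P ^ m * pderiv j (u P)) * ev h P = 0 := by
      rw [sum_ev]
      exact Finset.sum_eq_zero fun i _ => by rw [hd i, mul_zero]
    have h5 : ∑ P ∈ G, C (c P) * u P ^ (m + 1) * (lin P * pderiv j (u P)) = 0 := by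
      have h6 : D * ∑ P ∈ G, (C (c P) * u P ^ m * pderiv j (u P)) * ev h P = 0 := by
        rw [h4, mul_zero]
      rw [Finset.mul_sum] at h6
      rw [← h6]
      refine Finset.sum_congr rfl fun P hP => ?_
      have := hu P hP
      calc C (c P) * u P ^ (m + 1) * (lin P * pderiv j (u P))
          = C (c P) * u P ^ m * pderiv j (u P) * (lin P * u P) := by ring
        _ = _ := by rw [this]; ring
    have h7 : ∀ P ∈ G, lin P * pderiv j (u P) =
        pderiv j D * ev h P + D * ev (fun i => pderiv j (h i)) P - u P * C (P j) := by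
      intro P hP
      have h8 := congrArg (pderiv j) (hu P hP)
      rw [Derivation.leibniz, Derivation.leibniz, pderiv_lin, pderiv_ev] at h8
      simp only [smul_eq_mul] at h8
      linear_combination h8
    have h9 : ∑ P ∈ G, C (c P) * u P ^ (m + 1) * (lin P * pderiv j (u P)) =
        pderiv j D * (∑ P ∈ G, C (c P) * u P ^ (m + 1) * ev h P) +
        D * (∑ P ∈ G, C (c P) * u P ^ (m + 1) * ev (fun i => pderiv j (h i)) P) -
        ∑ P ∈ G, C (c P) * u P ^ (m + 2) * C (P j) := by
      rw [Finset.mul_sum, Finset.mul_sum, ← Finset.sum_add_distrib, ← Finset.sum_sub_distrib]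
      refine Finset.sum_congr rfl fun P hP => ?_
      rw [h7 P hP]
      ring
    rw [h5, sum_ev, sum_ev] at h9
    have h10 : ∀ g : Fin n → MvPolynomial (Fin n) F,
        ∑ i, g i * ∑ P ∈ G, C (c P) * u P ^ (m + 1) * C (P i) = 0 := fun g =>
      Finset.sum_eq_zero fun i _ => by rw [hm i, mul_zero]
    rw [h10, h10, mul_zero, mul_zero, add_zero, zero_sub, eq_comm, neg_eq_zero] at h9
    exact h9
  intro m
  induction m with
  | zero => intro i; simpa using h0 i
  | succ m ih =>
    cases m with
    | zero => intro i; simpa using h1 i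
    | succ m => exact key m ih

/-- the classes are in equilibrium -/
lemma classes [DecidableEq (MvPolynomial (Fin n) F)] [CharZero F]
    (hu : ∀ P ∈ G, lin P * u P = D * ev h P)
    (h0 : ∀ i, ∑ P ∈ G, C (c P) * C (P i) = (0 : MvPolynomial (Fin n) F))
    (h1 : ∀ i, ∑ P ∈ G, C (c P) * u P * C (P i) = 0) (w : MvPolynomial (Fin n) F) (i : Fin n) :
    ∑ P ∈ G with u P = w, c P * P i = 0 := by
  have h2 := powers G c h D u hu h0 h1
  have h3 := vand (T := G.image u)
    (fun w => ∑ P ∈ G with u P = w, C (c P) * (C (P i) : MvPolynomial (Fin n) F)) (by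
      intro m
      rw [← h2 m i, ← Finset.sum_fiberwise_of_maps_to (g := u) (t := G.image u)
        (fun P hP => Finset.mem_image_of_mem u hP)]
      refine Finset.sum_congr rfl fun w _ => ?_
      rw [smul_eq_mul, Finset.mul_sum]
      refine Finset.sum_congr rfl fun P hP => ?_
      rw [(Finset.mem_filter.1 hP).2]
      ring)
  by_cases hw : w ∈ G.image u
  · have h4 := h3 w hw
    simp only [← C_mul, ← map_sum] at h4
    exact C_eq_zero.1 h4
  · rw [Finset.filter_false_of_mem, Finset.sum_empty]
    intro P hP hPw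
    exact hw (hPw ▸ Finset.mem_image_of_mem u hP)

/-- one step of the independence argument -/
lemma indep_step [DecidableEq (MvPolynomial (Fin n) F)]
    (hu : ∀ P ∈ G, lin P * u P = D * ev h P)
    (b : (Fin n → F) → MvPolynomial (Fin n) F)
    (hb1 : ∀ w, ∑ P ∈ G with u P = w, b P * lin P = 0)
    (hb2 : ∀ i, ∑ P ∈ G, b P * C (P i) = 0) (j : Fin n) :
    ∑ P ∈ G, u P * b P * C (P j) = 0 := by
  have hd : ∀ i, ∑ P ∈ G, pderiv j (b P) * C (P i) = 0 := by
    intro i
    have h2 := congrArg (pderiv j) (hb2 i)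
    rw [map_zero, map_sum] at h2
    rw [← h2]
    refine Finset.sum_congr rfl fun P _ => ?_
    rw [Derivation.leibniz, pderiv_C, smul_zero, zero_add, smul_eq_mul, mul_comm]
  have h3 : ∑ P ∈ G, pderiv j (b P) * ev h P = 0 := by
    rw [sum_ev]
    exact Finset.sum_eq_zero fun i _ => by rw [hd i, mul_zero]
  have h4 : ∑ P ∈ G, u P * (pderiv j (b P) * lin P) = 0 := by
    have h5 : D * ∑ P ∈ G, pderiv j (b P) * ev h P = 0 := by rw [h3, mul_zero]
    rw [Finset.mul_sum] at h5
    rw [← h5]
    refine Finset.sum_congr rfl fun P hP => ?_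
    linear_combination (pderiv j (b P)) * hu P hP
  have h6 : ∀ w, ∑ P ∈ G with u P = w, pderiv j (b P) * lin P =
      - ∑ P ∈ G with u P = w, b P * C (P j) := by
    intro w
    have h7 := congrArg (pderiv j) (hb1 w)
    rw [map_zero, map_sum] at h7
    rw [eq_neg_iff_add_eq_zero, ← Finset.sum_add_distrib, ← h7]
    refine Finset.sum_congr rfl fun P _ => ?_
    rw [Derivation.leibniz, pderiv_lin]
    simp only [smul_eq_mul]
    ring
  rw [← Finset.sum_fiberwise_of_maps_to (g := u) (t := G.image u)
    (fun P hP => Finset.mem_image_of_mem u hP)] at h4 ⊢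
  rw [← neg_eq_zero, ← h4, ← Finset.sum_neg_distrib]
  refine Finset.sum_congr rfl fun w _ => ?_
  have h8 : ∑ P ∈ G with u P = w, u P * (pderiv j (b P) * lin P) =
      w * ∑ P ∈ G with u P = w, pderiv j (b P) * lin P := by
    rw [Finset.mul_sum]
    exact Finset.sum_congr rfl fun P hP => by rw [(Finset.mem_filter.1 hP).2]
  have h9 : ∑ P ∈ G with u P = w, u P * b P * C (P j) =
      w * ∑ P ∈ G with u P = w, b P * C (P j) := by
    rw [Finset.mul_sum]
    refine Finset.sum_congr rfl fun P hP => ?_
    rw [(Finset.mem_filter.1 hP).2]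
    ring
  rw [h8, h9, h6]
  ring

/-- independence of the classes inside the kernel of `ℓ` -/
lemma indep [DecidableEq (MvPolynomial (Fin n) F)]
    (hu : ∀ P ∈ G, lin P * u P = D * ev h P)
    (a : (Fin n → F) → MvPolynomial (Fin n) F)
    (ha1 : ∀ w, ∑ P ∈ G with u P = w, a P * lin P = 0)
    (ha2 : ∀ i, ∑ P ∈ G, a P * C (P i) = 0) (w : MvPolynomial (Fin n) F) (i : Fin n) :
    ∑ P ∈ G with u P = w, a P * C (P i) = 0 := by
  have key : ∀ m : ℕ, ∀ i, ∑ P ∈ G, u P ^ m * a P * C (P i) = 0 := by
    intro m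
    induction m with
    | zero => intro i; simpa using ha2 i
    | succ m ih =>
      intro j
      have h1 := indep_step G h D u hu (fun P => u P ^ m * a P) (by
        intro w
        have : ∑ P ∈ G with u P = w, u P ^ m * a P * lin P =
            w ^ m * ∑ P ∈ G with u P = w, a P * lin P := by
          rw [Finset.mul_sum]
          refine Finset.sum_congr rfl fun P hP => ?_
          rw [(Finset.mem_filter.1 hP).2]
          ring
        rw [this, ha1, mul_zero]) ih j
      rw [← h1]
      refine Finset.sum_congr rfl fun P _ => ?_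
      ring
  have h3 := vand (T := G.image u)
    (fun w => ∑ P ∈ G with u P = w, a P * C (P i)) (by
      intro m
      rw [← key m i, ← Finset.sum_fiberwise_of_maps_to (g := u) (t := G.image u)
        (fun P hP => Finset.mem_image_of_mem u hP)]
      refine Finset.sum_congr rfl fun w _ => ?_
      rw [smul_eq_mul, Finset.mul_sum]
      refine Finset.sum_congr rfl fun P hP => ?_
      rw [(Finset.mem_filter.1 hP).2]
      ring)
  by_cases hw : w ∈ G.image u
  · exact h3 w hw
  · rw [Finset.filter_false_of_mem, Finset.sum_empty]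
    intro P hP hPw
    exact hw (hPw ▸ Finset.mem_image_of_mem u hP)

end main

end Pool.Agent.LefRed
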