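import Pool.Agent.LefRed.Hess
import Pool.Agent.LefProd.Open

/-!
From the kernels at all linear forms to a polynomial kernel vector; the dimension count.
-/

set_option autoImplicit false
set_option linter.unusedSectionVars false

namespace Pool.Agent.LefRed

open MvPolynomial Pool.Agent.LefProd

variable {F : Type*} [Field F] {n : ℕ}

lemma exists_eval_ne [CharZero F] {p : MvPolynomial (Fin n) F} (hp : p ≠ 0) :
    ∃ x : Fin n → F, eval x p ≠ 0 := by
  have : Infinite F := CharZero.infinite F
  by_contra hcon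
  push Not at hcon
  exact hp (MvPolynomial.funext fun x => by rw [hcon x, map_zero])

lemma lin_ne_zero {P : Fin n → F} (hP : P ≠ 0) : lin P ≠ 0 := by
  intro h
  exact hP (lin_injective (by rw [h, map_zero]))

/-- a polynomial kernel vector that is not proportional to the vector of the variables -/
theorem exists_generic [CharZero F] [DecidableEq (Fin n → F)] (G : Finset (Fin n → F)) (c : (Fin n → F) → F)
    (v : Fin n → F) (hv : ∀ P ∈ G, v ⬝ᵥ P = 1)
    (hsum : ∀ q : Fin n → F, ∑ P ∈ G, c P * (q ⬝ᵥ P) = 0)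
    (hbad : ∀ l : Fin n → F, (∀ P ∈ G, l ⬝ᵥ P ≠ 0) → ∃ h : Fin n → F, (∀ t : F, h ≠ t • l) ∧
      ∀ q : Fin n → F, ∑ P ∈ G, c P * (h ⬝ᵥ P / (l ⬝ᵥ P)) * (q ⬝ᵥ P) = 0) :
    ∃ h : Fin n → MvPolynomial (Fin n) F, (∃ i j, X i * h j - X j * h i ≠ 0) ∧
      ∀ i, ∑ P ∈ G, C (c P) * (ev h P * ∏ Q ∈ G.erase P, lin Q) * C (P i) = 0 := by
  by_contra hcon
  push Not at hcon
  obtain ⟨h0, hh0, -⟩ := hbad v (fun P hP => by rw [hv P hP]; exact one_ne_zero)
  obtain ⟨i0, -⟩ : ∃ i0, h0 i0 ≠ 0 := by
    by_contra hz
    push Not at hz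
    exact hh0 0 (by rw [zero_smul]; exact funext hz)
  let M : Matrix (Fin n) (Fin n) (MvPolynomial (Fin n) F) :=
    Matrix.of fun k i => ∑ P ∈ G, C (c P) * (C (P i) * ∏ Q ∈ G.erase P, lin Q) * C (P k)
  have hM : ∀ (h : Fin n → MvPolynomial (Fin n) F) (k : Fin n), Matrix.mulVec M h k =
      ∑ P ∈ G, C (c P) * (ev h P * ∏ Q ∈ G.erase P, lin Q) * C (P k) := by
    intro h k
    rw [Matrix.mulVec, dotProduct]
    simp only [M, Matrix.of_apply, Finset.sum_mul, ev_def]
    rw [Finset.sum_comm]
    refine Finset.sum_congr rfl fun P _ => ?_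
    rw [Finset.mul_sum, Finset.sum_mul]
    refine Finset.sum_congr rfl fun i _ => ?_
    ring
  have hinj : Inj (Aug M i0) := by
    intro h hh
    rw [Aug_mulVec] at hh
    have h1 : ∀ i j, X i * h j - X j * h i = 0 := by
      by_contra hne
      push Not at hne
      obtain ⟨i, j, hij⟩ := hne
      obtain ⟨k, hk⟩ := hcon h ⟨i, j, hij⟩
      exact hk (by rw [← hM h k, hh.1]; rfl)
    funext j
    have h2 := h1 i0 j
    rw [hh.2, mul_zero, sub_zero] at h2
    exact (mul_eq_zero.1 h2).resolve_left (X_ne_zero i0)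
  obtain ⟨d, B, hd, hB⟩ := hinj.exists_scaled_left
  have hD : (∏ Q ∈ G, lin Q : MvPolynomial (Fin n) F) ≠ 0 := by
    refine Finset.prod_ne_zero_iff.2 fun Q hQ => lin_ne_zero ?_
    rintro rfl
    have := hv 0 hQ
    simp at this
  obtain ⟨l, hl⟩ := exists_eval_ne (mul_ne_zero (mul_ne_zero hd hD) (X_ne_zero i0))
  rw [map_mul, map_mul, eval_X] at hl
  have hld : eval l d ≠ 0 := fun h => hl (by rw [h, zero_mul, zero_mul])
  have hlD : eval l (∏ Q ∈ G, lin Q) ≠ 0 := fun h => hl (by rw [h, mul_zero, zero_mul])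
  have hl0 : l i0 ≠ 0 := fun h => hl (by rw [h, mul_zero])
  have hlP : ∀ P ∈ G, l ⬝ᵥ P ≠ 0 := by
    intro P hP h
    apply hlD
    rw [map_prod]
    refine Finset.prod_eq_zero hP ?_
    rw [eval_lin, dotProduct_comm, h]
  have hInj := inj_map_of_scaled_left (eval l) hB hld
  rw [Aug_map] at hInj
  obtain ⟨h, hh1, hh2⟩ := hbad l hlP
  -- the specialised matrix
  have hMl : ∀ (g : Fin n → F) (k : Fin n), Matrix.mulVec (M.map (eval l)) g k =
      (∏ Q ∈ G, l ⬝ᵥ Q) * ∑ P ∈ G, c P * (g ⬝ᵥ P / (l ⬝ᵥ P)) * P k := by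
    intro g k
    rw [Matrix.mulVec, dotProduct, Finset.mul_sum]
    simp only [M, Matrix.map_apply, Matrix.of_apply, map_sum, map_mul, eval_C, map_prod, eval_lin,
      Finset.sum_mul]
    rw [Finset.sum_comm]
    refine Finset.sum_congr rfl fun P hP => ?_
    have h3 : ∏ Q ∈ G, l ⬝ᵥ Q = (l ⬝ᵥ P) * ∏ Q ∈ G.erase P, Q ⬝ᵥ l := by
      rw [← Finset.mul_prod_erase G _ hP]
      congr 1
      exact Finset.prod_congr rfl fun Q _ => dotProduct_comm _ _
    rw [h3]
    have h4 : (l ⬝ᵥ P) * (∏ Q ∈ G.erase P, Q ⬝ᵥ l) * (c P * (g ⬝ᵥ P / (l ⬝ᵥ P)) * P k) =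
        (∏ Q ∈ G.erase P, Q ⬝ᵥ l) * c P * P k * (g ⬝ᵥ P) := by
      field_simp [hlP P hP]
    rw [h4, dotProduct, Finset.mul_sum]
    refine Finset.sum_congr rfl fun i _ => ?_
    ring
  have hk1 : Matrix.mulVec (M.map (eval l)) h = 0 := by
    funext k
    rw [hMl, Pi.zero_apply]
    have := hh2 (Pi.single k 1)
    simp only [single_dotProduct, one_mul] at this
    rw [this, mul_zero]
  have hk2 : Matrix.mulVec (M.map (eval l)) l = 0 := by
    funext k
    rw [hMl, Pi.zero_apply]
    have := hsum (Pi.single k 1)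
    simp only [single_dotProduct, one_mul] at this
    have h5 : ∑ P ∈ G, c P * (l ⬝ᵥ P / (l ⬝ᵥ P)) * P k = ∑ P ∈ G, c P * P k :=
      Finset.sum_congr rfl fun P hP => by rw [div_self (hlP P hP), mul_one]
    rw [h5, this, mul_zero]
  have h6 : l i0 • h - h i0 • l = 0 := by
    apply hInj
    rw [Aug_mulVec]
    refine ⟨?_, by simp [mul_comm]⟩
    rw [Matrix.mulVec_sub, Matrix.mulVec_smul, Matrix.mulVec_smul, hk1, hk2]
    simp
  apply hh1 (h i0 / l i0)
  have h7 := sub_eq_zero.1 h6
  funext j
  have h8 := congrFun h7 j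
  simp only [Pi.smul_apply, smul_eq_mul] at h8 ⊢
  field_simp
  linear_combination h8

/-- the dimension count -/
theorem dim_count [DecidableEq (MvPolynomial (Fin n) F)] (G : Finset (Fin n → F))
    (h : Fin n → MvPolynomial (Fin n) F) (D : MvPolynomial (Fin n) F)
    (u : (Fin n → F) → MvPolynomial (Fin n) F) (hD : D ≠ 0)
    (hu : ∀ P ∈ G, lin P * u P = D * ev h P) (hh : ∃ i j, X i * h j - X j * h i ≠ 0) :
    ∑ w ∈ G.image u, Module.finrank F (Submodule.span F
      ((G.filter fun P => u P = w : Finset (Fin n → F)) : Set (Fin n → F))) + 2 ≤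
      n + (G.image u).card := by
  classical
  -- a basis of each class
  have hB : ∀ w, ∃ B : Finset (Fin n → F), B ⊆ G.filter (fun P => u P = w) ∧
      LinearIndependent F ((↑) : B → Fin n → F) ∧
      B.card = Module.finrank F (Submodule.span F
        ((G.filter fun P => u P = w : Finset (Fin n → F)) : Set (Fin n → F))) := by
    intro w
    obtain ⟨b, hb1, hb2, hb3⟩ := exists_linearIndependent F
      ((G.filter fun P => u P = w : Finset (Fin n → F)) : Set (Fin n → F))
    have hfin : b.Finite := Set.Finite.subset (Finset.finite_toSet _) hb1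
    refine ⟨hfin.toFinset, ?_, ?_, ?_⟩
    · intro P hP
      exact Finset.mem_coe.1 (hb1 (hfin.mem_toFinset.1 hP))
    · have : ∀ P, P ∈ hfin.toFinset ↔ P ∈ b := fun P => hfin.mem_toFinset
      have h1 : ((hfin.toFinset : Finset (Fin n → F)) : Set (Fin n → F)) = b := hfin.coe_toFinset
      rw [← h1] at hb3
      exact hb3
    · rw [← hb2]
      have h1 : ((hfin.toFinset : Finset (Fin n → F)) : Set (Fin n → F)) = b := hfin.coe_toFinset
      conv_rhs => rw [← h1]
      rw [← h1] at hb3
      exact (finrank_span_finset_eq_card hb3).symm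
  choose B hBs hBi hBc using hB
  -- the union
  set E : Finset (Fin n → F) := G.filter fun P => P ∈ B (u P) with hE
  have hEw : ∀ w, E.filter (fun P => u P = w) = B w := by
    intro w
    ext P
    rw [hE, Finset.mem_filter, Finset.mem_filter]
    constructor
    · rintro ⟨⟨_, h2⟩, h3⟩
      rwa [h3] at h2
    · intro hP
      have := Finset.mem_filter.1 (hBs w hP)
      exact ⟨⟨this.1, by rw [this.2]; exact hP⟩, this.2⟩
  have hEcard : E.card = ∑ w ∈ G.image u, (B w).card := by
    rw [Finset.card_eq_sum_card_fiberwise (f := u) (t := G.image u)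
      (fun P hP => Finset.mem_image_of_mem u (Finset.mem_filter.1 hP).1)]
    exact Finset.sum_congr rfl fun w _ => by rw [hEw]
  obtain ⟨i, j, hij⟩ := hh
  -- the injective map
  let Wt : Finset (MvPolynomial (Fin n) F) := G.image u
  let f : ((E ⊕ Fin 2) → MvPolynomial (Fin n) F) →ₗ[MvPolynomial (Fin n) F]
      ((Fin n ⊕ Wt) → MvPolynomial (Fin n) F) :=
    { toFun := fun a => Sum.elim
        (fun k => ∑ P : E, a (Sum.inl P) * C (P.1 k) +
          (if k = i then a (Sum.inr 0) else 0) + (if k = j then a (Sum.inr 1) else 0))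
        (fun w => ∑ P : E, if u P.1 = w.1 then a (Sum.inl P) * lin P.1 else 0)
      map_add' := by
        intro a b
        funext k
        rcases k with k | k
        · simp only [Pi.add_apply, Sum.elim_inl, add_mul, Finset.sum_add_distrib]
          split_ifs <;> ring
        · simp only [Pi.add_apply, Sum.elim_inr, ← Finset.sum_add_distrib]
          refine Finset.sum_congr rfl fun P _ => ?_
          split_ifs <;> ring
      map_smul' := by
        intro r a
        funext k
        rcases k with k | k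
        · simp only [Pi.smul_apply, Sum.elim_inl, smul_eq_mul, RingHom.id_apply, mul_add,
            Finset.mul_sum, mul_ite, mul_zero, mul_assoc]
        · simp only [Pi.smul_apply, Sum.elim_inr, smul_eq_mul, RingHom.id_apply,
            Finset.mul_sum]
          refine Finset.sum_congr rfl fun P _ => ?_
          split_ifs <;> ring }
  have hf : Function.Injective f := by
    rw [injective_iff_map_eq_zero]
    intro a ha
    -- extend to all vectors
    let α : (Fin n → F) → MvPolynomial (Fin n) F := fun P => if hP : P ∈ E then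
      a (Sum.inl ⟨P, hP⟩) else 0
    have hα : ∀ P : E, α P.1 = a (Sum.inl P) := fun P => by simp [α, P.2]
    have hsumE : ∀ g : (Fin n → F) → MvPolynomial (Fin n) F,
        ∑ P : E, a (Sum.inl P) * g P.1 = ∑ P ∈ E, α P * g P := by
      intro g
      rw [← Finset.sum_coe_sort E (fun P => α P * g P)]
      exact Finset.sum_congr rfl fun P _ => by rw [hα]
    have hsumG : ∀ g : (Fin n → F) → MvPolynomial (Fin n) F,
        ∑ P ∈ E, α P * g P = ∑ P ∈ G, α P * g P := by
      intro g
      refine Finset.sum_subset (Finset.filter_subset _ _) fun P _ hP => ?_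
      simp [α, hP]
    have h1 : ∀ k, ∑ P ∈ G, α P * C (P k) +
        (if k = i then a (Sum.inr 0) else 0) + (if k = j then a (Sum.inr 1) else 0) = 0 := by
      intro k
      have := congrFun ha (Sum.inl k)
      simp only [f, LinearMap.coe_mk, AddHom.coe_mk, Sum.elim_inl, Pi.zero_apply] at this
      rw [hsumE (fun P => C (P k)), hsumG (fun P => C (P k))] at this
      exact this
    have h2 : ∀ w, ∑ P ∈ G with u P = w, α P * lin P = 0 := by
      intro w
      by_cases hw : w ∈ Wt
      · have := congrFun ha (Sum.inr ⟨w, hw⟩)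
        simp only [f, LinearMap.coe_mk, AddHom.coe_mk, Sum.elim_inr, Pi.zero_apply] at this
        rw [Finset.sum_filter]
        have h3 := hsumE (fun P => if u P = w then lin P else 0)
        have h4 := hsumG (fun P => if u P = w then lin P else 0)
        simp only [mul_ite, mul_zero] at h3 h4
        rw [← h4, ← h3]
        exact this
      · rw [Finset.filter_false_of_mem, Finset.sum_empty]
        intro P hP hPw
        exact hw (hPw ▸ Finset.mem_image_of_mem u hP)
    -- the two functionals
    have h3 : ∑ P ∈ G, α P * lin P = 0 := by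
      rw [← Finset.sum_fiberwise_of_maps_to (g := u) (t := G.image u)
        (fun P hP => Finset.mem_image_of_mem u hP)]
      exact Finset.sum_eq_zero fun w _ => h2 w
    have h4 : ∑ P ∈ G, α P * ev h P = 0 := by
      have h5 : D * ∑ P ∈ G, α P * ev h P = 0 := by
        rw [Finset.mul_sum]
        have h6 : ∑ P ∈ G, D * (α P * ev h P) = ∑ P ∈ G, u P * (α P * lin P) :=
          Finset.sum_congr rfl fun P hP => by linear_combination - (α P) * hu P hP
        rw [h6, ← Finset.sum_fiberwise_of_maps_to (g := u) (t := G.image u)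
          (fun P hP => Finset.mem_image_of_mem u hP)]
        refine Finset.sum_eq_zero fun w _ => ?_
        have : ∑ P ∈ G with u P = w, u P * (α P * lin P) =
            w * ∑ P ∈ G with u P = w, α P * lin P := by
          rw [Finset.mul_sum]
          exact Finset.sum_congr rfl fun P hP => by rw [(Finset.mem_filter.1 hP).2]
        rw [this, h2, mul_zero]
      exact (mul_eq_zero.1 h5).resolve_left hD
    have hfun : ∀ g : Fin n → MvPolynomial (Fin n) F, ∑ P ∈ G, α P * ev g P +
        g i * a (Sum.inr 0) + g j * a (Sum.inr 1) = 0 := by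
      intro g
      have h5 : ∑ k, g k * (∑ P ∈ G, α P * C (P k) +
        (if k = i then a (Sum.inr 0) else 0) + (if k = j then a (Sum.inr 1) else 0)) = 0 :=
        Finset.sum_eq_zero fun k _ => by rw [h1, mul_zero]
      simp only [mul_add, Finset.sum_add_distrib, mul_ite, mul_zero] at h5
      rw [Finset.sum_ite_eq' Finset.univ i, Finset.sum_ite_eq' Finset.univ j] at h5
      simp only [Finset.mem_univ, if_true] at h5
      rw [sum_ev]
      exact h5
    have e1 := hfun (fun k => X k)
    have e2 := hfun h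
    simp only [ev_X] at e1
    rw [h3, zero_add] at e1
    rw [h4, zero_add] at e2
    have b0 : a (Sum.inr 0) = 0 := by
      have : (X i * h j - X j * h i) * a (Sum.inr 0) = 0 := by
        linear_combination h j * e1 - X j * e2
      exact (mul_eq_zero.1 this).resolve_left hij
    have b1 : a (Sum.inr 1) = 0 := by
      have : (X i * h j - X j * h i) * a (Sum.inr 1) = 0 := by
        linear_combination X i * e2 - h i * e1
      exact (mul_eq_zero.1 this).resolve_left hij
    have h5 : ∀ k, ∑ P ∈ G, α P * C (P k) = 0 := by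
      intro k
      have := h1 k
      rw [b0, b1] at this
      simpa using this
    have h6 := fun w k => indep G h D u hu α h2 h5 w k
    have h7 : ∀ P ∈ E, α P = 0 := by
      intro P hP
      set w := u P with hw
      have hPB : P ∈ B w := by
        rw [← hEw w, Finset.mem_filter]
        exact ⟨hP, rfl⟩
      -- linear independence over the polynomial ring
      have h8 : ∀ k, ∑ Q ∈ B w, α Q * C (Q k) = 0 := by
        intro k
        rw [← h6 w k]
        refine Finset.sum_subset (hBs w) fun Q hQ hQB => ?_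
        have : Q ∉ E := by
          intro hQE
          apply hQB
          rw [← hEw w, Finset.mem_filter]
          exact ⟨hQE, (Finset.mem_filter.1 hQ).2⟩
        simp [α, this]
      ext e
      rw [coeff_zero]
      have h9 : ∑ Q : B w, coeff e (α Q.1) • (Q.1 : Fin n → F) = 0 := by
        funext k
        have := congrArg (coeff e) (h8 k)
        rw [coeff_sum, coeff_zero] at this
        have hcm : ∀ Q : Fin n → F, coeff e (α Q * C (Q k)) = coeff e (α Q) * Q k := fun Q => by
          rw [mul_comm, coeff_C_mul, mul_comm]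
        simp only [hcm] at this
        rw [Finset.sum_apply, Pi.zero_apply, ← this,
          ← Finset.sum_coe_sort (B w) (fun Q => coeff e (α Q) * Q k)]
        rfl
      exact Fintype.linearIndependent_iff.1 (hBi w) (fun Q => coeff e (α Q.1)) h9 ⟨P, hPB⟩
    funext k
    rcases k with P | k
    · rw [← hα P, h7 P.1 P.2, Pi.zero_apply]
    · fin_cases k
      · exact b0
      · exact b1
  have hcard := card_le_of_injective _ f hf
  rw [Fintype.card_sum, Fintype.card_sum, Fintype.card_fin, Fintype.card_fin,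
    Fintype.card_coe, Fintype.card_coe, hEcard] at hcard
  simp only [hBc] at hcard
  exact hcard

/-- The Hessian lemma. -/
theorem hess [CharZero F] (G : Finset (Fin n → F)) (c : (Fin n → F) → F)
    (hc : ∀ P ∈ G, c P ≠ 0) (v : Fin n → F) (hv : ∀ P ∈ G, v ⬝ᵥ P = 1)
    (hsum : ∀ q : Fin n → F, ∑ P ∈ G, c P * (q ⬝ᵥ P) = 0)
    (hbad : ∀ l : Fin n → F, (∀ P ∈ G, l ⬝ᵥ P ≠ 0) → ∃ h : Fin n → F, (∀ t : F, h ≠ t • l) ∧
      ∀ q : Fin n → F, ∑ P ∈ G, c P * (h ⬝ᵥ P / (l ⬝ᵥ P)) * (q ⬝ᵥ P) = 0) :
    ∃ K : Finset (Finset (Fin n → F)), (∀ P ∈ G, ∃ S ∈ K, P ∈ S) ∧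
      (∀ S ∈ K, 2 ≤ Module.finrank F (Submodule.span F (S : Set (Fin n → F)))) ∧
      ∑ S ∈ K, (Module.finrank F (Submodule.span F (S : Set (Fin n → F))) - 1) + 2 ≤ n := by
  classical
  obtain ⟨h, hh, hk⟩ := exists_generic G c v hv hsum hbad
  set D : MvPolynomial (Fin n) F := ∏ Q ∈ G, lin Q with hDdef
  have hD : D ≠ 0 := by
    refine Finset.prod_ne_zero_iff.2 fun Q hQ => lin_ne_zero ?_
    rintro rfl
    have := hv 0 hQ
    simp at this
  set u : (Fin n → F) → MvPolynomial (Fin n) F := fun P => ev h P * ∏ Q ∈ G.erase P, lin Q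
    with hudef
  have hu : ∀ P ∈ G, lin P * u P = D * ev h P := by
    intro P hP
    rw [hDdef, ← Finset.mul_prod_erase G _ hP, hudef]
    ring
  have h0 : ∀ i, ∑ P ∈ G, C (c P) * C (P i) = (0 : MvPolynomial (Fin n) F) := by
    intro i
    have := hsum (Pi.single i 1)
    simp only [single_dotProduct, one_mul] at this
    simp only [← C_mul, ← map_sum, this, C_0]
  have hcl := classes G c h D u hu h0 hk
  let S : MvPolynomial (Fin n) F → Finset (Fin n → F) := fun w => G.filter fun P => u P = w
  have hinj : Set.InjOn S (G.image u : Set (MvPolynomial (Fin n) F)) := by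
    intro w hw w' _ hww
    obtain ⟨P, hP, rfl⟩ := Finset.mem_image.1 (Finset.mem_coe.1 hw)
    have h1 : P ∈ S (u P) := Finset.mem_filter.2 ⟨hP, rfl⟩
    rw [hww] at h1
    exact (Finset.mem_filter.1 h1).2
  have hrk : ∀ w ∈ G.image u, 2 ≤ Module.finrank F (Submodule.span F
      ((S w : Finset (Fin n → F)) : Set (Fin n → F))) := by
    intro w hw
    obtain ⟨P0, hP0, rfl⟩ := Finset.mem_image.1 hw
    by_contra hlt
    have hle : Module.finrank F (Submodule.span F
      ((S (u P0) : Finset (Fin n → F)) : Set (Fin n → F))) ≤ 1 := by omega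
    have hP0S : P0 ∈ S (u P0) := Finset.mem_filter.2 ⟨hP0, rfl⟩
    have hP00 : P0 ≠ 0 := by
      rintro rfl
      have := hv 0 hP0
      simp at this
    have hall : ∀ P ∈ S (u P0), P = P0 := by
      intro P hP
      have hPG := (Finset.mem_filter.1 hP).1
      obtain ⟨x, hx⟩ := finrank_le_one_iff.1 hle
      obtain ⟨t0, ht0⟩ := hx ⟨P0, Submodule.subset_span (Finset.mem_coe.2 hP0S)⟩
      obtain ⟨t, ht⟩ := hx ⟨P, Submodule.subset_span (Finset.mem_coe.2 hP)⟩
      have e0 : t0 • (x : Fin n → F) = P0 := congrArg Subtype.val ht0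
      have e1 : t • (x : Fin n → F) = P := congrArg Subtype.val ht
      have f0 := hv P0 hP0
      have f1 := hv P hPG
      rw [← e0, dotProduct_smul, smul_eq_mul] at f0
      rw [← e1, dotProduct_smul, smul_eq_mul] at f1
      have hx0 : v ⬝ᵥ (x : Fin n → F) ≠ 0 := by
        intro hz
        rw [hz, mul_zero] at f0
        exact zero_ne_one f0
      have htt : t = t0 := mul_right_cancel₀ hx0 (f1.trans f0.symm)
      rw [← e0, ← e1, htt]
    have hS : S (u P0) = {P0} := by
      ext P
      rw [Finset.mem_singleton]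
      exact ⟨hall P, fun h => h ▸ hP0S⟩
    apply hP00
    funext i
    have h2 := hcl (u P0) i
    change ∑ P ∈ S (u P0), c P * P i = 0 at h2
    rw [hS, Finset.sum_singleton] at h2
    exact (mul_eq_zero.1 h2).resolve_left (hc P0 hP0)
  refine ⟨(G.image u).image S, ?_, ?_, ?_⟩
  · intro P hP
    exact ⟨S (u P), Finset.mem_image_of_mem S (Finset.mem_image_of_mem u hP),
      Finset.mem_filter.2 ⟨hP, rfl⟩⟩
  · intro T hT
    obtain ⟨w, hw, rfl⟩ := Finset.mem_image.1 hT
    exact hrk w hw
  · rw [Finset.sum_image hinj]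
    have h3 := dim_count G h D u hD hu hh
    have h4 : ∑ w ∈ G.image u, Module.finrank F (Submodule.span F
        ((S w : Finset (Fin n → F)) : Set (Fin n → F))) =
        ∑ w ∈ G.image u, (Module.finrank F (Submodule.span F
          ((S w : Finset (Fin n → F)) : Set (Fin n → F))) - 1) + (G.image u).card := by
      rw [Finset.card_eq_sum_ones, ← Finset.sum_add_distrib]
      refine Finset.sum_congr rfl fun w hw => ?_
      have := hrk w hw
      omega
    change ∑ w ∈ G.image u, Module.finrank F (Submodule.span F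
        ((S w : Finset (Fin n → F)) : Set (Fin n → F))) + 2 ≤ _ at h3
    rw [h4] at h3
    omega

end Pool.Agent.LefRed
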