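import Mathlib

/-!
Large powers are linearly independent: if `D = Z d/dt` and `D F_i = m g_i F_i` with different
`g_i`, then the nonzero ones of the `F_i` are linearly independent over the constants, for all
sufficiently large `m`.
-/

set_option autoImplicit false

namespace Pool.Agent.LefRed

open Polynomial

variable {K : Type*} [Field K]

/-- the derivation `Z d/dt` -/
noncomputable def DZ (Z : K[X]) : K[X] →ₗ[K] K[X] :=
  (LinearMap.mulLeft K Z) ∘ₗ derivative

lemma DZ_apply (Z F : K[X]) : DZ Z F = Z * derivative F := rfl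

lemma pow_Q (Z g : K[X]) (k : ℕ) : ∃ Q : K[X][X], Q.natDegree ≤ k ∧ Q.coeff k = g ^ k ∧
    ∀ (m : ℕ) (F : K[X]), Z * derivative F = (m : K[X]) * g * F →
      ((DZ Z) ^ k) F = Q.eval (m : K[X]) * F := by
  induction k with
  | zero =>
    refine ⟨1, by simp, by simp, fun m F _ => by simp⟩
  | succ k ih =>
    obtain ⟨Q, hdeg, hcoeff, hQ⟩ := ih
    set R : K[X][X] := ∑ i ∈ Finset.range (k + 1), monomial i (Z * derivative (Q.coeff i)) with hR
    have hRdeg : R.natDegree ≤ k := by
      apply natDegree_sum_le_of_forall_le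
      intro i hi
      exact (natDegree_monomial_le _).trans (by rw [Finset.mem_range] at hi; omega)
    have hQe : ∀ x : K[X], Q.eval x = ∑ i ∈ Finset.range (k + 1), Q.coeff i * x ^ i := fun x =>
      eval_eq_sum_range' (by omega) x
    have hRe : ∀ m : ℕ, R.eval (m : K[X]) = Z * derivative (Q.eval (m : K[X])) := by
      intro m
      rw [hR, eval_finsetSum, hQe, derivative_sum, Finset.mul_sum]
      refine Finset.sum_congr rfl fun i _ => ?_
      rw [eval_monomial, derivative_mul, derivative_pow, derivative_natCast]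
      ring
    refine ⟨R + X * (C g * Q), ?_, ?_, ?_⟩
    · refine (natDegree_add_le _ _).trans (max_le (by omega) ?_)
      refine natDegree_mul_le.trans ?_
      have h1 : (C g * Q).natDegree ≤ k := (natDegree_C_mul_le _ _).trans hdeg
      have h2 : (X : K[X][X]).natDegree ≤ 1 := natDegree_X_le
      omega
    · rw [coeff_add, coeff_eq_zero_of_natDegree_lt (lt_of_le_of_lt hRdeg (Nat.lt_succ_self k)),
        coeff_X_mul, coeff_C_mul, hcoeff, zero_add, pow_succ']
    · intro m F hF
      rw [pow_succ', Module.End.mul_apply, hQ m F hF, DZ_apply, derivative_mul, eval_add, hRe,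
        eval_mul, eval_mul, eval_X, eval_C]
      linear_combination (Q.eval (m : K[X])) * hF

theorem pow_indep [CharZero K] {ι : Type*} [Fintype ι] (Z : K[X])
    (g : ι → K[X]) (hg : Function.Injective g) :
    ∃ m₀ : ℕ, ∀ m : ℕ, m₀ ≤ m → ∀ F : ι → K[X],
      (∀ i, Z * derivative (F i) = (m : K[X]) * g i * F i) →
      ∀ a : ι → K, ∑ i, C (a i) * F i = 0 → ∀ i, C (a i) * F i = 0 := by
  classical
  choose Q hQd hQc hQ using fun (i : ι) (k : ℕ) => pow_Q Z (g i) k
  set N := Fintype.card ι with hN
  let e : ι ≃ Fin N := Fintype.equivFin ι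
  let M : Matrix ι ι K[X][X] := fun j i => X ^ (N - 1 - (e j : ℕ)) * Q i (e j : ℕ)
  have hlt : ∀ j, (e j : ℕ) ≤ N - 1 := fun j => by
    have := (e j).isLt
    omega
  have hMdeg : ∀ j i, (M j i).natDegree ≤ N - 1 := by
    intro j i
    refine natDegree_mul_le.trans ?_
    have h1 := hQd i (e j : ℕ)
    have h2 : (X ^ (N - 1 - (e j : ℕ)) : K[X][X]).natDegree ≤ N - 1 - (e j : ℕ) :=
      natDegree_X_pow_le _
    have := hlt j
    omega
  have hMc : ∀ j i, (M j i).coeff (N - 1) = g i ^ (e j : ℕ) := by
    intro j i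
    have h2 := coeff_X_pow_mul (Q i (e j : ℕ)) (N - 1 - (e j : ℕ)) (e j : ℕ)
    rw [show (e j : ℕ) + (N - 1 - (e j : ℕ)) = N - 1 by have := hlt j; omega, hQc] at h2
    exact h2
  have hdet : M.det ≠ 0 := by
    intro h0
    have h1 : M.det.coeff (N * (N - 1)) = (Matrix.of fun j i => g i ^ (e j : ℕ)).det := by
      rw [Matrix.det_apply, Matrix.det_apply, finsetSum_coeff]
      refine Finset.sum_congr rfl fun σ _ => ?_
      rw [coeff_smul]
      congr 1
      have h2 := coeff_prod_of_natDegree_le (s := Finset.univ) (fun i => M (σ i) i) (N - 1)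
        (fun i _ => hMdeg _ _)
      rw [Finset.card_univ, ← hN] at h2
      rw [h2]
      exact Finset.prod_congr rfl fun i _ => hMc _ _
    rw [h0, coeff_zero] at h1
    have h3 : (Matrix.of fun j i => g i ^ (e j : ℕ) : Matrix ι ι K[X]).det =
        (Matrix.vandermonde (fun x : Fin N => g (e.symm x))).det := by
      rw [← Matrix.det_transpose, ← Matrix.det_reindex_self e]
      congr 1
      ext i j
      simp [Matrix.vandermonde]
    rw [h3, eq_comm, Matrix.det_vandermonde_eq_zero_iff] at h1
    obtain ⟨i, j, hij, hne⟩ := h1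
    exact hne (e.symm.injective (hg hij))
  have hfin : {x : K[X] | M.det.eval x = 0}.Finite := by
    refine (M.det.roots.toFinset.finite_toSet).subset ?_
    intro x hx
    rw [Finset.mem_coe, Multiset.mem_toFinset, mem_roots hdet]
    exact hx
  have hfin2 : {m : ℕ | M.det.eval (m : K[X]) = 0}.Finite :=
    hfin.preimage (f := fun m : ℕ => (m : K[X])) (fun a _ b _ h => Nat.cast_injective h)
  obtain ⟨m₀, hm₀⟩ := hfin2.bddAbove
  refine ⟨m₀ + 1, fun m hm F hF a hsum => ?_⟩
  have hdm : M.det.eval (m : K[X]) ≠ 0 := by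
    intro h
    have := hm₀ h
    omega
  have hb : ∀ i, Z * derivative (C (a i) * F i) = (m : K[X]) * g i * (C (a i) * F i) := by
    intro i
    rw [derivative_C_mul]
    linear_combination C (a i) * hF i
  have hmv : (M.map (eval (m : K[X]))).mulVec (fun i => C (a i) * F i) = 0 := by
    funext j
    rw [Matrix.mulVec, dotProduct, Pi.zero_apply]
    have h1 : ∑ i, ((DZ Z) ^ (e j : ℕ)) (C (a i) * F i) = 0 := by
      rw [← map_sum, hsum, map_zero]
    have h2 : ∀ i, (M.map (eval (m : K[X]))) j i * (C (a i) * F i) =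
        (m : K[X]) ^ (N - 1 - (e j : ℕ)) * ((DZ Z) ^ (e j : ℕ)) (C (a i) * F i) := by
      intro i
      rw [hQ i (e j) m _ (hb i), Matrix.map_apply, eval_mul, eval_pow, eval_X]
      ring
    rw [Finset.sum_congr rfl fun i _ => h2 i, ← Finset.mul_sum, h1, mul_zero]
  have hdet' : (M.map (eval (m : K[X]))).det ≠ 0 := by
    have h3 := (evalRingHom (m : K[X])).map_det M
    rw [coe_evalRingHom] at h3
    intro h4
    apply hdm
    rw [h3]
    exact h4
  have := Matrix.eq_zero_of_mulVec_eq_zero hdet' hmv
  intro i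
  exact congrFun this i

end Pool.Agent.LefRed
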