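import Pool.Agent.LefRed.Large1

/-!
Bilinear forms `∑ c_i h_i q_i / (t + x_i) ^ m` on a space of functions on a finite set are
nondegenerate for some `t`, when `m` is large, whatever the nonzero weights `c_i` are.
-/

set_option autoImplicit false

namespace Pool.Agent.LefRed

open Polynomial

variable {K : Type*} [Field K]

lemma X_add_C_mul_derivative (c : K) (N : ℕ) :
    (X + C c) * derivative ((X + C c) ^ N) = (N : K[X]) * (X + C c) ^ N := by
  cases N with
  | zero => simp
  | succ N =>
    rw [derivative_pow, derivative_add, derivative_X, derivative_C, add_zero, mul_one,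
      Nat.add_sub_cancel]
    rw [show (C ((N + 1 : ℕ) : K) : K[X]) = ((N + 1 : ℕ) : K[X]) from by simp]
    ring

lemma Z_derivative {ι : Type*} [Fintype ι] [DecidableEq ι] (x : ι → K) (N : ι → ℕ) :
    (∏ i, (X + C (x i))) * derivative (∏ i, (X + C (x i)) ^ N i) =
      (∑ i, (N i : K[X]) * ∏ j ∈ Finset.univ.erase i, (X + C (x j))) *
        ∏ i, (X + C (x i)) ^ N i := by
  rw [derivative_prod_finset, Finset.mul_sum, Finset.sum_mul]
  refine Finset.sum_congr rfl fun i _ => ?_
  rw [← Finset.mul_prod_erase Finset.univ (fun i => X + C (x i)) (Finset.mem_univ i),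
    ← Finset.mul_prod_erase Finset.univ (fun i => (X + C (x i)) ^ N i) (Finset.mem_univ i)]
  have := X_add_C_mul_derivative (x i) (N i)
  linear_combination (∏ j ∈ Finset.univ.erase i, (X + C (x j))) *
    (∏ j ∈ Finset.univ.erase i, (X + C (x j)) ^ N j) * this

/-- the Gram polynomial is not zero -/
lemma exists_nondeg {ι : Type*} [Fintype ι] (V : Submodule K (ι → K)) :
    ∃ y : ι → K, ∀ h ∈ V, (∀ q ∈ V, ∑ i, y i * (h i * q i) = 0) → h = 0 := by
  classical
  -- the coordinate functionals on `V`
  let f : ι → Module.Dual K V := fun i => (LinearMap.proj i).comp V.subtype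
  obtain ⟨κ, a, ha, hspan, hli⟩ := exists_linearIndependent' K f
  have : Finite κ := Finite.of_injective a ha
  have : Fintype κ := Fintype.ofFinite κ
  let Φ : V →ₗ[K] (κ → K) := LinearMap.pi fun k => f (a k)
  have hΦ : LinearMap.range Φ = ⊤ := by
    by_contra hne
    obtain ⟨φ, hφ, hle⟩ := Submodule.exists_le_ker_of_lt_top _ (lt_top_iff_ne_top.2 hne)
    apply hφ
    have h1 : ∑ k, φ (Pi.single k 1) • (f ∘ a) k = 0 := by
      ext v
      have h2 : φ (Φ v) = 0 := hle ⟨v, rfl⟩
      have h3 : Φ v = ∑ k, (f (a k) v) • (Pi.single k (1 : K) : κ → K) := by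
        funext k
        simp [Φ, Finset.sum_apply, Pi.single_apply]
      rw [h3, map_sum] at h2
      rw [LinearMap.sum_apply, LinearMap.zero_apply, ← h2]
      refine Finset.sum_congr rfl fun k _ => ?_
      rw [LinearMap.smul_apply, map_smul, smul_eq_mul, smul_eq_mul, mul_comm]
      rfl
    have h4 := Fintype.linearIndependent_iff.1 hli _ h1
    apply LinearMap.pi_ext'
    intro k
    apply LinearMap.ext_ring
    simpa using h4 k
  refine ⟨fun i => if i ∈ Set.range a then 1 else 0, fun h hh hq => ?_⟩
  have h5 : ∀ k, h (a k) = 0 := by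
    intro k
    obtain ⟨q, hqk⟩ : ∃ q : V, Φ q = Pi.single k 1 := by
      have : (Pi.single k 1 : κ → K) ∈ LinearMap.range Φ := by rw [hΦ]; trivial
      exact this
    have h6 := hq q.1 q.2
    rw [Finset.sum_eq_single (a k)] at h6
    · have h7 : q.1 (a k) = 1 := by
        have := congrFun hqk k
        simpa [Φ, f] using this
      simpa [h7] using h6
    · intro i _ hi
      by_cases hir : i ∈ Set.range a
      · obtain ⟨k', rfl⟩ := hir
        have h8 : q.1 (a k') = 0 := by
          have := congrFun hqk k'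
          have hk : k' ≠ k := fun h => hi (by rw [h])
          simpa [Φ, f, Pi.single_apply, hk] using this
        simp [h8]
      · simp [hir]
    · intro h; exact absurd (Finset.mem_univ _) h
  funext i
  have h9 : ∀ g ∈ Submodule.span K (Set.range (f ∘ a)), g ⟨h, hh⟩ = 0 := by
    intro g hg
    induction hg using Submodule.span_induction with
    | mem g hg => obtain ⟨k, rfl⟩ := hg; exact h5 k
    | zero => rfl
    | add g g' _ _ h h' => rw [LinearMap.add_apply, h, h', add_zero]
    | smul c g _ h => rw [LinearMap.smul_apply, h, smul_zero]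
  rw [hspan] at h9
  exact h9 (f i) (Submodule.subset_span ⟨i, rfl⟩)

theorem nondeg_abs [CharZero K] {ι : Type*} [Fintype ι] (x : ι → K)
    (hx : Function.Injective x) (V : Submodule K (ι → K)) :
    ∃ m₀ : ℕ, ∀ m : ℕ, m₀ ≤ m → ∀ c : ι → K, (∀ i, c i ≠ 0) →
      ∃ t : K, (∀ i, t + x i ≠ 0) ∧
        ∀ h ∈ V, (∀ q ∈ V, ∑ i, c i * (h i * q i) / (t + x i) ^ m = 0) → h = 0 := by
  classical
  let e := Module.finBasis K V
  set d := Module.finrank K V
  let G : Matrix (Fin d) (Fin d) (MvPolynomial ι K) := fun a b =>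
    ∑ i, MvPolynomial.C ((e a).1 i * (e b).1 i) * MvPolynomial.X i
  have hGe : ∀ y : ι → K, (G.map (MvPolynomial.eval y)).det = MvPolynomial.eval y G.det := by
    intro y
    rw [RingHom.map_det]
    rfl
  have hGnd : ∀ y : ι → K, MvPolynomial.eval y G.det ≠ 0 →
      ∀ h ∈ V, (∀ q ∈ V, ∑ i, y i * (h i * q i) = 0) → h = 0 := by
    intro y hy h hh hq
    rw [← hGe] at hy
    have h1 : (G.map (MvPolynomial.eval y)).mulVec (e.repr ⟨h, hh⟩) = 0 := by
      funext a
      rw [Matrix.mulVec, dotProduct, Pi.zero_apply, ← hq (e a).1 (e a).2]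
      have h2 : h = ∑ b, (e.repr ⟨h, hh⟩) b • (e b).1 := by
        have h10 := congrArg V.subtype (e.sum_repr ⟨h, hh⟩)
        rw [map_sum] at h10
        exact h10.symm
      have h3 : ∀ i, h i = ∑ b, (e.repr ⟨h, hh⟩) b * (e b).1 i := by
        intro i
        conv_lhs => rw [h2]
        simp [Finset.sum_apply]
      have h4 : ∀ b, (G.map (MvPolynomial.eval y)) a b * (e.repr ⟨h, hh⟩) b =
          ∑ i, y i * ((e.repr ⟨h, hh⟩) b * (e b).1 i * (e a).1 i) := by
        intro b
        rw [Matrix.map_apply, map_sum, Finset.sum_mul]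
        refine Finset.sum_congr rfl fun i _ => ?_
        rw [map_mul, MvPolynomial.eval_C, MvPolynomial.eval_X]
        ring
      rw [Finset.sum_congr rfl fun b _ => h4 b, Finset.sum_comm]
      refine Finset.sum_congr rfl fun i _ => ?_
      rw [h3 i, Finset.sum_mul, Finset.mul_sum]
    have h5 := Matrix.eq_zero_of_mulVec_eq_zero hy h1
    have h6 : (⟨h, hh⟩ : V) = 0 := by
      apply e.repr.injective
      rw [map_zero]
      ext b
      exact congrFun h5 b
    exact congrArg Subtype.val h6
  have hG0 : G.det ≠ 0 := by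
    intro h0
    obtain ⟨y, hy⟩ := exists_nondeg V
    have h1 : (G.map (MvPolynomial.eval y)).det = 0 := by rw [hGe, h0, map_zero]
    obtain ⟨w, hw0, hw⟩ := Matrix.exists_mulVec_eq_zero_iff.2 h1
    apply hw0
    set h : V := ∑ b, w b • e b with hh
    have hhi : ∀ i, h.1 i = ∑ b, w b * (e b).1 i := by
      intro i
      rw [hh]
      simp [Finset.sum_apply]
    have h2 : h.1 = 0 := by
      apply hy h.1 h.2
      intro q hq
      have h3 : ∀ i, q i = ∑ a, (e.repr ⟨q, hq⟩) a * (e a).1 i := by
        intro i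
        have h10 := congrArg V.subtype (e.sum_repr ⟨q, hq⟩)
        rw [map_sum] at h10
        have h4 : q = ∑ a, (e.repr ⟨q, hq⟩) a • (e a).1 := h10.symm
        conv_lhs => rw [h4]
        simp [Finset.sum_apply]
      have h5 : ∀ a, ∑ i, y i * (h.1 i * (e a).1 i) = 0 := by
        intro a
        have h6 := congrFun hw a
        rw [Matrix.mulVec, dotProduct, Pi.zero_apply] at h6
        rw [← h6]
        have h4 : ∀ b, (G.map (MvPolynomial.eval y)) a b * w b =
            ∑ i, y i * (w b * (e b).1 i * (e a).1 i) := by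
          intro b
          rw [Matrix.map_apply, map_sum, Finset.sum_mul]
          refine Finset.sum_congr rfl fun i _ => ?_
          rw [map_mul, MvPolynomial.eval_C, MvPolynomial.eval_X]
          ring
        rw [Finset.sum_congr rfl fun b _ => h4 b, Finset.sum_comm]
        refine Finset.sum_congr rfl fun i _ => ?_
        rw [hhi i, Finset.sum_mul, Finset.mul_sum]
      have h7 : ∀ i, y i * (h.1 i * q i) =
          ∑ a, (e.repr ⟨q, hq⟩) a * (y i * (h.1 i * (e a).1 i)) := by
        intro i
        rw [h3 i, Finset.mul_sum, Finset.mul_sum]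
        exact Finset.sum_congr rfl fun a _ => by ring
      rw [Finset.sum_congr rfl fun i _ => h7 i, Finset.sum_comm]
      refine Finset.sum_eq_zero fun a _ => ?_
      rw [← Finset.mul_sum, h5 a, mul_zero]
    have h8 : h = 0 := Subtype.ext h2
    rw [hh] at h8
    funext b
    exact Fintype.linearIndependent_iff.1 e.linearIndependent w h8 b
  -- the exponents
  set A := G.det.totalDegree with hA
  let g : G.det.support → K[X] := fun α =>
    ∑ i, ((A - α.1 i : ℕ) : K[X]) * ∏ j ∈ Finset.univ.erase i, (X + C (x j))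
  have hαA : ∀ α ∈ G.det.support, ∀ i, α i ≤ A := by
    intro α hα i
    refine le_trans ?_ (MvPolynomial.le_totalDegree hα)
    exact Finsupp.le_degree i α
  have hg : Function.Injective g := by
    intro α β hαβ
    apply Subtype.ext
    ext i
    have h1 := congrArg (Polynomial.eval (-x i)) hαβ
    have h2 : ∀ γ : G.det.support, Polynomial.eval (-x i) (g γ) =
        ((A - γ.1 i : ℕ) : K) * ∏ j ∈ Finset.univ.erase i, (-x i + x j) := by
      intro γ
      simp only [g, eval_finsetSum]
      rw [Finset.sum_eq_single i]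
      · rw [eval_mul, eval_natCast, eval_prod]
        simp
      · intro b _ hb
        rw [eval_mul, eval_prod]
        apply mul_eq_zero_of_right
        apply Finset.prod_eq_zero (i := i)
        · exact Finset.mem_erase.2 ⟨hb.symm, Finset.mem_univ _⟩
        · simp
      · intro h; exact absurd (Finset.mem_univ _) h
    rw [h2, h2] at h1
    have h3 : ∏ j ∈ Finset.univ.erase i, (-x i + x j) ≠ 0 := by
      refine Finset.prod_ne_zero_iff.2 fun j hj => ?_
      intro h4
      exact (Finset.mem_erase.1 hj).1 (hx (by linear_combination h4))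
    have h4 : (A - α.1 i : ℕ) = A - β.1 i := by
      exact_mod_cast mul_right_cancel₀ h3 h1
    have h5 := hαA α.1 α.2 i
    have h6 := hαA β.1 β.2 i
    omega
  obtain ⟨m₀, hm₀⟩ := pow_indep (∏ i, (X + C (x i))) g hg
  refine ⟨m₀, fun m hm c hc => ?_⟩
  by_contra hcon
  push Not at hcon
  let F : G.det.support → K[X] := fun α => ∏ i, (X + C (x i)) ^ (m * (A - α.1 i))
  have hF : ∀ α, (∏ i, (X + C (x i))) * derivative (F α) = (m : K[X]) * g α * F α := by
    intro α
    rw [Z_derivative]
    congr 1
    rw [Finset.mul_sum]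
    refine Finset.sum_congr rfl fun i _ => ?_
    push_cast
    ring
  let a : G.det.support → K := fun α => MvPolynomial.coeff α.1 G.det * ∏ i, c i ^ α.1 i
  have hsum : ∑ α, C (a α) * F α = 0 := by
    apply Polynomial.eq_zero_of_infinite_isRoot
    have hinf : Infinite K := CharZero.infinite K
    have hfin : (Set.range fun i => -x i).Finite := Set.finite_range _
    refine hfin.infinite_compl.mono ?_
    intro t ht
    have ht' : ∀ i, t + x i ≠ 0 := by
      intro i h
      apply ht
      exact ⟨i, by linear_combination -h⟩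
    obtain ⟨h, hh, hq, hne⟩ := hcon t ht'
    have h1 : MvPolynomial.eval (fun i => c i / (t + x i) ^ m) G.det = 0 := by
      by_contra h2
      apply hne
      refine hGnd _ h2 h hh fun q hqV => ?_
      rw [← hq q hqV]
      exact Finset.sum_congr rfl fun i _ => by ring
    rw [MvPolynomial.eval_eq'] at h1
    show Polynomial.eval t (∑ α, C (a α) * F α) = 0
    rw [eval_finsetSum]
    have h3 : ∀ α : G.det.support, Polynomial.eval t (C (a α) * F α) =
        (∏ i, (t + x i) ^ (m * A)) * (MvPolynomial.coeff α.1 G.det *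
          ∏ i, (c i / (t + x i) ^ m) ^ α.1 i) := by
      intro α
      rw [eval_mul, eval_C, eval_prod]
      have h4 : ∀ i, Polynomial.eval t ((X + C (x i)) ^ (m * (A - α.1 i))) * c i ^ α.1 i =
          (t + x i) ^ (m * A) * (c i / (t + x i) ^ m) ^ α.1 i := by
        intro i
        have h5 := ht' i
        rw [eval_pow, eval_add, eval_X, eval_C, div_pow, ← pow_mul, mul_div_assoc',
          eq_div_iff (pow_ne_zero _ h5)]
        have h6 : m * A = m * (A - α.1 i) + m * α.1 i := by
          rw [← Nat.mul_add, Nat.sub_add_cancel (hαA α.1 α.2 i)]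
        rw [h6, pow_add]
        ring
      calc a α * ∏ i, Polynomial.eval t ((X + C (x i)) ^ (m * (A - α.1 i)))
          = MvPolynomial.coeff α.1 G.det *
            ∏ i, (Polynomial.eval t ((X + C (x i)) ^ (m * (A - α.1 i))) * c i ^ α.1 i) := by
            rw [Finset.prod_mul_distrib]; ring
        _ = MvPolynomial.coeff α.1 G.det *
            ∏ i, ((t + x i) ^ (m * A) * (c i / (t + x i) ^ m) ^ α.1 i) := by
            rw [Finset.prod_congr rfl fun i _ => h4 i]
        _ = _ := by rw [Finset.prod_mul_distrib]; ring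
    rw [Finset.sum_congr rfl fun α _ => h3 α, ← Finset.mul_sum]
    rw [Finset.sum_coe_sort G.det.support (fun α => MvPolynomial.coeff α G.det *
          ∏ i, (c i / (t + x i) ^ m) ^ α i), h1, mul_zero]
  have hall := hm₀ m hm F hF a hsum
  obtain ⟨α, hα⟩ := MvPolynomial.support_nonempty.2 hG0
  have h1 := hall ⟨α, hα⟩
  have h2 : F ⟨α, hα⟩ ≠ 0 :=
    Finset.prod_ne_zero_iff.2 fun i _ => pow_ne_zero _ (X_add_C_ne_zero _)
  have h3 := (mul_eq_zero.1 h1).resolve_right h2
  rw [C_eq_zero] at h3
  rcases mul_eq_zero.1 h3 with h4 | h4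
  · exact MvPolynomial.mem_support_iff.1 hα h4
  · obtain ⟨i, -, hi⟩ := Finset.prod_eq_zero_iff.1 h4
    exact hc i (eq_zero_of_pow_eq_zero hi)

end Pool.Agent.LefRed
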