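import Pool.Agent.LefRed.Resid

/-!
Forms vanishing at all the points lie in the ideal; evaluation and nonzerodivisor lemmas in a chart
`v = 1` that need not be a factor of the extra generator.
-/

set_option autoImplicit false
set_option linter.unusedSectionVars false

namespace Pool.Agent.LefRed

open MvPolynomial Pool.Agent.LefProd

variable {F : Type*} [Field F] {n : ℕ}

lemma vanish_base {W : Submodule F (Fin n → F)} {v : Fin n → F} (hv : v ∉ W)
    (hdim : Module.finrank F W + 1 = n) {P : Fin n → F} (hP : Pt W v [] P) :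
    ∀ (d : ℕ) (p : MvPolynomial (Fin n) F), p.IsHomogeneous d → eval P p = 0 → p ∈ J W [] := by
  intro d
  induction d with
  | zero =>
    intro p hp h
    obtain ⟨c, rfl⟩ : ∃ c : F, p = C c :=
      ⟨_, (totalDegree_eq_zero_iff_eq_C).1 ((totalDegree_zero_iff_isHomogeneous _).2 hp)⟩
    rw [eval_C] at h
    rw [h, C_0]
    exact Ideal.zero_mem _
  | succ d ih =>
    intro p hp h
    have hfull : Module.finrank F ↥(W ⊔ Submodule.span F {v}) = n := by
      rw [finrank_sup hv]; exact hdim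
    obtain ⟨a, ha, hpa⟩ := sup_hom hp (mem_top_of_pos hp (Nat.succ_ne_zero d) hfull) (by omega)
    have h1 := eval_J hP.2.1 hP.2.2 hpa
    rw [map_sub, map_mul, LefProd.eval_lin, hP.1, one_mul, h, zero_sub, neg_eq_zero] at h1
    have h2 := ih a (by simpa using ha) h1
    have := add_mem (Ideal.mul_mem_left _ (lin v) h2) hpa
    simpa using this

theorem vanish_aux : ∀ (N : ℕ) (𝓛 : List (List (Fin n → F))), len 𝓛 ≤ N → NE 𝓛 →
    ∀ (W : Submodule F (Fin n → F)) (v : Fin n → F), v ∉ W →
    Tr (W ⊔ Submodule.span F {v}) 𝓛 → Module.finrank F W + 𝓛.length + 1 = n → Red W v 𝓛 →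
    ∀ (d : ℕ) (p : MvPolynomial (Fin n) F), p.IsHomogeneous d →
      (∀ P, Pt W v 𝓛 P → eval P p = 0) → p ∈ J W 𝓛 := by
  have hbase : ∀ (W : Submodule F (Fin n → F)) (v : Fin n → F), v ∉ W →
      Module.finrank F W + ([] : List (List (Fin n → F))).length + 1 = n → Red W v [] →
      ∀ (d : ℕ) (p : MvPolynomial (Fin n) F), p.IsHomogeneous d →
      (∀ P, Pt W v [] P → eval P p = 0) → p ∈ J W [] := by
    intro W v hv hdim hred d p hp h
    obtain ⟨G, r, hG, hcard, -⟩ := residue (𝓛 := []) (fun l hl => absurd hl (by simp)) hv trivial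
      hdim hred
    obtain ⟨P, hP⟩ := Finset.card_pos.1 (by rw [hcard]; simp : 0 < G.card)
    have hP' : Pt W v [] P := (hG P).1 hP
    rw [List.length_nil, add_zero] at hdim
    exact vanish_base hv hdim hP' d p hp (h P hP')
  intro N
  induction N with
  | zero =>
    intro 𝓛 hlen hne W v hv htr hdim hred
    cases 𝓛 with
    | nil => exact hbase W v hv hdim hred
    | cons l 𝓛 =>
      exfalso
      rw [len_cons] at hlen
      exact hne l List.mem_cons_self (List.length_eq_zero_iff.1 (by omega))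
  | succ N ih =>
    intro 𝓛 hlen hne W v hv htr hdim hred d p hp hvan
    cases 𝓛 with
    | nil => exact hbase W v hv hdim hred d p hp hvan
    | cons l 𝓛 =>
      cases l with
      | nil => exact absurd rfl (hne [] List.mem_cons_self)
      | cons u g =>
        rw [len_cons, List.length_cons] at hlen
        rw [List.length_cons] at hdim
        obtain ⟨hu, htr'⟩ := htr.head
        have huW : u ∉ W := fun h => hu (Submodule.mem_sup_left h)
        have hvW : v ∉ W ⊔ Submodule.span F {u} := not_mem_exchange hv hu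
        have htr2 : Tr ((W ⊔ Submodule.span F {u}) ⊔ Submodule.span F {v}) 𝓛 := by
          rw [sup_right_comm]; exact htr'
        have htrW : Tr W ((u :: g) :: 𝓛) := Tr.mono le_sup_left htr
        have hpt2 : ∀ P, Pt (W ⊔ Submodule.span F {u}) v 𝓛 P → Pt W v ((u :: g) :: 𝓛) P := by
          rintro P ⟨h1, h2, h3⟩
          have huP : u ⬝ᵥ P = 0 :=
            h2 u (Submodule.mem_sup_right (Submodule.mem_span_singleton_self u))
          refine ⟨h1, fun w hw => h2 w (Submodule.mem_sup_left hw), ?_⟩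
          intro l hl
          rcases List.mem_cons.1 hl with rfl | hl
          · exact ⟨u, List.mem_cons_self, huP⟩
          · exact h3 l hl
        have hred2 : Red (W ⊔ Submodule.span F {u}) v 𝓛 := by
          intro P h1 h2 h3 l hl
          obtain ⟨k1, k2, k3⟩ := hpt2 P ⟨h1, h2, h3⟩
          exact hred P k1 k2 k3 l (List.mem_cons_of_mem _ hl)
        have hmem2 : p ∈ J (W ⊔ Submodule.span F {u}) 𝓛 :=
          ih 𝓛 (by omega) hne.tail _ v hvW htr2 (by rw [finrank_sup huW]; omega) hred2 d p hp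
            (fun P hP => hvan P (hpt2 P hP))
        by_cases hg : g = []
        · subst hg
          rw [J_singleton_cons]
          exact hmem2
        · have hgl : 1 ≤ g.length := List.length_pos_iff.2 hg
          have hne1 : NE (g :: 𝓛) := by
            intro l hl
            rcases List.mem_cons.1 hl with rfl | hl
            · exact hg
            · exact hne.tail l hl
          have hpt1 : ∀ P, Pt W v (g :: 𝓛) P →
              (Pt W v ((u :: g) :: 𝓛) P ∧ u ⬝ᵥ P ≠ 0) := by
            rintro P ⟨h1, h2, h3⟩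
            have hP : Pt W v ((u :: g) :: 𝓛) P := by
              refine ⟨h1, h2, ?_⟩
              intro l hl
              rcases List.mem_cons.1 hl with rfl | hl
              · obtain ⟨u', hu', huP⟩ := h3 g List.mem_cons_self
                exact ⟨u', List.mem_cons_of_mem _ hu', huP⟩
              · exact h3 l (List.mem_cons_of_mem _ hl)
            refine ⟨hP, fun huP => ?_⟩
            obtain ⟨u', hu', huP'⟩ := h3 g List.mem_cons_self
            have := hred P hP.1 hP.2.1 hP.2.2 (u :: g) List.mem_cons_self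
            exact (List.pairwise_cons.1 this).1 u' hu' huP huP'
          have hred1 : Red W v (g :: 𝓛) := by
            intro P h1 h2 h3 l hl
            obtain ⟨⟨k1, k2, k3⟩, _⟩ := hpt1 P ⟨h1, h2, h3⟩
            rcases List.mem_cons.1 hl with rfl | hl
            · exact (List.pairwise_cons.1 (hred P k1 k2 k3 (u :: l) List.mem_cons_self)).2
            · exact hred P k1 k2 k3 l (List.mem_cons_of_mem _ hl)
          rcases Nat.eq_zero_or_pos d with rfl | hd
          · exact J_mono_cons (sup_hom_zero hp hmem2)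
          · obtain ⟨a, ha, hpa⟩ := sup_hom hp hmem2 hd
            have h1 : a ∈ J W (g :: 𝓛) := by
              refine ih (g :: 𝓛) (by rw [len_cons]; omega) hne1 W v hv htr.tail_list
                (by rw [List.length_cons]; omega) hred1 _ a ha ?_
              intro P hP
              obtain ⟨hP', huP⟩ := hpt1 P hP
              have h2 := eval_J hP'.2.1 (fun l hl => hP'.2.2 l (List.mem_cons_of_mem _ hl)) hpa
              rw [map_sub, map_mul, LefProd.eval_lin, hvan P hP', zero_sub, neg_eq_zero] at h2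
              exact (mul_eq_zero.1 h2).resolve_left huP
            have h3 := (colon_lin hne.tail htrW).2 h1
            have := add_mem h3 (J_mono_cons hpa)
            simpa using this

/-- A form vanishing at all the points of a reduced complete intersection of products of linear
forms lies in its ideal. -/
theorem vanish {W : Submodule F (Fin n → F)} {v : Fin n → F} {𝓛 : List (List (Fin n → F))}
    (hne : NE 𝓛) (hv : v ∉ W) (htr : Tr (W ⊔ Submodule.span F {v}) 𝓛)
    (hdim : Module.finrank F W + 𝓛.length + 1 = n) (hred : Red W v 𝓛)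
    (G : Finset (Fin n → F))
    (hG : ∀ P, P ∈ G ↔ (v ⬝ᵥ P = 1 ∧ (∀ w ∈ W, w ⬝ᵥ P = 0) ∧ ∀ l ∈ 𝓛, ∃ u ∈ l, u ⬝ᵥ P = 0))
    {d : ℕ} {p : MvPolynomial (Fin n) F} (hp : p.IsHomogeneous d)
    (h : ∀ P ∈ G, eval P p = 0) : p ∈ J W 𝓛 :=
  vanish_aux _ 𝓛 le_rfl hne W v hv htr hdim hred d p hp (fun P hP => h P ((hG P).2 hP))

section chart

variable {W : Submodule F (Fin n → F)} {v : Fin n → F} {𝓛 : List (List (Fin n → F))}
  (hne : NE 𝓛) (hv : v ∉ W) (htr : Tr (W ⊔ Submodule.span F {v}) 𝓛)
  (hdim : Module.finrank F W + 𝓛.length + 1 = n) (G : Finset (Fin n → F))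
  (hG : ∀ P, P ∈ G ↔ (v ⬝ᵥ P = 1 ∧ (∀ w ∈ W, w ⬝ᵥ P = 0) ∧ ∀ l ∈ 𝓛, ∃ u ∈ l, u ⬝ᵥ P = 0))

include hG in
lemma eval_mem' {P : Fin n → F} (hP : P ∈ G) {f : MvPolynomial (Fin n) F} (hf : f ∈ J W 𝓛) :
    eval P f = 0 :=
  eval_J ((hG P).1 hP).2.1 ((hG P).1 hP).2.2 hf

include hG in
/-- the extra generator does not vanish at the points -/
lemma eval_pr_ne' {l : List (Fin n → F)} (hci : CI W (l :: 𝓛)) {P : Fin n → F} (hP : P ∈ G) :
    eval P (pr l) ≠ 0 := by
  intro h
  have h1 := (hG P).1 hP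
  have h2 : P = 0 := by
    refine zero_of_chart (l :: 𝓛) W hci.2.1 hci.2.2 P h1.2.1 ?_
    intro l' hl'
    rcases List.mem_cons.1 hl' with rfl | hl'
    · exact eval_pr_eq_zero.1 h
    · exact h1.2.2 l' hl'
  rw [h2, dotProduct_zero] at h1
  exact zero_ne_one h1.1

include hv htr hdim hG in
/-- a common zero of `W`, `𝓛` and of a linear form without zeros on `G` vanishes -/
lemma no_zero' {m : Fin n → F} (hm : ∀ P ∈ G, m ⬝ᵥ P ≠ 0) {P : Fin n → F}
    (hW : ∀ w ∈ W, w ⬝ᵥ P = 0) (hmP : m ⬝ᵥ P = 0)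
    (hP : ∀ l ∈ 𝓛, ∃ u ∈ l, u ⬝ᵥ P = 0) : P = 0 := by
  by_contra hP0
  have hvP : v ⬝ᵥ P ≠ 0 := by
    intro hvP
    refine hP0 (zero_of_chart 𝓛 _ htr ?_ P (dot_sup hW hvP) hP)
    rw [finrank_sup hv]; omega
  refine hm ((v ⬝ᵥ P)⁻¹ • P) ((hG _).2 ⟨?_, ?_, ?_⟩) ?_
  · rw [dotProduct_smul, smul_eq_mul, inv_mul_cancel₀ hvP]
  · intro w hw; rw [dotProduct_smul, hW w hw, smul_zero]
  · intro l' hl'
    obtain ⟨u, hu, huP⟩ := hP l' hl'
    exact ⟨u, hu, by rw [dotProduct_smul, huP, smul_zero]⟩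
  · rw [dotProduct_smul, hmP, smul_zero]

include hne hv htr hdim hG in
lemma tr_of_ne' (hGne : G.Nonempty) {m : Fin n → F} (hm : ∀ P ∈ G, m ⬝ᵥ P ≠ 0) :
    m ∉ W ∧ Tr (W ⊔ Submodule.span F {m}) 𝓛 := by
  have hmW : m ∉ W := by
    intro h
    obtain ⟨P, hP⟩ := hGne
    exact hm P hP (((hG P).1 hP).2.1 m h)
  refine ⟨hmW, tr_of_no_zero 𝓛 _ hne (by rw [finrank_sup hmW]; omega) ?_⟩
  intro P h1 h2
  exact no_zero' hv htr hdim G hG hm (fun w hw => h1 w (Submodule.mem_sup_left hw))
    (h1 m (Submodule.mem_sup_right (Submodule.mem_span_singleton_self m))) h2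

include hne hv htr hdim hG in
/-- a linear form without zeros on `G` is a nonzerodivisor modulo `J W 𝓛` -/
lemma nzd_of_ne' (hGne : G.Nonempty) {m : Fin n → F} (hm : ∀ P ∈ G, m ⬝ᵥ P ≠ 0)
    {p : MvPolynomial (Fin n) F} (hp : lin m * p ∈ J W 𝓛) : p ∈ J W 𝓛 := by
  obtain ⟨h1, h2⟩ := tr_of_ne' hne hv htr hdim G hG hGne hm
  exact nzd hne h1 h2 hp

include hne hv htr hdim hG in
lemma nzd_pow_of_ne' (hGne : G.Nonempty) {m : Fin n → F} (hm : ∀ P ∈ G, m ⬝ᵥ P ≠ 0) (k : ℕ)
    {p : MvPolynomial (Fin n) F} (hp : lin m ^ k * p ∈ J W 𝓛) : p ∈ J W 𝓛 := by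
  induction k with
  | zero => simpa using hp
  | succ k ih =>
    apply ih
    apply nzd_of_ne' hne hv htr hdim G hG hGne hm
    rw [← mul_assoc, ← pow_succ']
    exact hp

end chart

end Pool.Agent.LefRed
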