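import Pool.Agent.LefRed.Pow2
import Pool.Agent.LefRed.Large2
import Pool.Agent.LefRed.Large3

/-!
The strong Lefschetz property when one generator has large degree compared with the others, whose
points are reduced.
-/

set_option autoImplicit false
set_option linter.unusedSectionVars false

namespace Pool.Agent.LefRed

open MvPolynomial Pool.Agent.LefProd

universe u

variable {F : Type u} [Field F] {n : ℕ}

/-- values of the forms of degree `i` -/
noncomputable def evG (G : Finset (Fin n → F)) : MvPolynomial (Fin n) F →ₗ[F] (G → F) :=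
  LinearMap.pi fun P => (aeval P.1 : MvPolynomial (Fin n) F →ₐ[F] F).toLinearMap

lemma evG_apply (G : Finset (Fin n → F)) (p : MvPolynomial (Fin n) F) (P : G) :
    evG G p P = eval P.1 p := rfl

lemma exists_separating [CharZero F] (G : Finset (Fin n → F)) :
    ∃ a : Fin n → F, ∀ P ∈ G, ∀ Q ∈ G, a ⬝ᵥ P = a ⬝ᵥ Q → P = Q := by
  classical
  have hE : (∏ PQ ∈ (G ×ˢ G).filter fun PQ => PQ.1 ≠ PQ.2, lin (PQ.1 - PQ.2) :
      MvPolynomial (Fin n) F) ≠ 0 :=
    Finset.prod_ne_zero_iff.2 fun PQ hPQ =>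
      lin_ne_zero (sub_ne_zero.2 (Finset.mem_filter.1 hPQ).2)
  obtain ⟨a, ha⟩ := exists_eval_ne hE
  rw [map_prod, Finset.prod_ne_zero_iff] at ha
  refine ⟨a, fun P hP Q hQ h => ?_⟩
  by_contra hne
  apply ha (P, Q) (Finset.mem_filter.2 ⟨Finset.mem_product.2 ⟨hP, hQ⟩, hne⟩)
  rw [LefRed.eval_lin, sub_dotProduct, dotProduct_comm P a, dotProduct_comm Q a, h, sub_self]

/-- The strong Lefschetz property when the first list is long. -/
theorem SLP_large [CharZero F] {𝓛 : List (List (Fin n → F))} {v : Fin n → F} (hne : NE 𝓛)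
    (hv : v ∉ (⊥ : Submodule F (Fin n → F))) (htr : Tr (⊥ ⊔ Submodule.span F {v}) 𝓛)
    (hdim : Module.finrank F (⊥ : Submodule F (Fin n → F)) + 𝓛.length + 1 = n)
    (hred : Red ⊥ v 𝓛) :
    ∃ a₀ : ℕ, ∀ l : List (Fin n → F), CI ⊥ (l :: 𝓛) → a₀ ≤ l.length →
      ∀ m j, 2 * j + m ≤ sg (l :: 𝓛) → EX (J ⊥ (l :: 𝓛)) m j := by
  classical
  obtain ⟨G, r, hG, hcard, hr0, -, hr⟩ := residue hne hv htr hdim hred
  obtain ⟨a, ha⟩ := exists_separating G
  have hvP : ∀ P ∈ G, v ⬝ᵥ P = 1 := fun P hP => ((hG P).1 hP).1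
  have hx : Function.Injective (fun P : G => a ⬝ᵥ P.1) := fun P Q h =>
    Subtype.ext (ha P.1 P.2 Q.1 Q.2 h)
  choose m₀ hm₀ using fun i : ℕ =>
    nondeg_abs (fun P : G => a ⬝ᵥ P.1) hx ((homogeneousSubmodule (Fin n) F i).map (evG G))
  refine ⟨(Finset.range (sg 𝓛)).sup m₀ + sg 𝓛, fun l hci hl m j hmj => ?_⟩
  have hle : J ⊥ 𝓛 ≤ J ⊥ (l :: 𝓛) := by
    rw [J_cons]; exact le_sup_right
  have hl1 : 1 ≤ l.length := List.length_pos_iff.2 (hci.1 l List.mem_cons_self)
  have hmj' := hmj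
  rw [sg_cons] at hmj'
  have hmh : ∀ (μ : Fin n → F) (p : MvPolynomial (Fin n) F), p.IsHomogeneous j →
      (lin μ ^ m * p).IsHomogeneous (j + m) := fun μ p hp => lin_pow_mul_hom hp
  rcases Nat.lt_or_ge (j + m) l.length with hlt | hge
  · refine ⟨v, fun p hp hmp => ?_⟩
    have h1 := cons_hom_lt (hmh v p hp) hmp hlt
    have h2 : ∀ k : ℕ, lin v ^ k * p ∈ J ⊥ 𝓛 → p ∈ J ⊥ 𝓛 := by
      intro k
      induction k with
      | zero => intro h; simpa using h
      | succ k ih =>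
        intro h
        apply ih
        apply nzd hne hv htr
        rw [← mul_assoc, ← pow_succ']
        exact h
    exact hle (h2 m h1)
  · have hf0 : ∀ P ∈ G, eval P (pr l) ≠ 0 := by
      intro P hP h
      obtain ⟨u, hu, huP⟩ := eval_pr_eq_zero.1 h
      have h1 := (hG P).1 hP
      have h2 : P = 0 := ker_zero (CI_sup_mem hci hu) (dot_sup h1.2.1 huP) h1.2.2
      rw [h2, dotProduct_zero] at h1
      exact zero_ne_one h1.1
    set i : ℕ := j + m - l.length with hi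
    have his : i < sg 𝓛 := by omega
    have hm₀i : m₀ i ≤ (Finset.range (sg 𝓛)).sup m₀ :=
      Finset.le_sup (Finset.mem_range.2 his)
    obtain ⟨t, ht, hnd⟩ := hm₀ i (2 * i + l.length + 1 - sg 𝓛) (by omega)
      (fun P => r P.1 * eval P.1 (pr l)) (fun P => mul_ne_zero (hr0 P.1 P.2) (hf0 P.1 P.2))
    have hμP : ∀ P ∈ G, (a + t • v) ⬝ᵥ P = t + a ⬝ᵥ P := by
      intro P hP
      rw [add_dotProduct, smul_dotProduct, hvP P hP, smul_eq_mul, mul_one, add_comm]
    refine ⟨a + t • v, fun p hp hmp => ?_⟩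
    obtain ⟨h, hh, hmem⟩ := cons_hom (hmh _ p hp) hmp hge
    have hpP : ∀ P ∈ G, (t + a ⬝ᵥ P) ^ m * eval P p = eval P (pr l) * eval P h := by
      intro P hP
      have h1 := eval_J ((hG P).1 hP).2.1 ((hG P).1 hP).2.2 hmem
      rw [map_sub, map_mul, map_mul, map_pow, LefProd.eval_lin, hμP P hP, sub_eq_zero] at h1
      exact h1
    have hz := hnd (evG G h) ⟨h, hh, rfl⟩ (by
      rintro _ ⟨q, hq, rfl⟩
      have hqh : (p * lin (a + t • v) ^ (sg 𝓛 - 1 - j - i) * q).IsHomogeneous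
          (j + (sg 𝓛 - 1 - j - i) + i) :=
        (hp.mul (lin_pow_hom _ _)).mul hq
      have h1 := hr _ _ (by omega) hqh
      rw [← h1, ← Finset.sum_coe_sort G]
      refine Finset.sum_congr rfl fun P _ => ?_
      rw [evG_apply, evG_apply, map_mul, map_mul, map_pow, LefProd.eval_lin, hμP P.1 P.2]
      have h2 := ht P
      have h3 := hpP P.1 P.2
      have h4 : (t + a ⬝ᵥ P.1) ^ (2 * i + l.length + 1 - sg 𝓛) ≠ 0 := pow_ne_zero _ h2
      rw [div_eq_iff h4]
      have h5 : (t + a ⬝ᵥ P.1) ^ m = (t + a ⬝ᵥ P.1) ^ (sg 𝓛 - 1 - j - i) *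
          (t + a ⬝ᵥ P.1) ^ (2 * i + l.length + 1 - sg 𝓛) := by
        rw [← pow_add]
        congr 1
        omega
      rw [h5] at h3
      linear_combination (-(r P.1) * eval P.1 q) * h3)
    apply hle
    refine vanish hne hv htr hdim hred G hG hp fun P hPG => ?_
    have h1 := hpP P hPG
    have h2 := congrFun hz ⟨P, hPG⟩
    rw [evG_apply, Pi.zero_apply] at h2
    rw [h2, mul_zero] at h1
    exact (mul_eq_zero.1 h1).resolve_left (pow_ne_zero _ (ht ⟨P, hPG⟩))

end Pool.Agent.LefRed
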