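import Pool.Agent.LefRed.Large2

/-!
An explicit bound: the products `∏ (t + x_p) ^ (m β_p)`, for `N` different `β`, are linearly
independent if `m > N ^ 2 * (number of points)`.
-/

set_option autoImplicit false
set_option linter.unusedSectionVars false

namespace Pool.Agent.LefRed

open Polynomial

variable {K : Type*} [Field K]

/-- `D ^ k F = q_k F` if `D F = h F` -/
noncomputable def qk (Z h : K[X]) : ℕ → K[X]
  | 0 => 1
  | k + 1 => Z * derivative (qk Z h k) + h * qk Z h k

lemma qk_spec {Z h F : K[X]} (hF : Z * derivative F = h * F) (k : ℕ) :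
    ((DZ Z) ^ k) F = qk Z h k * F := by
  induction k with
  | zero => simp [qk]
  | succ k ih =>
    rw [pow_succ', Module.End.mul_apply, ih, DZ_apply, derivative_mul, qk]
    linear_combination (qk Z h k) * hF

lemma qk_natDegree {Z h : K[X]} {γ : ℕ} (hZ : Z.natDegree ≤ γ) (hh : h.natDegree ≤ γ) (k : ℕ) :
    (qk Z h k).natDegree ≤ k * γ := by
  induction k with
  | zero => simp [qk]
  | succ k ih =>
    rw [qk]
    refine (natDegree_add_le _ _).trans (max_le ?_ ?_)
    · refine natDegree_mul_le.trans ?_
      have := natDegree_derivative_le (qk Z h k)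
      have h1 : (k + 1) * γ = k * γ + γ := by ring
      omega
    · refine natDegree_mul_le.trans ?_
      have h1 : (k + 1) * γ = k * γ + γ := by ring
      omega

lemma natDegree_det_le {N d : ℕ} (A : Matrix (Fin N) (Fin N) K[X])
    (h : ∀ i j, (A i j).natDegree ≤ d) : A.det.natDegree ≤ N * d := by
  rw [Matrix.det_apply]
  apply natDegree_sum_le_of_forall_le
  intro σ _
  refine (natDegree_smul_le _ _).trans ?_
  refine (natDegree_prod_le _ _).trans ?_
  refine (Finset.sum_le_card_nsmul _ _ d fun i _ => h _ _).trans ?_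
  simp

lemma coeff_X_mul_derivative' (z : K[X]) (n : ℕ) :
    (X * derivative z).coeff n = n * z.coeff n := by
  cases n with
  | zero => simp
  | succ n => rw [coeff_X_mul, coeff_derivative]; push_cast; ring

lemma natDegree_X_mul_derivative (z : K[X]) : (X * derivative z).natDegree ≤ z.natDegree := by
  rw [natDegree_le_iff_coeff_eq_zero]
  intro N hN
  rw [coeff_X_mul_derivative', coeff_eq_zero_of_natDegree_lt hN, mul_zero]

lemma const_of_wr [CharZero K] {u w : K[X]} (hw : w ≠ 0)
    (h : w * derivative u = u * derivative w) : ∃ c : K, u = C c * w := by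
  -- equal degrees of solutions
  have key : ∀ z : K[X], z ≠ 0 → w * derivative z = z * derivative w →
      z.natDegree = w.natDegree := by
    intro z hz hzw
    have h0 : w * (X * derivative z) = z * (X * derivative w) := by
      linear_combination X * hzw
    have h1 := congrArg (fun p => coeff p (w.natDegree + z.natDegree)) h0
    have h2 : (w * (X * derivative z)).coeff (w.natDegree + z.natDegree) =
        w.coeff w.natDegree * (X * derivative z).coeff z.natDegree :=
      coeff_mul_add_eq_of_natDegree_le le_rfl (natDegree_X_mul_derivative z)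
    have h3 : (z * (X * derivative w)).coeff (w.natDegree + z.natDegree) =
        z.coeff z.natDegree * (X * derivative w).coeff w.natDegree := by
      rw [add_comm]
      exact coeff_mul_add_eq_of_natDegree_le le_rfl (natDegree_X_mul_derivative w)
    simp only [h2, h3, coeff_X_mul_derivative'] at h1
    have h4 : w.coeff w.natDegree ≠ 0 := leadingCoeff_ne_zero.2 hw
    have h5 : z.coeff z.natDegree ≠ 0 := leadingCoeff_ne_zero.2 hz
    have h6 : (z.natDegree : K) * (w.coeff w.natDegree * z.coeff z.natDegree) =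
        (w.natDegree : K) * (w.coeff w.natDegree * z.coeff z.natDegree) := by
      linear_combination h1
    exact_mod_cast mul_right_cancel₀ (mul_ne_zero h4 h5) h6
  have h4 : w.coeff w.natDegree ≠ 0 := leadingCoeff_ne_zero.2 hw
  refine ⟨u.coeff w.natDegree / w.coeff w.natDegree, ?_⟩
  by_contra hne
  have hz : u - C (u.coeff w.natDegree / w.coeff w.natDegree) * w ≠ 0 := sub_ne_zero.2 hne
  have h5 := key _ hz (by
    rw [derivative_sub, derivative_C_mul]
    linear_combination h)
  have h6 : (u - C (u.coeff w.natDegree / w.coeff w.natDegree) * w).coeff w.natDegree = 0 := by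
    rw [coeff_sub, coeff_C_mul, div_mul_cancel₀ _ h4, sub_self]
  apply hz
  rw [← leadingCoeff_eq_zero, leadingCoeff, h5, h6]

/-- the Gram determinant as a polynomial -/
theorem gram_poly {ι : Type*} [Fintype ι] (V : Submodule K (ι → K)) :
    ∃ G : MvPolynomial ι K, G.totalDegree ≤ Fintype.card ι ∧
      G ≠ 0 ∧ ∀ y : ι → K, MvPolynomial.eval y G ≠ 0 →
        ∀ h ∈ V, (∀ q ∈ V, ∑ i, y i * (h i * q i) = 0) → h = 0 := by
  classical
  let e := Module.finBasis K V
  set d := Module.finrank K V with hd
  let G : Matrix (Fin d) (Fin d) (MvPolynomial ι K) := fun a b =>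
    ∑ i, MvPolynomial.C ((e a).1 i * (e b).1 i) * MvPolynomial.X i
  have hGe : ∀ y : ι → K, (G.map (MvPolynomial.eval y)).det = MvPolynomial.eval y G.det := by
    intro y
    rw [RingHom.map_det]
    rfl
  have hGnd : ∀ y : ι → K, MvPolynomial.eval y G.det ≠ 0 →
      ∀ h ∈ V, (∀ q ∈ V, ∑ i, y i * (h i * q i) = 0) → h = 0 := by
    intro y hy h hh hq
    rw [← hGe] at hy
    have h1 : (G.map (MvPolynomial.eval y)).mulVec (e.repr ⟨h, hh⟩) = 0 := by
      funext a
      rw [Matrix.mulVec, dotProduct, Pi.zero_apply, ← hq (e a).1 (e a).2]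
      have h2 : h = ∑ b, (e.repr ⟨h, hh⟩) b • (e b).1 := by
        have h10 := congrArg V.subtype (e.sum_repr ⟨h, hh⟩)
        rw [map_sum] at h10
        exact h10.symm
      have h3 : ∀ i, h i = ∑ b, (e.repr ⟨h, hh⟩) b * (e b).1 i := by
        intro i
        conv_lhs => rw [h2]
        simp [Finset.sum_apply]
      have h4 : ∀ b, (G.map (MvPolynomial.eval y)) a b * (e.repr ⟨h, hh⟩) b =
          ∑ i, y i * ((e.repr ⟨h, hh⟩) b * (e b).1 i * (e a).1 i) := by
        intro b
        rw [Matrix.map_apply, map_sum, Finset.sum_mul]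
        refine Finset.sum_congr rfl fun i _ => ?_
        rw [map_mul, MvPolynomial.eval_C, MvPolynomial.eval_X]
        ring
      rw [Finset.sum_congr rfl fun b _ => h4 b, Finset.sum_comm]
      refine Finset.sum_congr rfl fun i _ => ?_
      rw [h3 i, Finset.sum_mul, Finset.mul_sum]
    have h5 := Matrix.eq_zero_of_mulVec_eq_zero hy h1
    have h6 : (⟨h, hh⟩ : V) = 0 := by
      apply e.repr.injective
      rw [map_zero]
      ext b
      exact congrFun h5 b
    exact congrArg Subtype.val h6
  have hG0 : G.det ≠ 0 := by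
    intro h0
    obtain ⟨y, hy⟩ := exists_nondeg V
    have h1 : (G.map (MvPolynomial.eval y)).det = 0 := by rw [hGe, h0, map_zero]
    obtain ⟨w, hw0, hw⟩ := Matrix.exists_mulVec_eq_zero_iff.2 h1
    apply hw0
    set h : V := ∑ b, w b • e b with hh
    have hhi : ∀ i, h.1 i = ∑ b, w b * (e b).1 i := by
      intro i
      rw [hh]
      simp [Finset.sum_apply]
    have h2 : h.1 = 0 := by
      apply hy h.1 h.2
      intro q hq
      have h3 : ∀ i, q i = ∑ a, (e.repr ⟨q, hq⟩) a * (e a).1 i := by
        intro i
        have h10 := congrArg V.subtype (e.sum_repr ⟨q, hq⟩)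
        rw [map_sum] at h10
        have h4 : q = ∑ a, (e.repr ⟨q, hq⟩) a • (e a).1 := h10.symm
        conv_lhs => rw [h4]
        simp [Finset.sum_apply]
      have h5 : ∀ a, ∑ i, y i * (h.1 i * (e a).1 i) = 0 := by
        intro a
        have h6 := congrFun hw a
        rw [Matrix.mulVec, dotProduct, Pi.zero_apply] at h6
        rw [← h6]
        have h4 : ∀ b, (G.map (MvPolynomial.eval y)) a b * w b =
            ∑ i, y i * (w b * (e b).1 i * (e a).1 i) := by
          intro b
          rw [Matrix.map_apply, map_sum, Finset.sum_mul]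
          refine Finset.sum_congr rfl fun i _ => ?_
          rw [map_mul, MvPolynomial.eval_C, MvPolynomial.eval_X]
          ring
        rw [Finset.sum_congr rfl fun b _ => h4 b, Finset.sum_comm]
        refine Finset.sum_congr rfl fun i _ => ?_
        rw [hhi i, Finset.sum_mul, Finset.mul_sum]
      have h7 : ∀ i, y i * (h.1 i * q i) =
          ∑ a, (e.repr ⟨q, hq⟩) a * (y i * (h.1 i * (e a).1 i)) := by
        intro i
        rw [h3 i, Finset.mul_sum, Finset.mul_sum]
        exact Finset.sum_congr rfl fun a _ => by ring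
      rw [Finset.sum_congr rfl fun i _ => h7 i, Finset.sum_comm]
      refine Finset.sum_eq_zero fun a _ => ?_
      rw [← Finset.mul_sum, h5 a, mul_zero]
    have h8 : h = 0 := Subtype.ext h2
    rw [hh] at h8
    funext b
    exact Fintype.linearIndependent_iff.1 e.linearIndependent w h8 b
  refine ⟨G.det, ?_, hG0, hGnd⟩
  have hent : ∀ a b, (G a b).totalDegree ≤ 1 := by
    intro a b
    refine (MvPolynomial.totalDegree_finsetSum _ _).trans (Finset.sup_le fun i _ => ?_)
    refine (MvPolynomial.totalDegree_mul _ _).trans ?_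
    rw [MvPolynomial.totalDegree_C, MvPolynomial.totalDegree_X]
  have hdet : G.det.totalDegree ≤ d := by
    rw [Matrix.det_apply]
    refine (MvPolynomial.totalDegree_finsetSum _ _).trans (Finset.sup_le fun σ _ => ?_)
    refine (MvPolynomial.totalDegree_smul_le _ _).trans ?_
    refine (MvPolynomial.totalDegree_finsetProd _ _).trans ?_
    refine (Finset.sum_le_card_nsmul _ _ 1 fun i _ => hent _ _).trans ?_
    simp
  refine hdet.trans ?_
  have h1 := Submodule.finrank_le V
  rwa [Module.finrank_pi] at h1

section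

variable {P : Type*} [Fintype P] [DecidableEq P]

/-- the product of all `t + x_p` -/
noncomputable def ZZ (x : P → K) : K[X] := ∏ i, (X + C (x i))

/-- the logarithmic derivative of `∏ (t + x_p) ^ N_p`, times the product of all `t + x_p` -/
noncomputable def hh (x : P → K) (N : P → ℕ) : K[X] :=
  ∑ i, (N i : K[X]) * ∏ j ∈ Finset.univ.erase i, (X + C (x j))

/-- `∏ (t + x_p) ^ N_p` -/
noncomputable def FF (x : P → K) (N : P → ℕ) : K[X] := ∏ i, (X + C (x i)) ^ N i

lemma FF_derivative (x : P → K) (N : P → ℕ) :
    ZZ x * derivative (FF x N) = hh x N * FF x N := Z_derivative x N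

lemma ZZ_natDegree (x : P → K) : (ZZ x).natDegree ≤ Fintype.card P := by
  refine (natDegree_prod_le _ _).trans ?_
  refine (Finset.sum_le_card_nsmul _ _ 1 fun i _ => ?_).trans ?_
  · exact (natDegree_X_add_C _).le
  · simp

lemma hh_natDegree (x : P → K) (N : P → ℕ) : (hh x N).natDegree ≤ Fintype.card P := by
  apply natDegree_sum_le_of_forall_le
  intro i _
  refine natDegree_mul_le.trans ?_
  have h1 : ((N i : K[X])).natDegree = 0 := natDegree_natCast _
  have h2 : (∏ j ∈ Finset.univ.erase i, (X + C (x j))).natDegree ≤ Fintype.card P := by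
    refine (natDegree_prod_le _ _).trans ?_
    refine (Finset.sum_le_card_nsmul _ _ 1 fun i _ => ?_).trans ?_
    · exact (natDegree_X_add_C _).le
    · simp
  omega

lemma FF_ne_zero (x : P → K) (N : P → ℕ) : FF x N ≠ 0 :=
  Finset.prod_ne_zero_iff.2 fun _ _ => pow_ne_zero _ (X_add_C_ne_zero _)

/-- extra zeros at `-x_p` -/
lemma pow_dvd_of {x : P → K} (hx : Function.Injective x) {m : ℕ} {β β' : P → ℕ} {p : P}
    (hp : β p < β' p) {A B : K[X]}
    (h : FF x (fun i => m * β' i) * A = FF x (fun i => m * β i) * B) :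
    (X + C (x p)) ^ m ∣ B := by
  have h1 : (X + C (x p)) ^ (m * β' p) ∣ FF x (fun i => m * β' i) := by
    rw [FF, ← Finset.mul_prod_erase Finset.univ _ (Finset.mem_univ p)]
    exact dvd_mul_right _ _
  have h2 : (X + C (x p)) ^ (m * β' p) ∣ FF x (fun i => m * β i) * B := by
    rw [← h]
    exact h1.mul_right A
  rw [FF, ← Finset.mul_prod_erase Finset.univ _ (Finset.mem_univ p), mul_assoc] at h2
  have h3 : (X + C (x p)) ^ (m * β' p) =
      (X + C (x p)) ^ (m * β p) * (X + C (x p)) ^ (m * (β' p - β p)) := by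
    rw [← pow_add, ← Nat.mul_add]
    congr 2
    omega
  rw [h3] at h2
  have h4 := (mul_dvd_mul_iff_left (pow_ne_zero _ (X_add_C_ne_zero (x p)))).1 h2
  have h5 : IsCoprime ((X + C (x p)) ^ (m * (β' p - β p)))
      (∏ j ∈ Finset.univ.erase p, (X + C (x j)) ^ (m * β j)) := by
    apply IsCoprime.prod_right
    intro j hj
    apply IsCoprime.pow
    have hpj : x p ≠ x j := fun h => (Finset.mem_erase.1 hj).1 (hx h).symm
    have h7 : IsCoprime (X - C (-x p)) (X - C (-x j)) := by
      apply isCoprime_X_sub_C_of_isUnit_sub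
      exact (sub_ne_zero.2 fun h => hpj (neg_injective h)).isUnit
    rwa [C_neg, C_neg, sub_neg_eq_add, sub_neg_eq_add] at h7
  have h6 := h5.dvd_of_dvd_mul_left h4
  refine (pow_dvd_pow _ ?_).trans h6
  exact Nat.le_mul_of_pos_right m (by omega)

/-- the determinant of the `q_k` is not zero -/
theorem det_qk_ne_zero [CharZero K] {x : P → K} (hx : Function.Injective x) {m : ℕ} :
    ∀ (N : ℕ) (β : Fin N → P → ℕ), Function.Injective β →
      N * (N * Fintype.card P) < m →
      (Matrix.of fun (k : Fin N) (j : Fin N) =>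
        qk (ZZ x) (hh x (fun i => m * β j i)) (k : ℕ)).det ≠ 0 := by
  intro N
  induction N with
  | zero => intro β _ _; simp
  | succ N ih =>
    intro β hβ hm h0
    set γ := Fintype.card P with hγ
    set q : Fin (N + 1) → ℕ → K[X] := fun j k => qk (ZZ x) (hh x (fun i => m * β j i)) k with hq
    obtain ⟨w, hw0, hw⟩ := Matrix.exists_mulVec_eq_zero_iff.2 h0
    have hwk : ∀ k : ℕ, k < N + 1 → ∑ j, q j k * w j = 0 := by
      intro k hk
      have := congrFun hw ⟨k, hk⟩
      simpa [Matrix.mulVec, dotProduct] using this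
    obtain ⟨j0, hj0⟩ : ∃ j0, w j0 ≠ 0 := by
      by_contra hcon
      push Not at hcon
      exact hw0 (funext hcon)
    have hγN : N * (N * γ) < m := by
      have h1 : N * (N * γ) ≤ (N + 1) * ((N + 1) * γ) := by nlinarith
      omega
    -- the minor without the column `j0`
    set A : Matrix (Fin N) (Fin N) K[X] :=
      Matrix.of fun (k : Fin N) (j : Fin N) => q (j0.succAbove j) (k : ℕ) with hA
    have hAdet : A.det ≠ 0 :=
      ih (fun j => β (j0.succAbove j)) (hβ.comp Fin.succAbove_right_injective) hγN
    have hAent : ∀ k j, (A k j).natDegree ≤ N * γ := by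
      intro k j
      refine (qk_natDegree (ZZ_natDegree x) (hh_natDegree x _) (k : ℕ)).trans ?_
      exact Nat.mul_le_mul_right _ k.isLt.le
    set b : Fin (N + 1) → K[X] := fun j => FF x (fun i => m * β j i) with hb
    have hb0 : ∀ j, b j ≠ 0 := fun j => FF_ne_zero _ _
    set h : Fin (N + 1) → K[X] := fun j => hh x (fun i => m * β j i) with hh'
    have hbD : ∀ j, ZZ x * derivative (b j) = h j * b j := fun j => FF_derivative _ _
    have hqs : ∀ j k, q j (k + 1) = ZZ x * derivative (q j k) + h j * q j k := fun j k => rfl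
    have hZ0 : ZZ x ≠ 0 := Finset.prod_ne_zero_iff.2 fun _ _ => X_add_C_ne_zero _
    -- the twisted derivatives
    set n : Fin (N + 1) → K[X] := fun j => ZZ x * derivative (w j) - h j * w j with hn
    have hnk : ∀ k : ℕ, k < N → ∑ j, q j k * n j = 0 := by
      intro k hk
      have h1 := congrArg derivative (hwk k (by omega))
      rw [derivative_sum, derivative_zero] at h1
      have h2 := hwk (k + 1) (by omega)
      have h3 : ∀ j, q j k * n j = ZZ x * derivative (q j k * w j) - q j (k + 1) * w j := by
        intro j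
        rw [hqs, derivative_mul, hn]
        ring
      rw [Finset.sum_congr rfl fun j _ => h3 j, Finset.sum_sub_distrib, ← Finset.mul_sum, h1, h2,
        mul_zero, sub_zero]
    set θ : Fin (N + 1) → K[X] := fun j => w j0 * n j - w j * n j0 with hθ
    have hθ0 : θ j0 = 0 := by rw [hθ]; ring
    have hθk : ∀ k : ℕ, k < N → ∑ j, q j k * θ j = 0 := by
      intro k hk
      have h3 : ∀ j, q j k * θ j = w j0 * (q j k * n j) - n j0 * (q j k * w j) := by
        intro j; rw [hθ]; ring
      rw [Finset.sum_congr rfl fun j _ => h3 j, Finset.sum_sub_distrib, ← Finset.mul_sum,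
        ← Finset.mul_sum, hnk k hk, hwk k (by omega), mul_zero, mul_zero, sub_zero]
    have hθA : A.mulVec (fun j => θ (j0.succAbove j)) = 0 := by
      funext k
      have h1 := hθk k k.isLt
      rw [Fin.sum_univ_succAbove _ j0, hθ0, mul_zero, zero_add] at h1
      exact h1
    have hθall : ∀ j, θ j = 0 := by
      intro j
      rcases Fin.eq_self_or_eq_succAbove j0 j with rfl | ⟨i, rfl⟩
      · exact hθ0
      · exact congrFun (Matrix.eq_zero_of_mulVec_eq_zero hAdet hθA) i
    have hc : ∀ j, ∃ c : K, w j * b j0 = C c * (w j0 * b j) := by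
      intro j
      apply const_of_wr (mul_ne_zero hj0 (hb0 j))
      apply mul_left_cancel₀ hZ0
      rw [derivative_mul, derivative_mul]
      have h1 := hθall j
      rw [hθ] at h1
      simp only [hn] at h1
      linear_combination (b j * b j0) * h1 + (w j0 * b j * w j) * hbD j0 -
        (w j * b j0 * w j0) * hbD j
    choose c hc using hc
    have hcj0 : c j0 = 1 := by
      have h1 := hc j0
      have h2 := mul_ne_zero hj0 (hb0 j0)
      have h3 : (C (c j0) - 1) * (w j0 * b j0) = 0 := by linear_combination -h1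
      have h4 := (mul_eq_zero.1 h3).resolve_right h2
      have h5 : C (c j0) = C 1 := by rw [C_1]; exact sub_eq_zero.1 h4
      exact C_injective h5
    have hck : ∀ k : ℕ, k < N + 1 → ∑ j, q j k * (C (c j) * b j) = 0 := by
      intro k hk
      apply mul_left_cancel₀ hj0
      rw [mul_zero, Finset.mul_sum, ← mul_zero (b j0), ← hwk k hk, Finset.mul_sum]
      refine Finset.sum_congr rfl fun j _ => ?_
      linear_combination -(q j k) * hc j
    obtain ⟨i1, hi1⟩ : ∃ i1, c (j0.succAbove i1) ≠ 0 := by
      by_contra hcon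
      push Not at hcon
      have h1 := hck 0 (by omega)
      rw [Fin.sum_univ_succAbove _ j0, Finset.sum_eq_zero (fun i _ => by rw [hcon i]; simp),
        add_zero, hcj0, C_1, one_mul] at h1
      exact hb0 j0 (by simpa [q, qk] using h1)
    set Δ : K[X] := (A.updateCol i1 fun k => q j0 (k : ℕ)).det with hΔ
    have hΔent : ∀ k j, (A.updateCol i1 (fun k => q j0 (k : ℕ)) k j).natDegree ≤ N * γ := by
      intro k j
      rw [Matrix.updateCol_apply]
      split_ifs
      · refine (qk_natDegree (ZZ_natDegree x) (hh_natDegree x _) (k : ℕ)).trans ?_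
        exact Nat.mul_le_mul_right _ k.isLt.le
      · exact hAent k j
    have hcr : A.det * (C (c (j0.succAbove i1)) * b (j0.succAbove i1)) = -(b j0 * Δ) := by
      have h1 : A.mulVec (fun i => C (c (j0.succAbove i)) * b (j0.succAbove i)) =
          (-b j0) • (fun k : Fin N => q j0 (k : ℕ)) := by
        funext k
        have h2 := hck k (by omega)
        rw [Fin.sum_univ_succAbove _ j0, hcj0, C_1, one_mul] at h2
        rw [Pi.smul_apply, smul_eq_mul, neg_mul, eq_neg_iff_add_eq_zero, ← h2, Matrix.mulVec,
          dotProduct, add_comm, mul_comm (b j0)]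
        rfl
      have h3 := congrArg (fun y => A.adjugate.mulVec y i1) h1
      simp only [Matrix.mulVec_mulVec, Matrix.adjugate_mul, Matrix.smul_mulVec, Matrix.one_mulVec,
        Matrix.mulVec_smul, Pi.smul_apply, smul_eq_mul] at h3
      rw [← Matrix.cramer_eq_adjugate_mulVec, Matrix.cramer_apply] at h3
      rw [h3, hΔ]
      ring
    have hΔ0 : Δ ≠ 0 := by
      intro h1
      rw [h1, mul_zero, neg_zero] at hcr
      rcases mul_eq_zero.1 hcr with h2 | h2
      · exact hAdet h2
      · rcases mul_eq_zero.1 h2 with h3 | h3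
        · exact hi1 (C_eq_zero.1 h3)
        · exact hb0 _ h3
    have hne : β j0 ≠ β (j0.succAbove i1) := fun h1 => Fin.ne_succAbove j0 i1 (hβ h1)
    obtain ⟨p, hp⟩ := Function.ne_iff.1 hne
    rcases lt_or_gt_of_ne hp with hlt | hgt
    · have h1 : (X + C (x p)) ^ m ∣ -Δ := by
        apply pow_dvd_of hx hlt (A := C (c (j0.succAbove i1)) * A.det)
        show b (j0.succAbove i1) * _ = b j0 * _
        linear_combination hcr
      have h2 := natDegree_le_of_dvd h1 (neg_ne_zero.2 hΔ0)
      rw [natDegree_neg, natDegree_pow, natDegree_X_add_C, mul_one] at h2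
      have h3 : Δ.natDegree ≤ N * (N * γ) := natDegree_det_le _ hΔent
      omega
    · have h1 : (X + C (x p)) ^ m ∣ C (c (j0.succAbove i1)) * A.det := by
        apply pow_dvd_of hx hgt (A := -Δ)
        show b j0 * _ = b (j0.succAbove i1) * _
        linear_combination -hcr
      have h2 := natDegree_le_of_dvd h1 (mul_ne_zero (by rwa [Ne, C_eq_zero]) hAdet)
      rw [natDegree_pow, natDegree_X_add_C, mul_one, natDegree_C_mul hi1] at h2
      have h3 := natDegree_det_le _ hAent
      omega

/-- linear independence for large exponents -/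
theorem FF_indep [CharZero K] {x : P → K} (hx : Function.Injective x) {I : Type*} [Fintype I]
    (β : I → P → ℕ) (hβ : Function.Injective β) {m : ℕ}
    (hm : Fintype.card I * (Fintype.card I * Fintype.card P) < m) (a : I → K)
    (ha : ∑ i, C (a i) * FF x (fun p => m * β i p) = 0) (i : I) : a i = 0 := by
  classical
  let e : I ≃ Fin (Fintype.card I) := Fintype.equivFin I
  have hdet := det_qk_ne_zero hx (m := m) (Fintype.card I) (fun j => β (e.symm j))
    (hβ.comp e.symm.injective) hm
  have hv : (Matrix.of fun (k : Fin (Fintype.card I)) (j : Fin (Fintype.card I)) =>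
      qk (ZZ x) (hh x (fun i => m * β (e.symm j) i)) (k : ℕ)).mulVec
      (fun j => C (a (e.symm j)) * FF x (fun p => m * β (e.symm j) p)) = 0 := by
    funext k
    have h1 : ((DZ (ZZ x)) ^ (k : ℕ)) (∑ i, C (a i) * FF x (fun p => m * β i p)) = 0 := by
      rw [ha, map_zero]
    rw [map_sum, ← e.symm.sum_comp] at h1
    rw [Matrix.mulVec, dotProduct, Pi.zero_apply, ← h1]
    refine Finset.sum_congr rfl fun j _ => ?_
    have h5 : ((DZ (ZZ x)) ^ (k : ℕ)) (C (a (e.symm j)) * FF x (fun p => m * β (e.symm j) p)) =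
        C (a (e.symm j)) * (qk (ZZ x) (hh x (fun i => m * β (e.symm j) i)) (k : ℕ) *
          FF x (fun p => m * β (e.symm j) p)) := by
      rw [← smul_eq_C_mul, map_smul, qk_spec (FF_derivative x _), smul_eq_C_mul]
    rw [Matrix.of_apply, h5]
    ring
  have h2 := congrFun (Matrix.eq_zero_of_mulVec_eq_zero hdet hv) (e i)
  simp only [Equiv.symm_apply_apply, Pi.zero_apply] at h2
  exact C_eq_zero.1 ((mul_eq_zero.1 h2).resolve_right (FF_ne_zero _ _))

end

theorem nondeg_explicit [CharZero K] {ι : Type*} [Fintype ι] (x : ι → K)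
    (hx : Function.Injective x) (V : Submodule K (ι → K)) (m : ℕ)
    (hm : (Fintype.card ι + 1) ^ (2 * Fintype.card ι + 1) ≤ m) (c : ι → K)
    (hc : ∀ i, c i ≠ 0) :
    ∃ t : K, (∀ i, t + x i ≠ 0) ∧
      ∀ h ∈ V, (∀ q ∈ V, ∑ i, c i * (h i * q i) / (t + x i) ^ m = 0) → h = 0 := by
  classical
  obtain ⟨G, hGdeg, hG0, hGnd⟩ : ∃ G : MvPolynomial ι K, G.totalDegree ≤ Fintype.card ι ∧
      G ≠ 0 ∧ ∀ y : ι → K, MvPolynomial.eval y G ≠ 0 →
        ∀ h ∈ V, (∀ q ∈ V, ∑ i, y i * (h i * q i) = 0) → h = 0 := gram_poly V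
  set γ := Fintype.card ι with hγ
  have hαγ : ∀ α ∈ G.support, ∀ i, α i ≤ γ := by
    intro α hα i
    exact (Finsupp.le_degree i α).trans ((MvPolynomial.le_totalDegree hα).trans hGdeg)
  let β : G.support → ι → ℕ := fun α i => γ - α.1 i
  have hβ : Function.Injective β := by
    intro α α' h
    apply Subtype.ext
    ext i
    have h1 := congrFun h i
    have h2 := hαγ α.1 α.2 i
    have h3 := hαγ α'.1 α'.2 i
    simp only [β] at h1
    omega
  have hcard : Fintype.card G.support ≤ (γ + 1) ^ γ := by
    have h1 : Function.Injective (fun (α : G.support) (i : ι) =>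
        (⟨α.1 i, Nat.lt_succ_of_le (hαγ α.1 α.2 i)⟩ : Fin (γ + 1))) := by
      intro α α' h
      apply Subtype.ext
      ext i
      exact congrArg Fin.val (congrFun h i)
    have h2 := Fintype.card_le_of_injective _ h1
    rwa [Fintype.card_fun, Fintype.card_fin, ← hγ] at h2
  have hNm : Fintype.card G.support * (Fintype.card G.support * γ) < m := by
    refine lt_of_lt_of_le ?_ hm
    calc Fintype.card G.support * (Fintype.card G.support * γ)
        ≤ (γ + 1) ^ γ * ((γ + 1) ^ γ * γ) :=
          Nat.mul_le_mul hcard (Nat.mul_le_mul_right _ hcard)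
      _ < (γ + 1) ^ γ * ((γ + 1) ^ γ * (γ + 1)) := by
          have h1 : 0 < (γ + 1) ^ γ := by positivity
          exact Nat.mul_lt_mul_of_pos_left (Nat.mul_lt_mul_of_pos_left (Nat.lt_succ_self γ) h1) h1
      _ = (γ + 1) ^ (2 * γ + 1) := by ring
  by_contra hcon
  push Not at hcon
  let a : G.support → K := fun α => MvPolynomial.coeff α.1 G * ∏ i, c i ^ α.1 i
  have hsum : ∑ α, C (a α) * FF x (fun i => m * β α i) = 0 := by
    apply Polynomial.eq_zero_of_infinite_isRoot
    have hinf : Infinite K := CharZero.infinite K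
    have hfin : (Set.range fun i => -x i).Finite := Set.finite_range _
    refine hfin.infinite_compl.mono ?_
    intro t ht
    have ht' : ∀ i, t + x i ≠ 0 := by
      intro i h
      apply ht
      exact ⟨i, by linear_combination -h⟩
    obtain ⟨h, hh, hq, hne⟩ := hcon t ht'
    have h1 : MvPolynomial.eval (fun i => c i / (t + x i) ^ m) G = 0 := by
      by_contra h2
      apply hne
      refine hGnd _ h2 h hh fun q hqV => ?_
      rw [← hq q hqV]
      exact Finset.sum_congr rfl fun i _ => by ring
    rw [MvPolynomial.eval_eq'] at h1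
    show Polynomial.eval t (∑ α, C (a α) * FF x (fun i => m * β α i)) = 0
    rw [eval_finsetSum]
    have h3 : ∀ α : G.support, Polynomial.eval t (C (a α) * FF x (fun i => m * β α i)) =
        (∏ i, (t + x i) ^ (m * γ)) * (MvPolynomial.coeff α.1 G *
          ∏ i, (c i / (t + x i) ^ m) ^ α.1 i) := by
      intro α
      rw [eval_mul, eval_C, FF, eval_prod]
      have h4 : ∀ i, Polynomial.eval t ((X + C (x i)) ^ (m * (γ - α.1 i))) * c i ^ α.1 i =
          (t + x i) ^ (m * γ) * (c i / (t + x i) ^ m) ^ α.1 i := by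
        intro i
        have h5 := ht' i
        rw [eval_pow, eval_add, eval_X, eval_C, div_pow, ← pow_mul, mul_div_assoc',
          eq_div_iff (pow_ne_zero _ h5)]
        have h6 : m * γ = m * (γ - α.1 i) + m * α.1 i := by
          rw [← Nat.mul_add, Nat.sub_add_cancel (hαγ α.1 α.2 i)]
        rw [h6, pow_add]
        ring
      calc a α * ∏ i, Polynomial.eval t ((X + C (x i)) ^ (m * (γ - α.1 i)))
          = MvPolynomial.coeff α.1 G *
            ∏ i, (Polynomial.eval t ((X + C (x i)) ^ (m * (γ - α.1 i))) * c i ^ α.1 i) := by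
            rw [Finset.prod_mul_distrib]; ring
        _ = MvPolynomial.coeff α.1 G *
            ∏ i, ((t + x i) ^ (m * γ) * (c i / (t + x i) ^ m) ^ α.1 i) := by
            rw [Finset.prod_congr rfl fun i _ => h4 i]
        _ = _ := by rw [Finset.prod_mul_distrib]; ring
    rw [Finset.sum_congr rfl fun α _ => h3 α, ← Finset.mul_sum]
    rw [Finset.sum_coe_sort G.support (fun α => MvPolynomial.coeff α G *
          ∏ i, (c i / (t + x i) ^ m) ^ α i), h1, mul_zero]
  obtain ⟨α, hα⟩ := MvPolynomial.support_nonempty.2 hG0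
  have h3 := FF_indep hx β hβ hNm a hsum ⟨α, hα⟩
  rcases mul_eq_zero.1 h3 with h4 | h4
  · exact MvPolynomial.mem_support_iff.1 hα h4
  · obtain ⟨i, -, hi⟩ := Finset.prod_eq_zero_iff.1 h4
    exact hc i (eq_zero_of_pow_eq_zero hi)

end Pool.Agent.LefRed
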