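import Pool.Agent.LefRed.Large5

/-!
A better explicit bound: the Gram determinant is linear in each of its variables.
-/

set_option autoImplicit false

namespace Pool.Agent.LefRed

open Polynomial

variable {K : Type*} [Field K]

/-- the determinant of `∑ X_i u_i w_i` is linear in each variable -/
lemma det_support {ι : Type*} [Fintype ι] {d : ℕ} (u w : ι → Fin d → K)
    (α : ι →₀ ℕ)
    (hα : α ∈ (Matrix.det (Matrix.of fun (a b : Fin d) =>
      (∑ i, MvPolynomial.C (u i a * w i b) * MvPolynomial.X i : MvPolynomial ι K))).support)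
    (i : ι) : α i ≤ 1 := by
  classical
  have hdet : Matrix.det (Matrix.of fun (a b : Fin d) =>
      (∑ i, MvPolynomial.C (u i a * w i b) * MvPolynomial.X i : MvPolynomial ι K)) =
      ∑ φ : Fin d → ι, (∏ a, (MvPolynomial.C (u (φ a) a) * MvPolynomial.X (φ a) :
        MvPolynomial ι K)) • Matrix.det (Matrix.of fun (a b : Fin d) =>
          (MvPolynomial.C (w (φ a) b) : MvPolynomial ι K)) := by
    have h1 := (Matrix.detRowAlternating (n := Fin d) (R := MvPolynomial ι K)).toMultilinearMap.map_sum
      (fun (a : Fin d) (i : ι) (b : Fin d) =>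
        (MvPolynomial.C (u i a * w i b) * MvPolynomial.X i : MvPolynomial ι K))
    have h2 : (fun a : Fin d => ∑ i, (fun b : Fin d =>
        (MvPolynomial.C (u i a * w i b) * MvPolynomial.X i : MvPolynomial ι K))) =
        (fun a b => ∑ i, MvPolynomial.C (u i a * w i b) * MvPolynomial.X i) := by
      funext a b
      rw [Finset.sum_apply]
    rw [h2] at h1
    refine Eq.trans h1 ?_
    refine Finset.sum_congr rfl fun φ _ => ?_
    have h3 := (Matrix.detRowAlternating (n := Fin d)
      (R := MvPolynomial ι K)).toMultilinearMap.map_smul_univ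
      (fun a => (MvPolynomial.C (u (φ a) a) * MvPolynomial.X (φ a) : MvPolynomial ι K))
      (fun a b => (MvPolynomial.C (w (φ a) b) : MvPolynomial ι K))
    refine Eq.trans ?_ h3
    congr 1
    funext a b
    rw [Pi.smul_apply, smul_eq_mul, map_mul]
    ring
  rw [hdet] at hα
  obtain ⟨φ, -, hφ⟩ := Finset.mem_biUnion.1 (MvPolynomial.support_sum hα)
  by_cases hinj : Function.Injective φ
  · have h1 : (∏ a, (MvPolynomial.C (u (φ a) a) * MvPolynomial.X (φ a) : MvPolynomial ι K)) •
        Matrix.det (Matrix.of fun (a b : Fin d) =>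
          (MvPolynomial.C (w (φ a) b) : MvPolynomial ι K)) =
        MvPolynomial.monomial (∑ a, Finsupp.single (φ a) 1)
          ((∏ a, u (φ a) a) * Matrix.det (Matrix.of fun (a b : Fin d) => w (φ a) b)) := by
      have h2 : Matrix.det (Matrix.of fun (a b : Fin d) =>
          (MvPolynomial.C (w (φ a) b) : MvPolynomial ι K)) =
          MvPolynomial.C (Matrix.det (Matrix.of fun (a b : Fin d) => w (φ a) b)) := by
        rw [RingHom.map_det]
        rfl
      have h3 : (∏ a, (MvPolynomial.C (u (φ a) a) * MvPolynomial.X (φ a) :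
          MvPolynomial ι K)) =
          MvPolynomial.monomial (∑ a, Finsupp.single (φ a) 1) (∏ a, u (φ a) a) := by
        rw [MvPolynomial.monomial_sum_index, Finset.prod_mul_distrib, map_prod]
        rfl
      rw [h2, h3, smul_eq_mul, mul_comm, MvPolynomial.C_mul_monomial, mul_comm]
    rw [h1] at hφ
    have h4 := Finset.mem_singleton.1 (MvPolynomial.support_monomial_subset hφ)
    rw [h4, Finsupp.finsetSum_apply]
    by_cases hi : ∃ a, φ a = i
    · obtain ⟨a, rfl⟩ := hi
      rw [Finset.sum_eq_single a]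
      · simp
      · intro b _ hb
        exact Finsupp.single_eq_of_ne (fun h => hb (hinj h).symm)
      · intro h; exact absurd (Finset.mem_univ _) h
    · push Not at hi
      rw [Finset.sum_eq_zero fun a _ => Finsupp.single_eq_of_ne (hi a).symm]
      exact Nat.zero_le _
  · exfalso
    unfold Function.Injective at hinj
    push Not at hinj
    obtain ⟨a, b, hab, hne⟩ := hinj
    rw [Matrix.det_zero_of_row_eq hne (by funext c; simp only [Matrix.of_apply, hab]),
      smul_zero] at hφ
    simp at hφ

/-- the Gram determinant as a polynomial, linear in each variable -/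
theorem gram_poly2 {ι : Type*} [Fintype ι] (V : Submodule K (ι → K)) :
    ∃ G : MvPolynomial ι K, (∀ α ∈ G.support, ∀ i, α i ≤ 1) ∧
      G ≠ 0 ∧ ∀ y : ι → K, MvPolynomial.eval y G ≠ 0 →
        ∀ h ∈ V, (∀ q ∈ V, ∑ i, y i * (h i * q i) = 0) → h = 0 := by
  classical
  let e := Module.finBasis K V
  set d := Module.finrank K V with hd
  let G : Matrix (Fin d) (Fin d) (MvPolynomial ι K) := fun a b =>
    ∑ i, MvPolynomial.C ((e a).1 i * (e b).1 i) * MvPolynomial.X i
  have hGe : ∀ y : ι → K, (G.map (MvPolynomial.eval y)).det = MvPolynomial.eval y G.det := by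
    intro y
    rw [RingHom.map_det]
    rfl
  have hGnd : ∀ y : ι → K, MvPolynomial.eval y G.det ≠ 0 →
      ∀ h ∈ V, (∀ q ∈ V, ∑ i, y i * (h i * q i) = 0) → h = 0 := by
    intro y hy h hh hq
    rw [← hGe] at hy
    have h1 : (G.map (MvPolynomial.eval y)).mulVec (e.repr ⟨h, hh⟩) = 0 := by
      funext a
      rw [Matrix.mulVec, dotProduct, Pi.zero_apply, ← hq (e a).1 (e a).2]
      have h2 : h = ∑ b, (e.repr ⟨h, hh⟩) b • (e b).1 := by
        have h10 := congrArg V.subtype (e.sum_repr ⟨h, hh⟩)
        rw [map_sum] at h10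
        exact h10.symm
      have h3 : ∀ i, h i = ∑ b, (e.repr ⟨h, hh⟩) b * (e b).1 i := by
        intro i
        conv_lhs => rw [h2]
        simp [Finset.sum_apply]
      have h4 : ∀ b, (G.map (MvPolynomial.eval y)) a b * (e.repr ⟨h, hh⟩) b =
          ∑ i, y i * ((e.repr ⟨h, hh⟩) b * (e b).1 i * (e a).1 i) := by
        intro b
        rw [Matrix.map_apply, map_sum, Finset.sum_mul]
        refine Finset.sum_congr rfl fun i _ => ?_
        rw [map_mul, MvPolynomial.eval_C, MvPolynomial.eval_X]
        ring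
      rw [Finset.sum_congr rfl fun b _ => h4 b, Finset.sum_comm]
      refine Finset.sum_congr rfl fun i _ => ?_
      rw [h3 i, Finset.sum_mul, Finset.mul_sum]
    have h5 := Matrix.eq_zero_of_mulVec_eq_zero hy h1
    have h6 : (⟨h, hh⟩ : V) = 0 := by
      apply e.repr.injective
      rw [map_zero]
      ext b
      exact congrFun h5 b
    exact congrArg Subtype.val h6
  have hG0 : G.det ≠ 0 := by
    intro h0
    obtain ⟨y, hy⟩ := exists_nondeg V
    have h1 : (G.map (MvPolynomial.eval y)).det = 0 := by rw [hGe, h0, map_zero]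
    obtain ⟨w, hw0, hw⟩ := Matrix.exists_mulVec_eq_zero_iff.2 h1
    apply hw0
    set h : V := ∑ b, w b • e b with hh
    have hhi : ∀ i, h.1 i = ∑ b, w b * (e b).1 i := by
      intro i
      rw [hh]
      simp [Finset.sum_apply]
    have h2 : h.1 = 0 := by
      apply hy h.1 h.2
      intro q hq
      have h3 : ∀ i, q i = ∑ a, (e.repr ⟨q, hq⟩) a * (e a).1 i := by
        intro i
        have h10 := congrArg V.subtype (e.sum_repr ⟨q, hq⟩)
        rw [map_sum] at h10
        have h4 : q = ∑ a, (e.repr ⟨q, hq⟩) a • (e a).1 := h10.symm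
        conv_lhs => rw [h4]
        simp [Finset.sum_apply]
      have h5 : ∀ a, ∑ i, y i * (h.1 i * (e a).1 i) = 0 := by
        intro a
        have h6 := congrFun hw a
        rw [Matrix.mulVec, dotProduct, Pi.zero_apply] at h6
        rw [← h6]
        have h4 : ∀ b, (G.map (MvPolynomial.eval y)) a b * w b =
            ∑ i, y i * (w b * (e b).1 i * (e a).1 i) := by
          intro b
          rw [Matrix.map_apply, map_sum, Finset.sum_mul]
          refine Finset.sum_congr rfl fun i _ => ?_
          rw [map_mul, MvPolynomial.eval_C, MvPolynomial.eval_X]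
          ring
        rw [Finset.sum_congr rfl fun b _ => h4 b, Finset.sum_comm]
        refine Finset.sum_congr rfl fun i _ => ?_
        rw [hhi i, Finset.sum_mul, Finset.mul_sum]
      have h7 : ∀ i, y i * (h.1 i * q i) =
          ∑ a, (e.repr ⟨q, hq⟩) a * (y i * (h.1 i * (e a).1 i)) := by
        intro i
        rw [h3 i, Finset.mul_sum, Finset.mul_sum]
        exact Finset.sum_congr rfl fun a _ => by ring
      rw [Finset.sum_congr rfl fun i _ => h7 i, Finset.sum_comm]
      refine Finset.sum_eq_zero fun a _ => ?_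
      rw [← Finset.mul_sum, h5 a, mul_zero]
    have h8 : h = 0 := Subtype.ext h2
    rw [hh] at h8
    funext b
    exact Fintype.linearIndependent_iff.1 e.linearIndependent w h8 b
  refine ⟨G.det, fun α hα i => ?_, hG0, hGnd⟩
  exact det_support (fun i a => (e a).1 i) (fun i b => (e b).1 i) α hα i

/-- the bilinear form is nondegenerate for some `t` if `m > γ 4 ^ γ` -/
theorem nondeg_explicit2 [CharZero K] {ι : Type*} [Fintype ι] (x : ι → K)
    (hx : Function.Injective x) (V : Submodule K (ι → K)) (m : ℕ)
    (hm : Fintype.card ι * 4 ^ Fintype.card ι < m) (c : ι → K)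
    (hc : ∀ i, c i ≠ 0) :
    ∃ t : K, (∀ i, t + x i ≠ 0) ∧
      ∀ h ∈ V, (∀ q ∈ V, ∑ i, c i * (h i * q i) / (t + x i) ^ m = 0) → h = 0 := by
  classical
  obtain ⟨G, hGdeg, hG0, hGnd⟩ : ∃ G : MvPolynomial ι K, (∀ α ∈ G.support, ∀ i, α i ≤ 1) ∧
      G ≠ 0 ∧ ∀ y : ι → K, MvPolynomial.eval y G ≠ 0 →
        ∀ h ∈ V, (∀ q ∈ V, ∑ i, y i * (h i * q i) = 0) → h = 0 := gram_poly2 V
  set γ := Fintype.card ι with hγ
  have hαγ : ∀ α ∈ G.support, ∀ i, α i ≤ 1 := hGdeg
  let β : G.support → ι → ℕ := fun α i => 1 - α.1 i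
  have hβ : Function.Injective β := by
    intro α α' h
    apply Subtype.ext
    ext i
    have h1 := congrFun h i
    have h2 := hαγ α.1 α.2 i
    have h3 := hαγ α'.1 α'.2 i
    simp only [β] at h1
    omega
  have hcard : Fintype.card G.support ≤ 2 ^ γ := by
    have h1 : Function.Injective (fun (α : G.support) (i : ι) =>
        (⟨α.1 i, Nat.lt_succ_of_le (hαγ α.1 α.2 i)⟩ : Fin 2)) := by
      intro α α' h
      apply Subtype.ext
      ext i
      exact congrArg Fin.val (congrFun h i)
    have h2 := Fintype.card_le_of_injective _ h1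
    rwa [Fintype.card_fun, Fintype.card_fin, ← hγ] at h2
  have hNm : Fintype.card G.support * (Fintype.card G.support * γ) < m := by
    refine lt_of_le_of_lt ?_ hm
    calc Fintype.card G.support * (Fintype.card G.support * γ)
        ≤ 2 ^ γ * (2 ^ γ * γ) :=
          Nat.mul_le_mul hcard (Nat.mul_le_mul_right _ hcard)
      _ = γ * 4 ^ γ := by
          rw [show (4 : ℕ) = 2 * 2 from rfl, mul_pow]; ring
  by_contra hcon
  push Not at hcon
  let a : G.support → K := fun α => MvPolynomial.coeff α.1 G * ∏ i, c i ^ α.1 i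
  have hsum : ∑ α, C (a α) * FF x (fun i => m * β α i) = 0 := by
    apply Polynomial.eq_zero_of_infinite_isRoot
    have hinf : Infinite K := CharZero.infinite K
    have hfin : (Set.range fun i => -x i).Finite := Set.finite_range _
    refine hfin.infinite_compl.mono ?_
    intro t ht
    have ht' : ∀ i, t + x i ≠ 0 := by
      intro i h
      apply ht
      exact ⟨i, by linear_combination -h⟩
    obtain ⟨h, hh, hq, hne⟩ := hcon t ht'
    have h1 : MvPolynomial.eval (fun i => c i / (t + x i) ^ m) G = 0 := by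
      by_contra h2
      apply hne
      refine hGnd _ h2 h hh fun q hqV => ?_
      rw [← hq q hqV]
      exact Finset.sum_congr rfl fun i _ => by ring
    rw [MvPolynomial.eval_eq'] at h1
    show Polynomial.eval t (∑ α, C (a α) * FF x (fun i => m * β α i)) = 0
    rw [eval_finsetSum]
    have h3 : ∀ α : G.support, Polynomial.eval t (C (a α) * FF x (fun i => m * β α i)) =
        (∏ i, (t + x i) ^ (m * 1)) * (MvPolynomial.coeff α.1 G *
          ∏ i, (c i / (t + x i) ^ m) ^ α.1 i) := by
      intro α
      rw [eval_mul, eval_C, FF, eval_prod]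
      have h4 : ∀ i, Polynomial.eval t ((X + C (x i)) ^ (m * (1 - α.1 i))) * c i ^ α.1 i =
          (t + x i) ^ (m * 1) * (c i / (t + x i) ^ m) ^ α.1 i := by
        intro i
        have h5 := ht' i
        rw [eval_pow, eval_add, eval_X, eval_C, div_pow, ← pow_mul, mul_div_assoc',
          eq_div_iff (pow_ne_zero _ h5)]
        have h6 : m * 1 = m * (1 - α.1 i) + m * α.1 i := by
          rw [← Nat.mul_add, Nat.sub_add_cancel (hαγ α.1 α.2 i)]
        rw [h6, pow_add]
        ring
      calc a α * ∏ i, Polynomial.eval t ((X + C (x i)) ^ (m * (1 - α.1 i)))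
          = MvPolynomial.coeff α.1 G *
            ∏ i, (Polynomial.eval t ((X + C (x i)) ^ (m * (1 - α.1 i))) * c i ^ α.1 i) := by
            rw [Finset.prod_mul_distrib]; ring
        _ = MvPolynomial.coeff α.1 G *
            ∏ i, ((t + x i) ^ (m * 1) * (c i / (t + x i) ^ m) ^ α.1 i) := by
            rw [Finset.prod_congr rfl fun i _ => h4 i]
        _ = _ := by rw [Finset.prod_mul_distrib]; ring
    rw [Finset.sum_congr rfl fun α _ => h3 α, ← Finset.mul_sum]
    rw [Finset.sum_coe_sort G.support (fun α => MvPolynomial.coeff α G *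
          ∏ i, (c i / (t + x i) ^ m) ^ α i), h1, mul_zero]
  obtain ⟨α, hα⟩ := MvPolynomial.support_nonempty.2 hG0
  have h3 := FF_indep hx β hβ hNm a hsum ⟨α, hα⟩
  rcases mul_eq_zero.1 h3 with h4 | h4
  · exact MvPolynomial.mem_support_iff.1 hα h4
  · obtain ⟨i, -, hi⟩ := Finset.prod_eq_zero_iff.1 h4
    exact hc i (eq_zero_of_pow_eq_zero hi)

end Pool.Agent.LefRed
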