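import Pool.Agent.LefProd.Types

/-!
Injectivity in the degrees below the length of one of the lists.
-/

set_option autoImplicit false
set_option linter.unusedSectionVars false

namespace Pool.Agent.LefProd

open MvPolynomial

universe u

variable {F : Type u} [Field F] {n : ℕ}

lemma nzd_pow {W : Submodule F (Fin n → F)} {v : Fin n → F} {𝓛 : List (List (Fin n → F))}
    (hne : NE 𝓛) (hv : v ∉ W) (htr : Tr (W ⊔ Submodule.span F {v}) 𝓛)
    {p : MvPolynomial (Fin n) F} (m : ℕ) (hp : lin v ^ m * p ∈ J W 𝓛) : p ∈ J W 𝓛 := by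
  induction m with
  | zero => simpa using hp
  | succ m ih =>
    apply ih
    apply nzd hne hv htr
    rw [pow_succ', mul_assoc] at hp
    exact hp

lemma pow_mul_hom (v : Fin n → F) (m : ℕ) {j : ℕ} {p : MvPolynomial (Fin n) F}
    (hp : p.IsHomogeneous j) : (lin v ^ m * p).IsHomogeneous (m + j) := by
  have := ((lin_isHomogeneous v).pow m).mul hp
  rwa [one_mul] at this

lemma low_EX0 {W : Submodule F (Fin n → F)} {f : List (Fin n → F)}
    {𝓛 : List (List (Fin n → F))} (hci : CI W (f :: 𝓛)) {m j : ℕ} (h : j + m < f.length) :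
    EX (J W (f :: 𝓛)) m j := by
  obtain ⟨v, hv⟩ := List.exists_mem_of_ne_nil f (hci.1 f List.mem_cons_self)
  have h1 := hci.2.1 v hv
  refine ⟨v, fun p hp hmem => J_mono_cons (nzd_pow hci.1.tail h1.1 h1.2 m ?_)⟩
  exact cons_hom_lt (pow_mul_hom v m hp) hmem (by omega)

lemma exists_C {p : MvPolynomial (Fin n) F} (hp : p.IsHomogeneous 0) : ∃ c, p = C c :=
  ⟨coeff 0 p, (totalDegree_eq_zero_iff_eq_C).1 (Nat.le_zero.1 hp.totalDegree_le)⟩

lemma low_EK {W : Submodule F (Fin n → F)} {f : List (Fin n → F)}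
    {𝓛 : List (List (Fin n → F))} (hci : CI W (f :: 𝓛)) {m j : ℕ} (h : j + m = f.length) :
    EK (J W (f :: 𝓛)) m j := by
  obtain ⟨v, hv⟩ := List.exists_mem_of_ne_nil f (hci.1 f List.mem_cons_self)
  have h1 := hci.2.1 v hv
  refine ⟨v, fun p q hp hq hpm hqm => ?_⟩
  obtain ⟨a, ha, ha'⟩ := cons_hom (pow_mul_hom v m hp) hpm (by omega)
  obtain ⟨b, hb, hb'⟩ := cons_hom (pow_mul_hom v m hq) hqm (by omega)
  rw [show m + j - f.length = 0 by omega] at ha hb
  obtain ⟨c, rfl⟩ := exists_C ha
  obtain ⟨d, rfl⟩ := exists_C hb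
  by_cases hc : c = 0
  · refine ⟨1, 0, Or.inl one_ne_zero, ?_⟩
    subst hc
    rw [map_one, one_mul, map_zero, zero_mul, add_zero]
    refine J_mono_cons (nzd_pow hci.1.tail h1.1 h1.2 m ?_)
    simpa using ha'
  · refine ⟨d, -c, Or.inr (neg_ne_zero.2 hc), ?_⟩
    refine J_mono_cons (nzd_pow hci.1.tail h1.1 h1.2 m ?_)
    have := sub_mem (Ideal.mul_mem_left _ (C d) ha') (Ideal.mul_mem_left _ (C c) hb')
    convert this using 1
    rw [map_neg]
    ring

theorem low_aux [CharZero F] {f : List (Fin n → F)} : ∀ (N : ℕ) (𝓛 : List (List (Fin n → F))),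
    len 𝓛 ≤ N → ∀ (W : Submodule F (Fin n → F)), CI W (f :: 𝓛) → ∀ m j,
    j + m ≤ f.length → (j + m < f.length ∨ j < sg 𝓛) → EX (J W (f :: 𝓛)) m j := by
  intro N
  induction N with
  | zero =>
    intro 𝓛 hlen W hci m j h1 h2
    cases 𝓛 with
    | nil =>
      rcases h2 with h2 | h2
      · exact low_EX0 hci h2
      · simp at h2
    | cons l 𝓛 =>
      rw [len_cons] at hlen
      exact absurd (List.length_eq_zero_iff.1 (by omega)) (hci.1.tail l List.mem_cons_self)
  | succ N ih =>
    intro 𝓛 hlen W hci m j h1 h2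
    by_cases h3 : j + m < f.length
    · exact low_EX0 hci h3
    have h4 : j < sg 𝓛 := h2.resolve_left h3
    cases 𝓛 with
    | nil => simp at h4
    | cons l 𝓛 =>
      cases l with
      | nil => exact absurd rfl (hci.1.tail [] List.mem_cons_self)
      | cons v g =>
        rw [len_cons, List.length_cons] at hlen
        rw [sg_cons, List.length_cons] at h4
        have hsw : (f :: (v :: g) :: 𝓛).Perm ((v :: g) :: f :: 𝓛) := List.Perm.swap _ _ _
        have hci2 := hci.perm hsw
        rw [J_perm hsw]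
        by_cases hg : g = []
        · subst hg
          rw [J_singleton_cons]
          exact ih 𝓛 (by omega) _ hci2.sup m j h1 (Or.inr (by simpa using h4))
        · have hgl : 1 ≤ g.length := List.length_pos_iff.2 hg
          have hsw' : (f :: g :: 𝓛).Perm (g :: f :: 𝓛) := List.Perm.swap _ _ _
          have hci3 : CI W (f :: g :: 𝓛) := (hci2.tail_list hg).perm hsw'.symm
          by_cases hm : m = 0
          · subst hm; exact EX.zero _ _
          · apply stepG hci2 (by omega)
            · intro hj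
              rw [← J_perm hsw']
              exact low_EX0 hci3 (by omega)
            · rw [← J_perm hsw']
              exact low_EX0 hci3 (by omega)
            · intro hj
              rw [← J_perm hsw']
              refine ih (g :: 𝓛) (by rw [len_cons]; omega) W hci3 _ _ (by omega) (Or.inr ?_)
              rw [sg_cons]
              omega
            · intro hj
              exact low_EX0 hci2.sup (by omega)
            · exact low_EK hci2.sup (by omega)

/-- `EX` in the degrees `j` with `j + 1 ≤ f.length` -/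
theorem low_EX [CharZero F] {f : List (Fin n → F)} {𝓛 : List (List (Fin n → F))}
    {W : Submodule F (Fin n → F)} (hci : CI W (f :: 𝓛)) {j : ℕ} (h1 : j + 1 ≤ f.length)
    (h2 : 2 * j + 1 ≤ sg (f :: 𝓛)) : EX (J W (f :: 𝓛)) 1 j := by
  rw [sg_cons] at h2
  exact low_aux _ 𝓛 le_rfl W hci 1 j h1 (by omega)

end Pool.Agent.LefProd
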