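import Pool.Agent.LefRed.All

/-!
The same with the weights `1 / ℓ(P) ^ m`, `m ≥ 2`: the quadratic form is nondegenerate for a
general `ℓ`.
-/

set_option autoImplicit false
set_option linter.unusedSectionVars false

namespace Pool.Agent.LefRed

open MvPolynomial Pool.Agent.LefProd

universe u

variable {F : Type u} [Field F] {n : ℕ}

section main

variable (G : Finset (Fin n → F)) (c : (Fin n → F) → F)
  (h : Fin n → MvPolynomial (Fin n) F) (D : MvPolynomial (Fin n) F)
  (u E : (Fin n → F) → MvPolynomial (Fin n) F) (k : ℕ)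

/-- all weighted power sums vanish -/
lemma powersW [CharZero F] (hE : ∀ P ∈ G, lin P * E P = D)
    (huE : ∀ P ∈ G, u P = ev h P * E P)
    (h1 : ∀ i, ∑ P ∈ G, C (c P) * (E P ^ (k + 1) * u P) * C (P i) = 0) :
    ∀ (m : ℕ) (i : Fin n), ∑ P ∈ G, C (c P) * (E P ^ (k + 1) * u P ^ (m + 1)) * C (P i) = 0 := by
  intro m
  induction m with
  | zero => intro i; simpa using h1 i
  | succ m hm =>
    intro j
    -- differentiate
    have hd : ∀ i : Fin n, ∑ P ∈ G, (C (c P) * (((k + 1 : ℕ) : MvPolynomial (Fin n) F) *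
        E P ^ k * pderiv j (E P) * u P ^ (m + 1) + ((m + 1 : ℕ) : MvPolynomial (Fin n) F) *
        E P ^ (k + 1) * u P ^ m * pderiv j (u P))) * C (P i) = 0 := by
      intro i
      have h2 := congrArg (pderiv j) (hm i)
      rw [map_zero, map_sum] at h2
      rw [← h2]
      refine Finset.sum_congr rfl fun P _ => ?_
      rw [Derivation.leibniz, Derivation.leibniz, Derivation.leibniz, pderiv_C, pderiv_C,
        Derivation.leibniz_pow, Derivation.leibniz_pow]
      simp only [smul_eq_mul, nsmul_eq_mul, Nat.add_sub_cancel]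
      ring
    have h4 : ∑ P ∈ G, (C (c P) * (((k + 1 : ℕ) : MvPolynomial (Fin n) F) *
        E P ^ k * pderiv j (E P) * u P ^ (m + 1) + ((m + 1 : ℕ) : MvPolynomial (Fin n) F) *
        E P ^ (k + 1) * u P ^ m * pderiv j (u P))) * ev h P = 0 := by
      rw [sum_ev]
      exact Finset.sum_eq_zero fun i _ => by rw [hd i, mul_zero]
    have hu : ∀ P ∈ G, lin P * u P = D * ev h P := by
      intro P hP
      rw [huE P hP, ← hE P hP]
      ring
    have h5 : ∑ P ∈ G, C (c P) * (((k + 1 : ℕ) : MvPolynomial (Fin n) F) *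
        E P ^ k * (lin P * pderiv j (E P)) * u P ^ (m + 2) +
        ((m + 1 : ℕ) : MvPolynomial (Fin n) F) *
        E P ^ (k + 1) * u P ^ (m + 1) * (lin P * pderiv j (u P))) = 0 := by
      have h6 : D * ∑ P ∈ G, (C (c P) * (((k + 1 : ℕ) : MvPolynomial (Fin n) F) *
        E P ^ k * pderiv j (E P) * u P ^ (m + 1) + ((m + 1 : ℕ) : MvPolynomial (Fin n) F) *
        E P ^ (k + 1) * u P ^ m * pderiv j (u P))) * ev h P = 0 := by
        rw [h4, mul_zero]
      rw [Finset.mul_sum] at h6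
      rw [← h6]
      refine Finset.sum_congr rfl fun P hP => ?_
      linear_combination (C (c P) * (((k + 1 : ℕ) : MvPolynomial (Fin n) F) *
        E P ^ k * pderiv j (E P) * u P ^ (m + 1) + ((m + 1 : ℕ) : MvPolynomial (Fin n) F) *
        E P ^ (k + 1) * u P ^ m * pderiv j (u P))) * hu P hP
    have h7 : ∀ P ∈ G, lin P * pderiv j (u P) =
        pderiv j D * ev h P + D * ev (fun i => pderiv j (h i)) P - u P * C (P j) := by
      intro P hP
      have h8 := congrArg (pderiv j) (hu P hP)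
      rw [Derivation.leibniz, Derivation.leibniz, pderiv_lin, pderiv_ev] at h8
      simp only [smul_eq_mul] at h8
      linear_combination h8
    have h7' : ∀ P ∈ G, lin P * pderiv j (E P) = pderiv j D - E P * C (P j) := by
      intro P hP
      have h8 := congrArg (pderiv j) (hE P hP)
      rw [Derivation.leibniz, pderiv_lin] at h8
      simp only [smul_eq_mul] at h8
      linear_combination h8
    have h9 : ∑ P ∈ G, C (c P) * (((k + 1 : ℕ) : MvPolynomial (Fin n) F) *
        E P ^ k * (lin P * pderiv j (E P)) * u P ^ (m + 2) +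
        ((m + 1 : ℕ) : MvPolynomial (Fin n) F) *
        E P ^ (k + 1) * u P ^ (m + 1) * (lin P * pderiv j (u P))) =
        (((k + 1 : ℕ) : MvPolynomial (Fin n) F) + ((m + 1 : ℕ) : MvPolynomial (Fin n) F)) *
        pderiv j D * (∑ P ∈ G, C (c P) * (E P ^ (k + 1) * u P ^ (m + 1)) * ev h P) +
        ((m + 1 : ℕ) : MvPolynomial (Fin n) F) *
        D * (∑ P ∈ G, C (c P) * (E P ^ (k + 1) * u P ^ (m + 1)) *
          ev (fun i => pderiv j (h i)) P) -
        (((k + 1 : ℕ) : MvPolynomial (Fin n) F) + ((m + 1 : ℕ) : MvPolynomial (Fin n) F)) *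
        ∑ P ∈ G, C (c P) * (E P ^ (k + 1) * u P ^ (m + 2)) * C (P j) := by
      rw [Finset.mul_sum, Finset.mul_sum, Finset.mul_sum, ← Finset.sum_add_distrib,
        ← Finset.sum_sub_distrib]
      refine Finset.sum_congr rfl fun P hP => ?_
      rw [h7 P hP, h7' P hP]
      have h10 := huE P hP
      have h11 : E P ^ k * u P ^ (m + 2) = E P ^ (k + 1) * u P ^ (m + 1) * ev h P := by
        rw [pow_succ (u P) (m + 1)]
        nth_rewrite 2 [h10]
        ring
      linear_combination (C (c P) * ((k + 1 : ℕ) : MvPolynomial (Fin n) F) * pderiv j D) * h11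
    rw [h5, sum_ev, sum_ev] at h9
    have h10 : ∀ g : Fin n → MvPolynomial (Fin n) F,
        ∑ i, g i * ∑ P ∈ G, C (c P) * (E P ^ (k + 1) * u P ^ (m + 1)) * C (P i) = 0 := fun g =>
      Finset.sum_eq_zero fun i _ => by rw [hm i, mul_zero]
    rw [h10, h10, mul_zero, mul_zero, add_zero, zero_sub, eq_comm, neg_eq_zero] at h9
    refine (mul_eq_zero.1 h9).resolve_left ?_
    exact_mod_cast (by omega : (k + 1 + (m + 1)) ≠ 0)

end main

/-- for weights `1 / ℓ(P) ^ (k + 2)` there is no kernel for a general `ℓ` -/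
theorem no_kernel [CharZero F] (G : Finset (Fin n → F)) (c : (Fin n → F) → F)
    (hc : ∀ P ∈ G, c P ≠ 0) (v : Fin n → F) (hv : ∀ P ∈ G, v ⬝ᵥ P = 1)
    (hspan : ∀ u : Fin n → F, (∀ P ∈ G, u ⬝ᵥ P = 0) → u = 0) (k : ℕ)
    (hbad : ∀ l : Fin n → F, (∀ P ∈ G, l ⬝ᵥ P ≠ 0) → ∃ h : Fin n → F, h ≠ 0 ∧
      ∀ q : Fin n → F, ∑ P ∈ G, c P * (h ⬝ᵥ P / (l ⬝ᵥ P) ^ (k + 2)) * (q ⬝ᵥ P) = 0) :
    False := by
  classical
  set D : MvPolynomial (Fin n) F := ∏ Q ∈ G, lin Q with hD
  set E : (Fin n → F) → MvPolynomial (Fin n) F := fun P => ∏ Q ∈ G.erase P, lin Q with hEdef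
  have hP0 : ∀ P ∈ G, P ≠ 0 := by
    rintro P hP rfl
    have := hv 0 hP
    simp at this
  have hD0 : D ≠ 0 := Finset.prod_ne_zero_iff.2 fun Q hQ => lin_ne_zero (hP0 Q hQ)
  have hE0 : ∀ P, E P ≠ 0 := fun P =>
    Finset.prod_ne_zero_iff.2 fun Q hQ => lin_ne_zero (hP0 Q (Finset.mem_of_mem_erase hQ))
  have hED : ∀ P ∈ G, lin P * E P = D := fun P hP => Finset.mul_prod_erase G _ hP
  -- a polynomial kernel vector
  let M : Matrix (Fin n) (Fin n) (MvPolynomial (Fin n) F) :=
    Matrix.of fun k' i => ∑ P ∈ G, C (c P) * (C (P i) * E P ^ (k + 2)) * C (P k')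
  have hM : ∀ (h : Fin n → MvPolynomial (Fin n) F) (k' : Fin n), Matrix.mulVec M h k' =
      ∑ P ∈ G, C (c P) * (ev h P * E P ^ (k + 2)) * C (P k') := by
    intro h k'
    rw [Matrix.mulVec, dotProduct]
    simp only [M, Matrix.of_apply, Finset.sum_mul, ev_def]
    rw [Finset.sum_comm]
    refine Finset.sum_congr rfl fun P _ => ?_
    rw [Finset.mul_sum, Finset.sum_mul]
    refine Finset.sum_congr rfl fun i _ => ?_
    ring
  have hnot : ¬ Inj M := by
    intro hinj
    obtain ⟨d, B, hd, hB⟩ := hinj.exists_scaled_left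
    obtain ⟨l, hl⟩ := exists_eval_ne (mul_ne_zero hd hD0)
    rw [map_mul] at hl
    have hld : eval l d ≠ 0 := left_ne_zero_of_mul hl
    have hlD : eval l D ≠ 0 := right_ne_zero_of_mul hl
    have hlP : ∀ P ∈ G, l ⬝ᵥ P ≠ 0 := by
      intro P hP h
      apply hlD
      rw [hD, map_prod]
      refine Finset.prod_eq_zero hP ?_
      rw [LefRed.eval_lin, dotProduct_comm, h]
    have hInj := inj_map_of_scaled_left (eval l) hB hld
    obtain ⟨h, hh1, hh2⟩ := hbad l hlP
    apply hh1
    apply hInj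
    funext k'
    rw [Matrix.mulVec, dotProduct, Pi.zero_apply]
    simp only [M, Matrix.map_apply, Matrix.of_apply, map_sum, map_mul, eval_C, map_pow,
      Finset.sum_mul]
    rw [Finset.sum_comm]
    have h3 : ∀ P ∈ G, eval l (E P) = eval l D / (l ⬝ᵥ P) := by
      intro P hP
      rw [eq_div_iff (hlP P hP), ← hED P hP, map_mul, LefRed.eval_lin, dotProduct_comm l P]
      ring
    have h4 := hh2 (Pi.single k' 1)
    simp only [single_dotProduct, one_mul] at h4
    have h5 : (eval l D) ^ (k + 2) *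
        ∑ P ∈ G, c P * (h ⬝ᵥ P / (l ⬝ᵥ P) ^ (k + 2)) * P k' = 0 := by rw [h4, mul_zero]
    rw [← h5, Finset.mul_sum]
    refine Finset.sum_congr rfl fun P hP => ?_
    have h6 : ∀ i, c P * (P i * eval l (E P) ^ (k + 2)) * P k' * h i =
        c P * (eval l D) ^ (k + 2) / (l ⬝ᵥ P) ^ (k + 2) * P k' * (h i * P i) := by
      intro i
      rw [h3 P hP, div_pow]
      ring
    simp only [h6]
    have h7 : ∑ i, h i * P i = h ⬝ᵥ P := rfl
    rw [← Finset.mul_sum, h7]
    ring
  obtain ⟨h, hMh, hh0⟩ : ∃ h : Fin n → MvPolynomial (Fin n) F, Matrix.mulVec M h = 0 ∧ h ≠ 0 := by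
    rw [Inj] at hnot
    push Not at hnot
    exact hnot
  set u : (Fin n → F) → MvPolynomial (Fin n) F := fun P => ev h P * E P with hu
  have h1 : ∀ i, ∑ P ∈ G, C (c P) * (E P ^ (k + 1) * u P) * C (P i) = 0 := by
    intro i
    have h2 := congrFun hMh i
    rw [hM, Pi.zero_apply] at h2
    rw [← h2]
    refine Finset.sum_congr rfl fun P _ => ?_
    rw [hu]
    ring
  have hpow := powersW G c h D u E k hED (fun P _ => rfl) h1
  -- classes
  have hcl : ∀ w ∈ G.image u, ∀ i, w * ∑ P ∈ G with u P = w,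
      C (c P) * E P ^ (k + 1) * (C (P i) : MvPolynomial (Fin n) F) = 0 := by
    intro w hw i
    refine vand (T := G.image u) (fun w => w * ∑ P ∈ G with u P = w,
      C (c P) * E P ^ (k + 1) * (C (P i) : MvPolynomial (Fin n) F)) (fun m => ?_) w hw
    rw [← hpow m i, ← Finset.sum_fiberwise_of_maps_to (g := u) (t := G.image u)
      (fun P hP => Finset.mem_image_of_mem u hP)]
    refine Finset.sum_congr rfl fun w' _ => ?_
    rw [smul_eq_mul, Finset.mul_sum, Finset.mul_sum]
    refine Finset.sum_congr rfl fun P hP => ?_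
    rw [(Finset.mem_filter.1 hP).2]
    ring
  -- all `u P` vanish
  have hu0 : ∀ P ∈ G, u P = 0 := by
    intro P0 hP0G
    by_contra hne
    have h2 : ∀ i, ∑ P ∈ G with u P = u P0,
        C (c P) * E P ^ (k + 1) * (C (P i) : MvPolynomial (Fin n) F) = 0 := fun i =>
      (mul_eq_zero.1 (hcl (u P0) (Finset.mem_image_of_mem u hP0G) i)).resolve_left hne
    have hE' : (∏ Q ∈ G.erase P0, lin (Q - P0) : MvPolynomial (Fin n) F) ≠ 0 :=
      Finset.prod_ne_zero_iff.2 fun Q hQ =>
        lin_ne_zero (sub_ne_zero.2 (Finset.ne_of_mem_erase hQ))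
    obtain ⟨z, hz⟩ := exists_eval_ne hE'
    rw [map_prod, Finset.prod_ne_zero_iff] at hz
    set y : Fin n → F := z - (z ⬝ᵥ P0) • v with hy
    have hyQ : ∀ Q ∈ G, Q ⬝ᵥ y = z ⬝ᵥ (Q - P0) := by
      intro Q hQ
      rw [hy, dotProduct_sub, dotProduct_smul, dotProduct_comm Q v, hv Q hQ, smul_eq_mul, mul_one,
        dotProduct_sub, dotProduct_comm Q z]
    have hEe : eval y (E P0) ≠ 0 := by
      rw [hEdef, map_prod]
      refine Finset.prod_ne_zero_iff.2 fun Q hQ => ?_
      have h5 := hz Q hQ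
      rw [LefRed.eval_lin, dotProduct_comm] at h5
      rw [LefRed.eval_lin, hyQ Q (Finset.mem_of_mem_erase hQ)]
      exact h5
    have hEz : ∀ P ∈ G, P ≠ P0 → eval y (E P) = 0 := by
      intro P hP hPP0
      rw [hEdef, map_prod]
      refine Finset.prod_eq_zero (Finset.mem_erase.2 ⟨hPP0.symm, hP0G⟩) ?_
      rw [LefRed.eval_lin, hyQ P0 hP0G, sub_self, dotProduct_zero]
    clear_value E u y
    obtain ⟨i, hi⟩ := Function.ne_iff.1 (hP0 P0 hP0G)
    have h3 := congrArg (eval y) (h2 i)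
    have hmem : P0 ∈ G.filter (fun P => u P = u P0) := Finset.mem_filter.2 ⟨hP0G, rfl⟩
    rw [map_zero, map_sum, Finset.sum_eq_single_of_mem P0 hmem] at h3
    · rw [map_mul, map_mul, eval_C, eval_C, map_pow] at h3
      exact mul_ne_zero (mul_ne_zero (hc P0 hP0G) (pow_ne_zero (k + 1) hEe)) hi h3
    · intro P hP hPP0
      rw [map_mul, map_mul, map_pow, hEz P (Finset.mem_filter.1 hP).1 hPP0,
        zero_pow (Nat.succ_ne_zero k), mul_zero, zero_mul]
  apply hh0
  funext i
  ext e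
  have h2 : (fun i => coeff e (h i)) = 0 := by
    apply hspan
    intro P hP
    have h3 : ev h P = 0 := (mul_eq_zero.1 (hu0 P hP)).resolve_right (hE0 P)
    have h4 := congrArg (coeff e) h3
    rw [ev_def, coeff_sum, coeff_zero] at h4
    rw [dotProduct, ← h4]
    refine Finset.sum_congr rfl fun i _ => ?_
    rw [mul_comm (h i), coeff_C_mul, mul_comm]
  simpa using congrFun h2 i

end Pool.Agent.LefRed
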