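import Pool.Agent.LefRed.Glue1

/-!
The points span the space.
-/

set_option autoImplicit false
set_option linter.unusedSectionVars false

namespace Pool.Agent.LefRed

open MvPolynomial Pool.Agent.LefProd

universe u

variable {F : Type u} [Field F] {n : ℕ}

lemma strip {W : Submodule F (Fin n → F)} : ∀ {𝓛 : List (List (Fin n → F))},
    (∀ l ∈ 𝓛, 2 ≤ l.length) → ∀ {p : MvPolynomial (Fin n) F}, p.IsHomogeneous 1 →
    p ∈ J W 𝓛 → p ∈ J W []
  | [], _, _, _, h => h
  | l :: 𝓛, h2, _, hp, h => strip (fun l' hl' => h2 l' (List.mem_cons_of_mem _ hl')) hp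
      (cons_hom_lt hp h (lt_of_lt_of_le (by norm_num) (h2 l List.mem_cons_self)))

lemma mem_J_bot_nil {p : MvPolynomial (Fin n) F} (h : p ∈ J ⊥ []) : p = 0 := by
  rw [J_nil] at h
  have : Ideal.span (lin '' ((⊥ : Submodule F (Fin n → F)) : Set (Fin n → F))) = ⊥ := by
    rw [Submodule.bot_coe, Set.image_singleton, map_zero, Ideal.span_singleton_eq_bot]
  rw [this] at h
  exact h

theorem span_pts {l : List (Fin n → F)} {𝓛 : List (List (Fin n → F))}
    (hci : CI ⊥ (l :: 𝓛)) {v : Fin n → F} (hvl : v ∈ l) (hred : Red ⊥ v 𝓛)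
    (h2 : ∀ l' ∈ 𝓛, 2 ≤ l'.length) (G : Finset (Fin n → F))
    (hG : ∀ P, P ∈ G ↔ (v ⬝ᵥ P = 1 ∧ (∀ w ∈ (⊥ : Submodule F (Fin n → F)), w ⬝ᵥ P = 0) ∧
      ∀ l ∈ 𝓛, ∃ u ∈ l, u ⬝ᵥ P = 0)) :
    ∀ u : Fin n → F, (∀ P ∈ G, u ⬝ᵥ P = 0) → u = 0 := by
  intro u hu
  have hv := hci.2.1 v hvl
  have hdim := hci.2.2
  rw [List.length_cons] at hdim
  obtain ⟨G', r, hG', hcard, hr0, hsep, hr⟩ := residue hci.1.tail hv.1 hv.2 (by omega) hred
  obtain rfl : G' = G := by
    ext P
    rw [hG', hG]
  have hne : G'.Nonempty := by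
    rw [← Finset.card_pos, hcard]
    apply List.prod_pos
    intro x hx
    obtain ⟨l', hl', rfl⟩ := List.mem_map.1 hx
    exact List.length_pos_iff.2 (hci.1.tail l' hl')
  have hci2 := CI_sup_mem hci hvl
  obtain ⟨P0, hP0⟩ := hne
  have hvP : ∀ P ∈ G', v ⬝ᵥ P = 1 := fun P hP => ((hG P).1 hP).1
  -- `lin u` lies in the ideal
  have hmem : lin u ∈ J (⊥ ⊔ Submodule.span F {v}) [] := by
    rcases Nat.eq_zero_or_pos (sg 𝓛) with h0 | hpos
    · have h𝓛 : 𝓛 = [] := by
        cases 𝓛 with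
        | nil => rfl
        | cons l' 𝓛' =>
          exfalso
          rw [sg_cons] at h0
          have := h2 l' List.mem_cons_self
          omega
      subst h𝓛
      have htop : (⊥ ⊔ Submodule.span F {v} : Submodule F (Fin n → F)) = ⊤ := by
        apply Submodule.eq_top_of_finrank_eq
        have := hci2.2.2
        rw [List.length_nil, add_zero] at this
        rw [this, Module.finrank_fin_fun]
      exact lin_mem_J (htop ▸ Submodule.mem_top)
    · apply strip h2 (lin_isHomogeneous u)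
      let ε : MvPolynomial (Fin n) F →ₗ[F] F :=
        ∑ P ∈ G', r P • (aeval P : MvPolynomial (Fin n) F →ₐ[F] F).toLinearMap
      have hεa : ∀ p, ε p = ∑ P ∈ G', r P * eval P p := by
        intro p
        simp only [ε, LinearMap.sum_apply, LinearMap.smul_apply, AlgHom.toLinearMap_apply,
          smul_eq_mul]
        rfl
      have hback : ∀ p : MvPolynomial (Fin n) F, p.IsHomogeneous (sg 𝓛) →
          p ∈ J (⊥ ⊔ Submodule.span F {v}) 𝓛 → ε p = 0 := by
        intro p hp hpJ
        obtain ⟨a, ha, hpa⟩ := sup_hom hp hpJ hpos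
        rw [hεa, ← hr (sg 𝓛 - 1) a (by omega) ha]
        refine Finset.sum_congr rfl fun P hP => ?_
        have h1 := eval_mem hci hvl G' hG hP hpa
        rw [map_sub, map_mul, LefProd.eval_lin, hvP P hP, one_mul, sub_eq_zero] at h1
        rw [h1]
      obtain ⟨e, he, hed⟩ := top_dim hci2
      have hCe : ∀ c : F, (C c * e : MvPolynomial (Fin n) F).IsHomogeneous (sg 𝓛) := by
        intro c
        have := (isHomogeneous_C (Fin n) c).mul he
        rwa [zero_add] at this
      have hεc : ∀ p : MvPolynomial (Fin n) F, p.IsHomogeneous (sg 𝓛) → ∀ c : F,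
          p - C c * e ∈ J (⊥ ⊔ Submodule.span F {v}) 𝓛 → ε p = c * ε e := by
        intro p hp c hc
        have h1 := hback _ (hp.sub (hCe c)) hc
        rw [map_sub, ← smul_eq_C_mul, map_smul, smul_eq_mul, sub_eq_zero] at h1
        exact h1
      have hεe : ε e ≠ 0 := by
        intro h0
        obtain ⟨g, hg, hgP, hgQ⟩ := hsep P0 hP0
        obtain ⟨c, hc⟩ := hed g hg
        have h1 := hεc g hg c hc
        rw [h0, mul_zero, hεa, Finset.sum_eq_single_of_mem P0 hP0] at h1
        · exact mul_ne_zero (hr0 P0 hP0) hgP h1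
        · intro Q hQ hQP
          rw [hgQ Q hQ hQP, mul_zero]
      have hε : ∀ p : MvPolynomial (Fin n) F, p.IsHomogeneous (sg 𝓛) →
          (ε p = 0 ↔ p ∈ J (⊥ ⊔ Submodule.span F {v}) 𝓛) := by
        intro p hp
        refine ⟨fun h => ?_, hback p hp⟩
        obtain ⟨c, hc⟩ := hed p hp
        have h1 := hεc p hp c hc
        rw [h] at h1
        have hc0 : c = 0 := (mul_eq_zero.1 h1.symm).resolve_right hεe
        rw [hc0] at hc
        simpa using hc
      refine nondeg hci2 hε (i := 1) (i' := sg 𝓛 - 1) (by omega) (lin_isHomogeneous u) ?_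
      intro q _
      rw [hεa]
      refine Finset.sum_eq_zero fun P hP => ?_
      rw [map_mul, LefProd.eval_lin, hu P hP, mul_zero, mul_zero]
  obtain ⟨a, ha, hua⟩ := sup_hom (lin_isHomogeneous u) hmem le_rfl
  have h3 := mem_J_bot_nil hua
  have hC : a = C (coeff 0 a) :=
    totalDegree_eq_zero_iff_eq_C.1 (Nat.le_zero.1 ha.totalDegree_le)
  have h4 : u = coeff 0 a • v := by
    apply lin_injective
    rw [map_smul, smul_eq_C_mul, mul_comm, ← hC]
    exact sub_eq_zero.1 h3
  have h5 := hu P0 hP0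
  rw [h4, smul_dotProduct, hvP P0 hP0, smul_eq_mul, mul_one] at h5
  rw [h4, h5, zero_smul]

end Pool.Agent.LefRed
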