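import Pool.Agent.LefRed.Pow
import Pool.Agent.LefRed.Span

/-!
Maximal rank of all powers of a general linear form up to the degree `l.length + 1`, and dually.
-/

set_option autoImplicit false
set_option linter.unusedSectionVars false

namespace Pool.Agent.LefRed

open MvPolynomial Pool.Agent.LefProd

universe u

variable {F : Type u} [Field F] {n : ℕ}

/-- the sum of `c P / m(P) ^ (k + 1)` is not zero for all `m` -/
lemma poles_pow [CharZero F] (G : Finset (Fin n → F)) (hne : G.Nonempty) (c : (Fin n → F) → F)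
    (hc : ∀ P ∈ G, c P ≠ 0) (v : Fin n → F) (hv : ∀ P ∈ G, v ⬝ᵥ P = 1) (k : ℕ) :
    ∃ m : Fin n → F, (∀ P ∈ G, m ⬝ᵥ P ≠ 0) ∧ ∑ P ∈ G, c P / (m ⬝ᵥ P) ^ (k + 1) ≠ 0 := by
  classical
  by_contra hcon
  push Not at hcon
  obtain ⟨P0, hP0⟩ := hne
  -- the numerator vanishes identically
  set q : MvPolynomial (Fin n) F := ∑ P ∈ G, C (c P) * (∏ Q ∈ G.erase P, lin Q) ^ (k + 1) with hq
  set D : MvPolynomial (Fin n) F := ∏ Q ∈ G, lin Q with hD
  have hD0 : D ≠ 0 := by
    refine Finset.prod_ne_zero_iff.2 fun Q hQ => lin_ne_zero ?_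
    rintro rfl
    have := hv 0 hQ
    simp at this
  have hqD : q * D = 0 := by
    by_contra hne
    obtain ⟨m, hm⟩ := exists_eval_ne hne
    rw [map_mul] at hm
    have hmD : eval m D ≠ 0 := right_ne_zero_of_mul hm
    have hmP : ∀ P ∈ G, m ⬝ᵥ P ≠ 0 := by
      intro P hP h
      apply hmD
      rw [hD, map_prod]
      refine Finset.prod_eq_zero hP ?_
      rw [LefRed.eval_lin, dotProduct_comm, h]
    apply left_ne_zero_of_mul hm
    have h1 := hcon m hmP
    have h2 : eval m q = (eval m D) ^ (k + 1) * ∑ P ∈ G, c P / (m ⬝ᵥ P) ^ (k + 1) := by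
      rw [hq, map_sum, Finset.mul_sum]
      refine Finset.sum_congr rfl fun P hP => ?_
      rw [hD, ← Finset.mul_prod_erase G _ hP, map_mul, map_mul, eval_C, LefRed.eval_lin,
        dotProduct_comm P m, map_pow, mul_pow]
      have := hmP P hP
      field_simp
    rw [h2, h1, mul_zero]
  have hq0 : q = 0 := (mul_eq_zero.1 hqD).resolve_right hD0
  -- a form through `P0` only
  have hE : (∏ Q ∈ G.erase P0, lin (Q - P0) : MvPolynomial (Fin n) F) ≠ 0 :=
    Finset.prod_ne_zero_iff.2 fun Q hQ =>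
      lin_ne_zero (sub_ne_zero.2 (Finset.ne_of_mem_erase hQ))
  obtain ⟨z, hz⟩ := exists_eval_ne hE
  rw [map_prod, Finset.prod_ne_zero_iff] at hz
  set y : Fin n → F := z - (z ⬝ᵥ P0) • v with hy
  have hyQ : ∀ Q ∈ G, Q ⬝ᵥ y = z ⬝ᵥ (Q - P0) := by
    intro Q hQ
    rw [hy, dotProduct_sub, dotProduct_smul, dotProduct_comm Q v, hv Q hQ, smul_eq_mul, mul_one,
      dotProduct_sub, dotProduct_comm Q z]
  have h3 := congrArg (eval y) hq0
  rw [hq, map_zero, map_sum, Finset.sum_eq_single P0] at h3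
  · rw [map_mul, eval_C, map_pow, map_prod] at h3
    rcases mul_eq_zero.1 h3 with h | h
    · exact hc P0 hP0 h
    · obtain ⟨Q, hQ, hQ0⟩ := Finset.prod_eq_zero_iff.1 (eq_zero_of_pow_eq_zero h)
      apply hz Q hQ
      rw [LefRed.eval_lin] at hQ0 ⊢
      rw [hyQ Q (Finset.mem_of_mem_erase hQ)] at hQ0
      rw [dotProduct_comm, hQ0]
  · intro P hP hPP0
    have h4 : eval y (∏ Q ∈ G.erase P, lin Q) = 0 := by
      rw [map_prod]
      refine Finset.prod_eq_zero (i := P0) (Finset.mem_erase.2 ⟨hPP0.symm, hP0⟩) ?_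
      rw [LefRed.eval_lin, hyQ P0 hP0, sub_self, dotProduct_zero]
    rw [map_mul, map_pow, h4, zero_pow (Nat.succ_ne_zero k), mul_zero]
  · intro h
    exact absurd hP0 h

section

variable {l : List (Fin n → F)} {𝓛 : List (List (Fin n → F))} (hci : CI ⊥ (l :: 𝓛))
  {v : Fin n → F} (hvl : v ∈ l) (G : Finset (Fin n → F))
  (hG : ∀ P, P ∈ G ↔ (v ⬝ᵥ P = 1 ∧ (∀ w ∈ (⊥ : Submodule F (Fin n → F)), w ⬝ᵥ P = 0) ∧
      ∀ l ∈ 𝓛, ∃ u ∈ l, u ⬝ᵥ P = 0))

include hci hvl hG

lemma nzd_pow_of_ne (hne : G.Nonempty) {m : Fin n → F} (hm : ∀ P ∈ G, m ⬝ᵥ P ≠ 0) (k : ℕ)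
    {p : MvPolynomial (Fin n) F} (hp : lin m ^ k * p ∈ J ⊥ 𝓛) : p ∈ J ⊥ 𝓛 := by
  induction k with
  | zero => simpa using hp
  | succ k ih =>
    apply ih
    apply nzd_of_ne hci hvl G hG hne hm
    rw [← mul_assoc, ← pow_succ']
    exact hp

end

/-- powers up to the degree `l.length + 1` -/
theorem EX_pow [CharZero F] {l : List (Fin n → F)} {𝓛 : List (List (Fin n → F))}
    (hci : CI ⊥ (l :: 𝓛)) {v : Fin n → F} (hvl : v ∈ l) (hred : Red ⊥ v 𝓛)
    (h2 : ∀ l' ∈ 𝓛, 2 ≤ l'.length) {m j : ℕ} (hm : 1 ≤ m) (hj : j + m ≤ l.length + 1)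
    (hj2 : 2 * j + m ≤ sg (l :: 𝓛)) :
    EX (J ⊥ (l :: 𝓛)) m j := by
  have hj2' := hj2
  rw [sg_cons] at hj2'
  have hl1 : 1 ≤ l.length := List.length_pos_iff.2 (hci.1 l List.mem_cons_self)
  have hv := hci.2.1 v hvl
  have hdim := hci.2.2
  rw [List.length_cons] at hdim
  obtain ⟨G, r, hG, hcard, hr0, hsep, hr⟩ := residue hci.1.tail hv.1 hv.2 (by omega) hred
  have hne : G.Nonempty := by
    rw [← Finset.card_pos, hcard]
    apply List.prod_pos
    intro x hx
    obtain ⟨l', hl', rfl⟩ := List.mem_map.1 hx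
    exact List.length_pos_iff.2 (hci.1.tail l' hl')
  have hvP : ∀ P ∈ G, v ⬝ᵥ P = 1 := fun P hP => ((hG P).1 hP).1
  have hle : J ⊥ 𝓛 ≤ J ⊥ (l :: 𝓛) := by
    rw [J_cons]; exact le_sup_right
  have hmh : ∀ (μ : Fin n → F) (p : MvPolynomial (Fin n) F), p.IsHomogeneous j →
      (lin μ ^ m * p).IsHomogeneous (j + m) := fun μ p hp => lin_pow_mul_hom hp
  have hc0 : ∀ P ∈ G, r P * eval P (pr l) ≠ 0 := fun P hP =>
    mul_ne_zero (hr0 P hP) (eval_pr_ne hci hvl G hG hP)
  rcases Nat.lt_or_ge (j + m) l.length with hlt | hge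
  · refine ⟨v, fun p hp hmp => ?_⟩
    exact hle (nzd_pow_of_ne hci hvl G hG hne
      (fun P hP => by rw [hvP P hP]; exact one_ne_zero) m (cons_hom_lt (hmh v p hp) hmp hlt))
  rcases Nat.lt_or_ge l.length (j + m) with hgt | hle2
  · -- degree of `h` is one
    have hjm : j + m = l.length + 1 := by omega
    rcases Nat.lt_or_ge 1 m with hm2 | hm1
    · obtain ⟨k, rfl⟩ : ∃ k, m = k + 2 := ⟨m - 2, by omega⟩
      by_contra hnot
      refine no_kernel G (fun P => r P * eval P (pr l)) hc0 v hvP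
        (span_pts hci hvl hred h2 G hG) k ?_
      intro μ hμ
      have h1 : ¬ LI (J ⊥ (l :: 𝓛)) μ (k + 2) j := fun h => hnot ⟨μ, h⟩
      rw [LI] at h1
      push Not at h1
      obtain ⟨p, hp, hmp, hpJ⟩ := h1
      obtain ⟨h, hh, hmem⟩ := cons_hom (hmh μ p hp) hmp (by omega)
      rw [show j + (k + 2) - l.length = 1 by omega] at hh
      obtain ⟨h', rfl⟩ := exists_lin hh
      refine ⟨h', ?_, ?_⟩
      · rintro rfl
        apply hpJ
        rw [map_zero, mul_zero, sub_zero] at hmem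
        exact hle (nzd_pow_of_ne hci hvl G hG hne hμ _ hmem)
      · intro q
        rw [← hr (j + 1) (p * lin q) (by omega) (hp.mul (lin_isHomogeneous q))]
        refine Finset.sum_congr rfl fun P hP => ?_
        have h2 := eval_mem hci hvl G hG hP hmem
        rw [map_sub, map_mul, map_mul, map_pow, LefProd.eval_lin, LefProd.eval_lin,
          sub_eq_zero] at h2
        rw [map_mul, LefProd.eval_lin]
        have h3 := pow_ne_zero (k + 2) (hμ P hP)
        have h4 : eval P p = eval P (pr l) * (h' ⬝ᵥ P) / (μ ⬝ᵥ P) ^ (k + 2) := by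
          rw [eq_div_iff h3, ← h2]
          ring
        rw [h4]
        ring
    · obtain rfl : m = 1 := by omega
      obtain rfl : j = l.length := by omega
      exact EX_top hci hvl hred h2 (by omega)
  · -- degree of `h` is zero
    have hjm : j + m = l.length := by omega
    obtain ⟨k, rfl⟩ : ∃ k, m = k + 1 := ⟨m - 1, by omega⟩
    obtain ⟨μ, hμ, hμs⟩ := poles_pow G hne (fun P => r P * eval P (pr l)) hc0 v hvP k
    refine ⟨μ, fun p hp hmp => ?_⟩
    obtain ⟨h, hh, hmem⟩ := cons_hom (hmh μ p hp) hmp (by omega)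
    rw [show j + (k + 1) - l.length = 0 by omega] at hh
    have hC : h = C (coeff 0 h) :=
      totalDegree_eq_zero_iff_eq_C.1 (Nat.le_zero.1 hh.totalDegree_le)
    set t : F := coeff 0 h with ht
    rw [hC] at hmem
    have ht0 : t = 0 := by
      have h1 := hr j p (by omega) hp
      have h2 : ∀ P ∈ G, r P * eval P p =
          t * (r P * eval P (pr l) / (μ ⬝ᵥ P) ^ (k + 1)) := by
        intro P hP
        have h3 := eval_mem hci hvl G hG hP hmem
        rw [map_sub, map_mul, map_mul, map_pow, LefProd.eval_lin, eval_C, sub_eq_zero] at h3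
        have h4 := pow_ne_zero (k + 1) (hμ P hP)
        have h5 : eval P p = eval P (pr l) * t / (μ ⬝ᵥ P) ^ (k + 1) := by
          rw [eq_div_iff h4, ← h3]
          ring
        rw [h5]
        ring
      rw [Finset.sum_congr rfl h2, ← Finset.mul_sum] at h1
      exact (mul_eq_zero.1 h1).resolve_right hμs
    rw [ht0, C_0, mul_zero, sub_zero] at hmem
    exact hle (nzd_pow_of_ne hci hvl G hG hne hμ _ hmem)

/-- maximal rank of all powers, up to the degree `l.length + 1` and dually -/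
theorem mr_pow [CharZero F] {l : List (Fin n → F)} {𝓛 : List (List (Fin n → F))}
    (hci : CI ⊥ (l :: 𝓛)) {v : Fin n → F} (hvl : v ∈ l) (hred : Red ⊥ v 𝓛)
    (h2 : ∀ l' ∈ 𝓛, 2 ≤ l'.length) :
    ∃ μ, ∀ m j, (j + m ≤ l.length + 1 ∨ sg (l :: 𝓛) ≤ j + l.length + 1) →
      MaxRank (J ⊥ (l :: 𝓛)) (lin μ) m j := by
  have : Infinite F := CharZero.infinite F
  obtain ⟨μ, hμ⟩ := exists_common
    (P := fun j ν => j ≤ l.length → 2 * j + 1 ≤ sg (l :: 𝓛) →
      LI (J ⊥ (l :: 𝓛)) ν (min (sg (l :: 𝓛) - 2 * j) (l.length + 1 - j)) j)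
    (fun j => Op_imp _ (Op_imp _ (Op_LI _ _ _)))
    (fun j => ex_imp fun h1 => ex_imp fun h3 => EX_pow hci hvl hred h2 (by omega) (by omega)
      (by omega))
    (sg (l :: 𝓛) + 1)
  refine ⟨μ, fun m j hj => ?_⟩
  rcases Nat.eq_zero_or_pos m with rfl | hm
  · left
    intro p _ h
    simpa using h
  by_cases h1 : 2 * j + m ≤ sg (l :: 𝓛)
  · exact Or.inl ((hμ j (by omega) (by omega) (by omega)).of_le (by omega))
  · right
    intro q hq
    by_cases h3 : j + m ≤ sg (l :: 𝓛)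
    · exact surj_of_LI hci (j' := sg (l :: 𝓛) - (j + m)) (by omega)
        ((hμ _ (by omega) (by omega) (by omega)).of_le (by omega)) hq
    · refine ⟨0, isHomogeneous_zero _ _ _, ?_⟩
      rw [mul_zero, sub_zero]
      exact top_vanish hci hq (by omega)

end Pool.Agent.LefRed
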