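import Pool.Agent.LefRed.Hess2
import Pool.Agent.LefProd.Final

/-!
Translation from families of linear forms to lists, with the condition that no point kills two
factors of one generator, and the product of the lengths.
-/

set_option autoImplicit false
set_option linter.unusedSectionVars false

namespace Pool.Agent.LefRed

open MvPolynomial Pool.Agent.LefProd

universe u

variable {F : Type u} [Field F] {n : ℕ}

theorem reduce_red_prod (a : Fin n → ℕ) (h1 : ∀ i, 1 ≤ a i)
    (ℓ : (i : Fin n) → Fin (a i) → MvPolynomial (Fin n) F)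
    (hℓ : ∀ i j, (ℓ i j).IsHomogeneous 1)
    (hfin : Module.Finite F
      (MvPolynomial (Fin n) F ⧸ Ideal.span (Set.range fun i => ∏ j, ℓ i j))) (i0 : Fin n)
    (hred : ∀ P : Fin n → F, P ≠ 0 → (∀ i, i ≠ i0 → eval P (∏ j, ℓ i j) = 0) →
      ∀ i, i ≠ i0 → ∀ j j', eval P (ℓ i j) = 0 → eval P (ℓ i j') = 0 → j = j') :
    ∃ (l : List (Fin n → F)) (𝓛 : List (List (Fin n → F))), l.length = a i0 ∧
      (∀ l' ∈ 𝓛, ∃ i, i ≠ i0 ∧ l'.length = a i) ∧ CI ⊥ (l :: 𝓛) ∧
      Ideal.span (Set.range fun i => ∏ j, ℓ i j) = J ⊥ (l :: 𝓛) ∧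
      sg 𝓛 = ∑ i ∈ Finset.univ.erase i0, (a i - 1) ∧
      (𝓛.map List.length).prod = ∏ i ∈ Finset.univ.erase i0, a i ∧
      ∀ v P : Fin n → F, v ⬝ᵥ P = 1 → (∀ w ∈ (⊥ : Submodule F (Fin n → F)), w ⬝ᵥ P = 0) →
        (∀ l ∈ 𝓛, ∃ u ∈ l, u ⬝ᵥ P = 0) →
        ∀ l ∈ 𝓛, l.Pairwise (fun u u' => u ⬝ᵥ P = 0 → u' ⬝ᵥ P ≠ 0) := by
  classical
  choose v hv using fun i j => exists_lin (hℓ i j)
  let L : Fin n → List (Fin n → F) := fun i => List.ofFn (v i)
  have hlenL : ∀ i, (L i).length = a i := fun i => List.length_ofFn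
  have hpr : ∀ i, pr (L i) = ∏ j, ℓ i j := by
    intro i
    rw [pr, List.map_ofFn, List.prod_ofFn]
    refine Finset.prod_congr rfl fun j _ => ?_
    rw [Function.comp_apply, hv i j]
  set E : List (Fin n) := (List.finRange n).erase i0 with hE
  have hmem : ∀ i, i ∈ E ↔ i ≠ i0 := by
    intro i
    rw [hE, (List.nodup_finRange n).mem_erase_iff]
    simp
  have hperm : (List.finRange n).Perm (i0 :: E) := List.perm_cons_erase (List.mem_finRange i0)
  set 𝓛 : List (List (Fin n → F)) := E.map L with h𝓛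
  have hI : Ideal.span (Set.range fun i => ∏ j, ℓ i j) = J ⊥ (L i0 :: 𝓛) := by
    apply le_antisymm
    · rw [Ideal.span_le]
      rintro _ ⟨i, rfl⟩
      simp only
      rw [← hpr]
      apply pr_mem_J
      by_cases hi : i = i0
      · subst hi; exact List.mem_cons_self
      · exact List.mem_cons_of_mem _ (List.mem_map_of_mem ((hmem i).2 hi))
    · rw [J_le_iff]
      constructor
      · intro w hw
        rw [Submodule.mem_bot] at hw
        rw [hw, map_zero]
        exact Ideal.zero_mem _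
      · intro l hl
        obtain ⟨i, rfl⟩ : ∃ i, l = L i := by
          rcases List.mem_cons.1 hl with hl | hl
          · exact ⟨i0, hl⟩
          · obtain ⟨i, _, hi⟩ := List.mem_map.1 hl
            exact ⟨i, hi.symm⟩
        rw [hpr]
        exact Ideal.subset_span ⟨i, rfl⟩
  have hElen : E.length + 1 = n := by
    have := hperm.length_eq
    rw [List.length_finRange, List.length_cons] at this
    omega
  refine ⟨L i0, 𝓛, hlenL i0, ?_, ?_, hI, ?_, ?_, ?_⟩
  · intro l' hl'
    obtain ⟨i, hi, rfl⟩ := List.mem_map.1 hl'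
    exact ⟨i, (hmem i).1 hi, hlenL i⟩
  · apply ci_of_finite
    · intro l hl
      obtain ⟨i, rfl⟩ : ∃ i, l = L i := by
        rcases List.mem_cons.1 hl with hl | hl
        · exact ⟨i0, hl⟩
        · obtain ⟨i, _, hi⟩ := List.mem_map.1 hl
          exact ⟨i, hi.symm⟩
      intro h0
      have h3 := hlenL i
      rw [h0, List.length_nil] at h3
      have := h1 i
      omega
    · rw [finrank_bot, List.length_cons, h𝓛, List.length_map, zero_add]
      exact hElen
    · rw [← hI]; exact hfin
  · have h3 : (∑ i, (a i - 1)) = (a i0 - 1) + (E.map fun i => a i - 1).sum := by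
      rw [← List.sum_cons, ← List.map_cons (f := fun i => a i - 1), ← (hperm.map _).sum_eq,
        ← List.ofFn_eq_map, List.sum_ofFn]
    rw [← Finset.add_sum_erase _ _ (Finset.mem_univ i0)] at h3
    rw [sg, h𝓛, List.map_map]
    have h4 : ((fun l : List (Fin n → F) => l.length - 1) ∘ L) = fun i => a i - 1 := by
      funext i
      simp only [Function.comp_apply, hlenL]
    rw [h4]
    omega
  · have h3 : (∏ i, a i) = a i0 * (E.map fun i => a i).prod := by
      rw [← List.prod_cons, ← List.map_cons (f := fun i => a i), ← (hperm.map _).prod_eq,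
        ← List.ofFn_eq_map, List.prod_ofFn]
    rw [← Finset.mul_prod_erase _ _ (Finset.mem_univ i0)] at h3
    rw [h𝓛, List.map_map]
    have h4 : (List.length ∘ L) = fun i => a i := by
      funext i
      simp only [Function.comp_apply, hlenL]
    rw [h4]
    exact (Nat.eq_of_mul_eq_mul_left (h1 i0) h3).symm
  · intro w P hP _ hz l hl
    obtain ⟨i, hi, rfl⟩ := List.mem_map.1 hl
    have hi0 := (hmem i).1 hi
    have hev : ∀ i j, eval P (ℓ i j) = v i j ⬝ᵥ P := fun i j => by rw [hv i j, eval_lin]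
    have hP0 : P ≠ 0 := by
      rintro rfl
      simp at hP
    have h5 := hred P hP0 (by
      intro i' hi'
      obtain ⟨x, hx, hxP⟩ := hz (L i') (List.mem_map_of_mem ((hmem i').2 hi'))
      obtain ⟨j, rfl⟩ := (List.mem_ofFn' _ _).1 hx
      rw [map_prod]
      exact Finset.prod_eq_zero (Finset.mem_univ j) (by rw [hev, hxP])) i hi0
    rw [List.pairwise_ofFn]
    intro j j' hjj' h6 h7
    exact hjj'.ne (h5 j j' (by rw [hev, h6]) (by rw [hev, h7]))

end Pool.Agent.LefRed
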